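import Pool.Agent.H540.PS.Vals

/-! Integers of short intervals avoiding few residue classes modulo all small primes. -/

set_option autoImplicit false

namespace Pool.Agent.H540.PS

open Finset Filter Pool.Agent.H373R2.T7

theorem fac_low (c1 p ν : ℕ) (hp : 2 ≤ p) (h1 : ν ≤ c1) (h2 : ν + 1 ≤ p) :
    (1 - 1 / (p : ℝ)) ^ (4 * c1 ^ 2 + 2 * c1) ≤ 1 - (ν : ℝ) / p := by
  have hpr : (2 : ℝ) ≤ p := by exact_mod_cast hp
  have hp0 : (0 : ℝ) < p := by linarith
  obtain ⟨m, hm⟩ : ∃ m : ℕ, m = 4 * c1 ^ 2 + 2 * c1 := ⟨_, rfl⟩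
  rw [← hm]
  have hmr : (m : ℝ) = 4 * (c1 : ℝ) ^ 2 + 2 * c1 := by rw [hm]; push_cast; ring
  have h1r : (ν : ℝ) ≤ c1 := by exact_mod_cast h1
  have h2r : (ν : ℝ) + 1 ≤ p := by exact_mod_cast h2
  have hν0 : (0 : ℝ) ≤ ν := Nat.cast_nonneg _
  have hc0 : (0 : ℝ) ≤ c1 := Nat.cast_nonneg _
  have hm0 : (0 : ℝ) ≤ m := Nat.cast_nonneg _
  have hq : 0 ≤ 1 - 1 / (p : ℝ) := by
    have : 1 / (p : ℝ) ≤ 1 := (div_le_one hp0).2 (by linarith)
    linarith
  -- the main inequality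
  have key : 1 ≤ (1 - (ν : ℝ) / p) * (1 + m / p) := by
    have e : (1 - (ν : ℝ) / p) * (1 + m / p) = (p - ν) * (p + m) / (p * p) := by
      field_simp
    rw [e, le_div_iff₀ (by positivity), one_mul]
    rcases le_or_gt (p : ℝ) (2 * c1) with h | h
    · have h3 : (p : ℝ) * p ≤ p + m := by
        rw [hmr]
        nlinarith
      nlinarith
    · have h3 : (p - c1 : ℝ) * (p + m) ≤ (p - ν) * (p + m) :=
        mul_le_mul_of_nonneg_right (by linarith) (by linarith)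
      refine le_trans ?_ h3
      rw [hmr]
      have e2 : (p - c1 : ℝ) * (p + (4 * (c1 : ℝ) ^ 2 + 2 * c1)) - p * p =
          (p * (4 * (c1 : ℝ) ^ 2 + c1) - c1 * (4 * (c1 : ℝ) ^ 2 + 2 * c1)) := by ring
      have e3 : c1 * (4 * (c1 : ℝ) ^ 2 + 2 * c1) ≤ p * (4 * (c1 : ℝ) ^ 2 + c1) := by
        have h5 : 2 * c1 * (4 * (c1 : ℝ) ^ 2 + c1) ≤ p * (4 * (c1 : ℝ) ^ 2 + c1) :=
          mul_le_mul_of_nonneg_right h.le (by positivity)
        nlinarith [pow_nonneg hc0 3, pow_nonneg hc0 2]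
      linarith
  have hb : (1 + (m : ℝ) / p) ≤ (1 + 1 / (p : ℝ)) ^ m := by
    have h3 := one_add_mul_le_pow (show (-2 : ℝ) ≤ 1 / (p : ℝ) by
      have : (0 : ℝ) ≤ 1 / (p : ℝ) := by positivity
      linarith) m
    calc 1 + (m : ℝ) / p = 1 + m * (1 / p) := by ring
      _ ≤ _ := h3
  have hd : (1 - 1 / (p : ℝ)) ^ m * (1 + m / p) ≤ 1 := by
    calc (1 - 1 / (p : ℝ)) ^ m * (1 + m / p) ≤ (1 - 1 / (p : ℝ)) ^ m * (1 + 1 / (p : ℝ)) ^ m :=
          mul_le_mul_of_nonneg_left hb (by positivity)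
      _ = (1 - (1 / (p : ℝ)) ^ 2) ^ m := by rw [← mul_pow]; ring
      _ ≤ 1 := by
          apply pow_le_one₀
          · have h4 : (1 / (p : ℝ)) ^ 2 ≤ 1 := by
              apply pow_le_one₀ (by positivity)
              exact (div_le_one hp0).2 (by linarith)
            linarith
          · have : (0 : ℝ) ≤ (1 / (p : ℝ)) ^ 2 := by positivity
            linarith
  have hpos : (0 : ℝ) < 1 + m / p := by positivity
  have := hd.trans key
  exact le_of_mul_le_mul_right this hpos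

open Classical in
/-- **Base points.** -/
theorem base (k : ℕ) : ∃ (κ : ℝ) (T0 : ℕ), 0 < κ ∧ κ ≤ 1 ∧ ∀ T : ℕ, T0 ≤ T → ∀ (Q : ℕ → ℤ → Prop) (M : ℤ),
      (∀ p : ℕ, p.Prime → (∀ m m' : ℤ, (p : ℤ) ∣ m - m' → (Q p m ↔ Q p m')) ∧ (∃ r, ¬ Q p r) ∧
        (RR (Q p) p).card ≤ k) →
      ∃ t : ℤ, M < t ∧ t ≤ M + T ∧ ∀ p : ℕ, p.Prime → (p : ℝ) ≤ (T : ℝ) ^ κ → ¬ Q p t := by
  obtain ⟨c1, hc1⟩ : ∃ c1 : ℕ, c1 = k + 1 := ⟨_, rfl⟩
  obtain ⟨K, x0, hK, HF⟩ := sys_fund c1 (by omega) (1 / 2) (by norm_num)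
  obtain ⟨C, y0, HV⟩ := Vz_low
  obtain ⟨m, hm⟩ : ∃ m : ℕ, m = 4 * c1 ^ 2 + 2 * c1 := ⟨_, rfl⟩
  obtain ⟨e, he⟩ : ∃ e : ℕ, e = K + C * m + 2 := ⟨_, rfl⟩
  have he0 : 0 < e := by omega
  obtain ⟨Y, hY⟩ : ∃ Y : ℕ, Y = x0 + y0 + 3 := ⟨_, rfl⟩
  refine ⟨1 / (4 * e : ℕ), Y ^ (2 * e), by positivity, ?_, ?_⟩
  · rw [div_le_one (by positivity)]
    have : 1 ≤ 4 * e := by omega
    exact_mod_cast this
  intro T hT Q M hQ
  -- the root
  obtain ⟨y, hy1, hy2⟩ : ∃ y : ℕ, y ^ (2 * e) ≤ T ∧ T < (y + 1) ^ (2 * e) := by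
    have hP : ∃ z : ℕ, T < (z + 1) ^ (2 * e) := ⟨T, by
      calc T < T + 1 := by omega
        _ ≤ (T + 1) ^ (2 * e) := Nat.le_self_pow (by omega) _⟩
    refine ⟨Nat.find hP, ?_, Nat.find_spec hP⟩
    rcases Nat.eq_zero_or_pos (Nat.find hP) with h | h
    · rw [h, zero_pow (by omega)]
      exact Nat.zero_le _
    · have h2 := Nat.find_min hP (m := Nat.find hP - 1) (by omega)
      rw [show Nat.find hP - 1 + 1 = Nat.find hP by omega] at h2
      omega
  have hyY : Y ≤ y := by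
    by_contra hcon
    push Not at hcon
    have h1 : (y + 1) ^ (2 * e) ≤ Y ^ (2 * e) := Nat.pow_le_pow_left (by omega) _
    omega
  have hy3 : 3 ≤ y := by omega
  have hyr : (3 : ℝ) ≤ y := by exact_mod_cast hy3
  have hy0 : (0 : ℝ) < y := by linarith
  obtain ⟨Q', hQ'⟩ : ∃ Q' : ℕ → ℕ → Prop, Q' = fun (p n : ℕ) => p.Prime ∧ Q p (M + (n : ℤ)) := ⟨_, rfl⟩
  -- number of classes
  have hcard : ∀ p : ℕ, p.Prime → nuB Q' p ≤ k ∧ nuB Q' p + 1 ≤ p := by
    intro p hp
    obtain ⟨hper, ⟨r, hr⟩, hk⟩ := hQ p hp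
    have hpz : (0 : ℤ) < p := by exact_mod_cast hp.pos
    constructor
    · refine le_trans ?_ hk
      unfold nuB
      apply card_le_card_of_injOn (fun n : ℕ => ((M + n) % (p : ℤ)).toNat)
      · intro n hn
        rw [mem_coe, mem_filter, mem_range, hQ'] at hn
        obtain ⟨h1, _, h2⟩ := hn
        have h3 := Int.emod_nonneg (M + n) hpz.ne'
        have h4 := Int.emod_lt_of_pos (M + n) hpz
        rw [mem_coe, mem_RR]
        simp only
        refine ⟨by omega, ?_⟩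
        rw [Int.toNat_of_nonneg h3]
        refine (hper _ _ ?_).1 h2
        exact Int.dvd_self_sub_of_emod_eq rfl
      · intro n hn n' hn' h
        rw [mem_coe, mem_filter, mem_range] at hn hn'
        simp only at h
        have h3 := Int.emod_nonneg (M + n) hpz.ne'
        have h4 := Int.emod_nonneg (M + n') hpz.ne'
        have h5 : (M + n) % (p : ℤ) = (M + n') % (p : ℤ) := by omega
        have h6 : (n : ℤ) ≡ n' [ZMOD p] := by
          have : M + n ≡ M + n' [ZMOD p] := h5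
          exact Int.ModEq.add_left_cancel' M this
        exact Nat.ModEq.eq_of_lt_of_lt (Int.natCast_modEq_iff.1 h6) hn.1 hn'.1
    · -- the class of `r` is missing
      obtain ⟨s, hs⟩ : ∃ s : ℕ, s = ((r - M) % (p : ℤ)).toNat := ⟨_, rfl⟩
      have h3 := Int.emod_nonneg (r - M) hpz.ne'
      have h4 := Int.emod_lt_of_pos (r - M) hpz
      have hsp : s < p := by omega
      have hsQ : ¬ Q' p s := by
        rw [hQ']
        rintro ⟨_, h5⟩
        apply hr
        refine (hper _ _ ?_).1 h5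
        rw [hs, Int.toNat_of_nonneg h3]
        have h6 : (p : ℤ) ∣ (r - M) - (r - M) % p := Int.dvd_self_sub_of_emod_eq rfl
        have e : M + (r - M) % (p : ℤ) - r = -((r - M) - (r - M) % p) := by ring
        rw [e]
        exact (dvd_neg).2 h6
      have h5 : (range p).filter (fun r => Q' p r) ⊆ (range p).erase s := by
        intro n hn
        rw [mem_filter] at hn
        rw [mem_erase]
        refine ⟨?_, hn.1⟩
        rintro rfl
        exact hsQ hn.2
      have h6 := card_le_card h5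
      rw [card_erase_of_mem (mem_range.2 hsp), card_range] at h6
      unfold nuB
      have := hp.pos
      omega
  have hPer : PerB Q' c1 := by
    refine ⟨?_, fun p hp => (hcard p hp).1.trans (by omega)⟩
    intro p n
    rw [hQ']
    simp only
    apply and_congr_right
    intro hp
    apply (hQ p hp).1
    have e : M + (n : ℤ) - (M + ((n % p : ℕ) : ℤ)) = n - (n % p : ℕ) := by ring
    rw [e]
    push_cast
    exact Int.dvd_self_sub_of_emod_eq rfl
  have hyK : y ^ K ≤ y ^ (2 * e) := Nat.pow_le_pow_right (by omega) (by omega)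
  have hF := HF (y ^ (2 * e)) y (by omega) hyK Q' hPer (y ^ (2 * e))
  obtain ⟨P, hP⟩ : ∃ P : ℝ, P = ∏ p ∈ pz y, (1 - (nuB Q' p : ℝ) / p) := ⟨_, rfl⟩
  rw [← hP] at hF
  -- lower bound for the product
  have hPl : 1 / (y : ℝ) ^ (C * m) ≤ P := by
    have h1 : 1 / (y : ℝ) ^ C ≤ Vz y := by
      refine le_trans ?_ (HV y (by omega))
      have hL : 0 < Real.log y := Real.log_pos (by linarith)
      apply one_div_le_one_div_of_le (by positivity)
      apply pow_le_pow_left₀ hL.le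
      have := Real.log_le_sub_one_of_pos hy0
      linarith
    have h2 : (1 / (y : ℝ) ^ C) ^ m ≤ (Vz y) ^ m := pow_le_pow_left₀ (by positivity) h1 m
    have h3 : (Vz y) ^ m ≤ P := by
      rw [hP]
      unfold Vz
      rw [← prod_pow]
      apply Finset.prod_le_prod
      · intro p hp
        have hp2 : (2 : ℝ) ≤ p := by exact_mod_cast (mem_pz.1 hp).2.two_le
        have : 1 / (p : ℝ) ≤ 1 := (div_le_one (by linarith)).2 (by linarith)
        apply pow_nonneg
        linarith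
      · intro p hp
        have hpp := (mem_pz.1 hp).2
        rw [hm]
        exact fac_low c1 p _ hpp.two_le ((hcard p hpp).1.trans (by omega)) (hcard p hpp).2
    refine le_trans (le_of_eq ?_) (h2.trans h3)
    rw [one_div, one_div, inv_pow, ← pow_mul]
  -- positivity of the count
  have hsq : √(((y ^ (2 * e) : ℕ)) : ℝ) = (y : ℝ) ^ e := by
    push_cast
    rw [mul_comm 2 e, pow_mul, Real.sqrt_sq (by positivity)]
  rw [hsq] at hF
  have h1 := (abs_le.1 hF).1
  have h2 : (y : ℝ) ^ e < 1 / 2 * (((y ^ (2 * e) : ℕ) : ℝ) * P) := by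
    push_cast
    have h3 : (y : ℝ) ^ e * (2 * 1) < (y : ℝ) ^ e * ((y : ℝ) ^ e * P) := by
      apply mul_lt_mul_of_pos_left _ (by positivity)
      have h4 : (y : ℝ) ^ e * (1 / (y : ℝ) ^ (C * m)) ≤ (y : ℝ) ^ e * P :=
        mul_le_mul_of_nonneg_left hPl (by positivity)
      have h5 : (y : ℝ) ^ e * (1 / (y : ℝ) ^ (C * m)) = (y : ℝ) ^ (K + 2) := by
        rw [he]
        rw [show K + C * m + 2 = (K + 2) + C * m by omega, pow_add (y : ℝ) (K + 2)]
        field_simp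
      have h6 : (y : ℝ) ^ 1 ≤ (y : ℝ) ^ (K + 2) := pow_le_pow_right₀ (by linarith) (by omega)
      rw [pow_one] at h6
      linarith
    have h7 : (y : ℝ) ^ (2 * e) = (y : ℝ) ^ e * (y : ℝ) ^ e := by rw [← pow_add]; congr 1; omega
    rw [h7]
    linarith
  have hpos : (0 : ℝ) < ((((Icc 1 (y ^ (2 * e))).filter (fun n : ℕ => ∀ p ∈ pz y, ¬ Q' p n)).card : ℕ) : ℝ) := by
    have h3 : (y : ℝ) ^ e < 1 / 2 * (((y ^ (2 * e) : ℕ) : ℝ) * P) := h2
    linarith
  have hne := card_pos.1 (by exact_mod_cast hpos)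
  obtain ⟨n, hn⟩ := hne
  rw [mem_filter, mem_Icc] at hn
  refine ⟨M + n, by omega, ?_, ?_⟩
  · have : n ≤ T := hn.1.2.trans hy1
    have : (n : ℤ) ≤ T := by exact_mod_cast this
    linarith
  · intro p hp hpT hq
    have hpy : p ≤ y := by
      have h3 : (p : ℝ) < y + 1 := by
        refine lt_of_le_of_lt hpT ?_
        have h4 : (T : ℝ) < ((y : ℝ) + 1) ^ (2 * e) := by exact_mod_cast hy2
        have h5 : ((y : ℝ) + 1) ^ (2 * e) ≤ ((y : ℝ) + 1) ^ (4 * e) :=
          pow_le_pow_right₀ (by linarith) (by omega)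
        calc (T : ℝ) ^ (1 / ((4 * e : ℕ) : ℝ)) < (((y : ℝ) + 1) ^ (4 * e)) ^ (1 / ((4 * e : ℕ) : ℝ)) := by
              apply Real.rpow_lt_rpow (Nat.cast_nonneg _) (by linarith) (by positivity)
          _ = (y : ℝ) + 1 := by
              rw [one_div]
              exact Real.pow_rpow_inv_natCast (by linarith) (by omega)
      have h4 : (p : ℝ) < ((y + 1 : ℕ) : ℝ) := by push_cast; exact h3
      have h5 : p < y + 1 := by exact_mod_cast h4
      omega
    apply hn.2 p (mem_pz.2 ⟨hpy, hp⟩)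
    rw [hQ']
    exact ⟨hp, hq⟩

end Pool.Agent.H540.PS
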