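import Pool.Agent.H540.DS.LSC

/-! Nonnegative combinations of characters of the integers and the positivity of pair sums. -/

set_option autoImplicit false

namespace Pool.Agent.H540.PS

open Finset
open H343 (ex)
open Pool.Agent.H540.DS (S En En_nonneg)

/-- nonnegative combinations of characters -/
inductive CP : (ℤ → ℂ) → Prop
  | ch (θ : ℝ) : CP (fun m => ex (θ * m))
  | zero : CP (fun _ => 0)
  | add {f g : ℤ → ℂ} : CP f → CP g → CP (fun m => f m + g m)
  | smul {f : ℤ → ℂ} (c : ℝ) : 0 ≤ c → CP f → CP (fun m => (c : ℂ) * f m)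

/-- real functions which are nonnegative combinations of characters -/
def PD (f : ℤ → ℝ) : Prop := CP (fun m => (f m : ℂ))

/-- the sum over the differences of the elements of a set -/
noncomputable def pf (A : Finset ℤ) (f : ℤ → ℝ) : ℝ := ∑ a ∈ A, ∑ b ∈ A, f (a - b)

theorem CP.congr {f g : ℤ → ℂ} (h : CP f) (e : ∀ m, f m = g m) : CP g := by
  have : f = g := funext e
  rw [← this]
  exact h

theorem CP.ch_mul (θ : ℝ) {g : ℤ → ℂ} (hg : CP g) : CP (fun m => ex (θ * m) * g m) := by
  induction hg with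
  | ch θ' =>
    refine (CP.ch (θ + θ')).congr ?_
    intro m
    rw [← H343.Gauss.ex_add]
    congr 1
    ring
  | zero => exact CP.zero.congr (fun m => by rw [mul_zero])
  | add _ _ h1 h2 => exact (CP.add h1 h2).congr (fun m => by ring)
  | smul c hc _ h1 => exact (CP.smul c hc h1).congr (fun m => by ring)

theorem CP.mul {f g : ℤ → ℂ} (hf : CP f) (hg : CP g) : CP (fun m => f m * g m) := by
  induction hf with
  | ch θ => exact CP.ch_mul θ hg
  | zero => exact CP.zero.congr (fun m => by rw [zero_mul])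
  | add _ _ h1 h2 => exact (CP.add h1 h2).congr (fun m => by ring)
  | smul c hc _ h1 => exact (CP.smul c hc h1).congr (fun m => by ring)

theorem CP.pos (A : Finset ℤ) {f : ℤ → ℂ} (hf : CP f) : ∃ r : ℝ, 0 ≤ r ∧
    ∑ a ∈ A, ∑ b ∈ A, f (a - b) = (r : ℂ) := by
  induction hf with
  | ch θ =>
    refine ⟨‖∑ a ∈ A, ex (θ * (a : ℤ))‖ ^ 2, by positivity, ?_⟩
    have h1 : ∑ a ∈ A, ∑ b ∈ A, ex (θ * ((a - b : ℤ) : ℝ)) =
        (∑ a ∈ A, ex (θ * (a : ℤ))) * (starRingEnd ℂ) (∑ a ∈ A, ex (θ * (a : ℤ))) := by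
      rw [map_sum, sum_mul_sum]
      apply sum_congr rfl
      intro a _
      apply sum_congr rfl
      intro b _
      rw [Pool.Agent.Y882.PX.ex_conj, ← H343.Gauss.ex_add]
      congr 1
      push_cast
      ring
    rw [h1, Complex.mul_conj, Complex.normSq_eq_norm_sq]
  | zero => exact ⟨0, le_refl _, by simp⟩
  | add _ _ h1 h2 =>
    obtain ⟨r1, a1, b1⟩ := h1
    obtain ⟨r2, a2, b2⟩ := h2
    refine ⟨r1 + r2, by linarith, ?_⟩
    push_cast
    rw [← b1, ← b2, ← sum_add_distrib]
    apply sum_congr rfl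
    intro a _
    rw [← sum_add_distrib]
  | smul c hc _ h1 =>
    obtain ⟨r1, a1, b1⟩ := h1
    refine ⟨c * r1, mul_nonneg hc a1, ?_⟩
    push_cast
    rw [← b1, mul_sum]
    apply sum_congr rfl
    intro a _
    rw [mul_sum]

theorem PD.pos (A : Finset ℤ) {f : ℤ → ℝ} (hf : PD f) : 0 ≤ pf A f := by
  obtain ⟨r, h1, h2⟩ := CP.pos A hf
  have : pf A f = r := by
    unfold pf
    have h3 : (((∑ a ∈ A, ∑ b ∈ A, f (a - b)) : ℝ) : ℂ) = (r : ℂ) := by
      push_cast
      exact h2
    exact_mod_cast h3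
  rw [this]
  exact h1

theorem PD.congr {f g : ℤ → ℝ} (h : PD f) (e : ∀ m, f m = g m) : PD g := by
  have : f = g := funext e
  rw [← this]
  exact h

theorem PD.zero : PD (fun _ => 0) := by
  unfold PD
  exact CP.zero.congr (fun m => by simp)

theorem PD.one : PD (fun _ => 1) := by
  unfold PD
  refine (CP.ch 0).congr (fun m => ?_)
  simp [ex]

theorem PD.add {f g : ℤ → ℝ} (hf : PD f) (hg : PD g) : PD (fun m => f m + g m) := by
  unfold PD at *
  exact (CP.add hf hg).congr (fun m => by push_cast; rfl)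

theorem PD.smul {f : ℤ → ℝ} (c : ℝ) (hc : 0 ≤ c) (hf : PD f) : PD (fun m => c * f m) := by
  unfold PD at *
  exact (CP.smul c hc hf).congr (fun m => by push_cast; rfl)

theorem PD.const (c : ℝ) (hc : 0 ≤ c) : PD (fun _ => c) :=
  (PD.smul c hc PD.one).congr (fun m => by ring)

theorem PD.mul {f g : ℤ → ℝ} (hf : PD f) (hg : PD g) : PD (fun m => f m * g m) := by
  unfold PD at *
  exact (CP.mul hf hg).congr (fun m => by push_cast; rfl)

theorem PD.sum {ι : Type*} (s : Finset ι) {f : ι → ℤ → ℝ} (h : ∀ i ∈ s, PD (f i)) :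
    PD (fun m => ∑ i ∈ s, f i m) := by
  classical
  induction s using Finset.induction_on with
  | empty => exact PD.zero.congr (fun m => by simp)
  | insert a s ha ih =>
    refine ((h a (mem_insert_self _ _)).add (ih fun i hi => h i (mem_insert_of_mem hi))).congr ?_
    intro m
    rw [sum_insert ha]

theorem PD.prod {ι : Type*} (s : Finset ι) {f : ι → ℤ → ℝ} (h : ∀ i ∈ s, PD (f i)) :
    PD (fun m => ∏ i ∈ s, f i m) := by
  classical
  induction s using Finset.induction_on with
  | empty => exact PD.one.congr (fun m => by simp)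
  | insert a s ha ih =>
    refine ((h a (mem_insert_self _ _)).mul (ih fun i hi => h i (mem_insert_of_mem hi))).congr ?_
    intro m
    rw [prod_insert ha]

/-- products of dominated functions -/
theorem PD.prod_dom {ι : Type*} (s : Finset ι) {f g : ι → ℤ → ℝ} (h : ∀ i ∈ s, PD (f i))
    (h' : ∀ i ∈ s, PD (fun m => g i m - f i m)) :
    PD (fun m => ∏ i ∈ s, g i m - ∏ i ∈ s, f i m) := by
  classical
  induction s using Finset.induction_on with
  | empty => exact PD.zero.congr (fun m => by simp)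
  | insert a s ha ih =>
    have hg : ∀ i ∈ insert a s, PD (g i) := fun i hi =>
      ((h i hi).add (h' i hi)).congr (fun m => by ring)
    have h1 := (hg a (mem_insert_self _ _)).mul
      (ih (fun i hi => h i (mem_insert_of_mem hi)) (fun i hi => h' i (mem_insert_of_mem hi)))
    have h2 := (h' a (mem_insert_self _ _)).mul
      (PD.prod s fun i hi => h i (mem_insert_of_mem hi))
    refine (h1.add h2).congr ?_
    intro m
    rw [prod_insert ha, prod_insert ha]
    ring

theorem pf_add (A : Finset ℤ) (f g : ℤ → ℝ) : pf A (fun m => f m + g m) = pf A f + pf A g := by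
  unfold pf
  rw [← sum_add_distrib]
  apply sum_congr rfl
  intro a _
  rw [← sum_add_distrib]

theorem pf_smul (A : Finset ℤ) (c : ℝ) (f : ℤ → ℝ) : pf A (fun m => c * f m) = c * pf A f := by
  unfold pf
  rw [mul_sum]
  apply sum_congr rfl
  intro a _
  rw [mul_sum]

theorem pf_sub (A : Finset ℤ) (f g : ℤ → ℝ) : pf A (fun m => f m - g m) = pf A f - pf A g := by
  unfold pf
  rw [← sum_sub_distrib]
  apply sum_congr rfl
  intro a _
  rw [← sum_sub_distrib]

theorem pf_sum (A : Finset ℤ) {ι : Type*} (s : Finset ι) (f : ι → ℤ → ℝ) :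
    pf A (fun m => ∑ i ∈ s, f i m) = ∑ i ∈ s, pf A (f i) := by
  unfold pf
  have h1 : ∀ a ∈ A, ∑ b ∈ A, ∑ i ∈ s, f i (a - b) = ∑ i ∈ s, ∑ b ∈ A, f i (a - b) := by
    intro a _
    exact sum_comm
  show ∑ a ∈ A, ∑ b ∈ A, ∑ i ∈ s, f i (a - b) = _
  rw [sum_congr rfl h1]
  exact sum_comm

theorem pf_congr (A : Finset ℤ) {f g : ℤ → ℝ} (h : ∀ m, f m = g m) : pf A f = pf A g := by
  have : f = g := funext h
  rw [this]

theorem pf_le (A : Finset ℤ) {f g : ℤ → ℝ} (h : PD (fun m => g m - f m)) : pf A f ≤ pf A g := by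
  have := h.pos A
  rw [pf_sub] at this
  linarith

theorem pf_one (A : Finset ℤ) : pf A (fun _ => 1) = (A.card : ℝ) ^ 2 := by
  unfold pf
  simp
  ring

end Pool.Agent.H540.PS
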