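import Pool.Agent.H540.PS.Main2
import Pool.Graph.R_seed8.Helper923.HMertens

/-! Recurrence of sifted sets: power saving. -/

set_option autoImplicit false

namespace Pool.Agent.H540.PS

open Finset Filter

section

variable {K : ℕ} {X : ℕ → ℤ → Prop}

theorem tt_abs {p : ℕ} (m : ℤ) : |tt K X p m| ≤ K + 1 := by
  unfold tt
  have hK : (0 : ℝ) ≤ K := Nat.cast_nonneg K
  rcases uu_cases p m with h1 | h1 <;> rcases xI_cases (X p) m with h2 | h2 <;>
    rw [h1.2, h2.2, abs_le] <;> constructor <;> linarith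

theorem Lam_abs {D : ℝ} (hD : 1 < D) {P : Finset ℕ} (hP : ∀ p ∈ P, p.Prime) (m : ℤ) :
    |Lam K X D P m| ≤ ((K + 1 : ℕ) : ℝ) ^ ((K + 1) ^ 2) * Real.sqrt D * D := by
  unfold Lam
  refine (abs_sum_le_sum_abs _ _).trans ?_
  have h1 : ∀ U ∈ P.powerset, |hh D U * ∏ p ∈ U, tt K X p m| ≤
      if (∏ p ∈ U, p) ≤ ⌊D⌋₊ then ((K + 1 : ℕ) : ℝ) ^ ((K + 1) ^ 2) * Real.sqrt D else 0 := by
    intro U hU
    rw [mem_powerset] at hU
    have hUp : ∀ p ∈ U, p.Prime := fun p hp => hP p (hU hp)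
    by_cases hc : (∏ p ∈ U, p) ≤ ⌊D⌋₊
    · rw [if_pos hc, abs_mul, abs_of_nonneg (hh_nonneg _ _), abs_prod]
      have e1 : ∏ p ∈ U, |tt K X p m| ≤ ((K + 1 : ℕ) : ℝ) ^ U.card := by
        rw [← prod_const]
        apply prod_le_prod (fun _ _ => abs_nonneg _)
        intro p _
        push_cast
        exact tt_abs m
      have e2 := pow_card_le (K + 1) (by omega) U hUp
      have e3 : Real.sqrt (∏ p ∈ U, p : ℕ) ≤ Real.sqrt D := by
        apply Real.sqrt_le_sqrt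
        exact (Nat.le_floor_iff (by linarith)).1 hc
      calc hh D U * ∏ p ∈ U, |tt K X p m| ≤ 1 * ((K + 1 : ℕ) : ℝ) ^ U.card :=
            mul_le_mul (hh_le_one D hD U hUp) e1 (prod_nonneg fun _ _ => abs_nonneg _) zero_le_one
        _ = ((K + 1 : ℕ) : ℝ) ^ U.card := one_mul _
        _ ≤ ((K + 1 : ℕ) : ℝ) ^ ((K + 1) ^ 2) * Real.sqrt (∏ p ∈ U, p : ℕ) := e2
        _ ≤ _ := mul_le_mul_of_nonneg_left e3 (by positivity)
    · rw [if_neg hc, hh_zero D hD U, zero_mul, abs_zero]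
      by_contra hcon
      push Not at hcon
      exact hc (Nat.le_floor hcon)
  refine (sum_le_sum h1).trans ?_
  rw [← sum_filter, sum_const, nsmul_eq_mul]
  have h2 : ((P.powerset.filter (fun U => (∏ p ∈ U, p) ≤ ⌊D⌋₊)).card : ℝ) ≤ D := by
    have e1 : (P.powerset.filter (fun U => (∏ p ∈ U, p) ≤ ⌊D⌋₊)).card ≤ (Icc 1 ⌊D⌋₊).card := by
      apply card_le_card_of_injOn (fun U : Finset ℕ => ∏ p ∈ U, p)
      · intro U hU
        rw [coe_filter, Set.mem_setOf_eq, mem_powerset] at hU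
        rw [coe_Icc, Set.mem_Icc]
        exact ⟨prod_ge_one U (fun p hp => hP p (hU.1 hp)), hU.2⟩
      · intro U hU U' hU' h
        rw [coe_filter, Set.mem_setOf_eq] at hU hU'
        exact prod_inj P hP (by simpa using hU.1) (by simpa using hU'.1) h
    rw [Nat.card_Icc, Nat.add_sub_cancel] at e1
    calc ((P.powerset.filter (fun U => (∏ p ∈ U, p) ≤ ⌊D⌋₊)).card : ℝ) ≤ (⌊D⌋₊ : ℝ) := by exact_mod_cast e1
      _ ≤ D := Nat.floor_le (by linarith)
  rw [mul_comm]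
  exact mul_le_mul_of_nonneg_left h2 (by positivity)

end

theorem mem_RR (X : ℤ → Prop) (p r : ℕ) : r ∈ RR X p ↔ r < p ∧ X r := by
  classical
  unfold RR
  rw [mem_filter, mem_range]

/-- the symmetric set -/
theorem sym_Ev (X : ℤ → Prop) (p K : ℕ) (hp : 0 < p)
    (h1 : ∀ m m' : ℤ, (p : ℤ) ∣ m - m' → (X m ↔ X m')) (h2 : ¬ X 0) (h3 : (RR X p).card ≤ K) :
    Ev (fun m => X m ∨ X (-m)) p (2 * K) := by
  have hpz : (0 : ℤ) < p := by exact_mod_cast hp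
  refine ⟨?_, ?_, ?_, ?_⟩
  · intro m m' h
    have h' : (p : ℤ) ∣ -m - -m' := by
      have : -m - -m' = -(m - m') := by ring
      rw [this, dvd_neg]
      exact h
    rw [h1 m m' h, h1 _ _ h']
  · intro m
    rw [neg_neg]
    exact Or.comm
  · rw [neg_zero, or_self]
    exact h2
  · have hsub : RR (fun m => X m ∨ X (-m)) p ⊆ RR X p ∪ (RR X p).image (fun r => (p - r) % p) := by
      intro r hr
      rw [mem_RR] at hr
      rw [mem_union, mem_image]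
      rcases hr.2 with h | h
      · left
        rw [mem_RR]
        exact ⟨hr.1, h⟩
      · right
        rcases Nat.eq_zero_or_pos r with h0 | h0
        · exfalso
          rw [h0] at h
          simp only [Nat.cast_zero, neg_zero] at h
          exact h2 h
        · refine ⟨p - r, ?_, ?_⟩
          · rw [mem_RR]
            refine ⟨by omega, ?_⟩
            refine (h1 (-(r : ℤ)) ((p - r : ℕ) : ℤ) ?_).1 h
            rw [Nat.cast_sub hr.1.le]
            exact ⟨-1, by ring⟩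
          · have e1 : p - (p - r) = r := by omega
            rw [e1]
            exact Nat.mod_eq_of_lt hr.1
    refine (card_le_card hsub).trans ?_
    refine (card_union_le _ _).trans ?_
    have := card_image_le (s := RR X p) (f := fun r => (p - r) % p)
    omega

theorem pf_count (A : Finset ℤ) (f : ℤ → ℝ) (M : ℝ) (G : ℤ → Prop) [DecidablePred G]
    (hf : ∀ m, f m ≤ M) (hM : 0 ≤ M) (hG : ∀ m, ¬ G m → f m ≤ 0) :
    pf A f ≤ M * ((A ×ˢ A).filter (fun z => G (z.1 - z.2))).card := by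
  unfold pf
  rw [← sum_product', card_filter]
  push_cast
  rw [mul_sum]
  apply sum_le_sum
  intro z _
  split_ifs with h
  · rw [mul_one]
    exact hf _
  · rw [mul_zero]
    exact hG _ h

open Classical in
/-- half of the off-diagonal pairs -/
theorem half_pairs' (A : Finset ℤ) (G : ℤ → Prop) (hG : ∀ m, G (-m) ↔ G m) :
    (((A ×ˢ A).filter (fun z => G (z.1 - z.2))).card : ℝ) ≤
      A.card + 2 * (((A ×ˢ A).filter (fun z => z.2 < z.1 ∧ G (z.1 - z.2))).card : ℝ) := by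
  have h1 : (A ×ˢ A).filter (fun z => G (z.1 - z.2)) ⊆
      (A.image (fun a => (a, a))) ∪ (((A ×ˢ A).filter (fun z => z.2 < z.1 ∧ G (z.1 - z.2))) ∪
        ((A ×ˢ A).filter (fun z => z.2 < z.1 ∧ G (z.1 - z.2))).image (fun z => (z.2, z.1))) := by
    rintro ⟨a, b⟩ hz
    rw [mem_filter, mem_product] at hz
    obtain ⟨⟨ha, hb⟩, hg⟩ := hz
    simp only at ha hb hg
    rw [mem_union, mem_union]
    rcases lt_trichotomy b a with h | h | h
    · right
      left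
      rw [mem_filter, mem_product]
      exact ⟨⟨ha, hb⟩, h, hg⟩
    · left
      rw [mem_image]
      exact ⟨a, ha, by rw [h]⟩
    · right
      right
      rw [mem_image]
      refine ⟨(b, a), ?_, rfl⟩
      rw [mem_filter, mem_product]
      refine ⟨⟨hb, ha⟩, h, ?_⟩
      have e : b - a = -(a - b) := by ring
      simp only
      rw [e, hG]
      exact hg
  have h2 := (card_le_card h1).trans ((card_union_le _ _).trans
    (Nat.add_le_add (card_image_le) ((card_union_le _ _).trans (Nat.add_le_add (le_refl _) card_image_le))))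
  have h3 : (((A ×ˢ A).filter (fun z => G (z.1 - z.2))).card : ℝ) ≤
      ((A.card + (((A ×ˢ A).filter (fun z => z.2 < z.1 ∧ G (z.1 - z.2))).card +
      ((A ×ˢ A).filter (fun z => z.2 < z.1 ∧ G (z.1 - z.2))).card) : ℕ) : ℝ) := by exact_mod_cast h2
  push_cast at h3
  linarith

theorem tlog : Tendsto (fun N : ℕ => Real.log N) atTop atTop :=
  Real.tendsto_log_atTop.comp tendsto_natCast_atTop_atTop

theorem tpow {e : ℝ} (he : 0 < e) : Tendsto (fun N : ℕ => (N : ℝ) ^ e) atTop atTop :=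
  (tendsto_rpow_atTop he).comp tendsto_natCast_atTop_atTop

open Classical in
/-- **Sifted sets of bounded dimension are sets of recurrence for sets of size `N ^ (1 - c)`.** -/
theorem core (K : ℕ) (δ : ℝ) (hδ : 0 < δ) (hδ1 : δ ≤ 1) : ∃ (c : ℝ) (N0 : ℕ), 0 < c ∧ c ≤ δ ∧
    ∀ N : ℕ, N0 ≤ N → ∀ (X : ℕ → ℤ → Prop) (A : Finset ℤ),
      (∀ p : ℕ, p.Prime → (p : ℝ) ≤ (N : ℝ) ^ c →
        (∀ m m' : ℤ, (p : ℤ) ∣ m - m' → (X p m ↔ X p m')) ∧ ¬ X p 0 ∧ (RR (X p) p).card ≤ K) →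
      (∀ a ∈ A, 1 ≤ a ∧ a ≤ N) → (N : ℝ) ^ (1 - c) ≤ A.card →
      (N : ℝ) ^ (2 - δ) ≤ (((A ×ˢ A).filter (fun z : ℤ × ℤ => z.2 < z.1 ∧
        ∀ p : ℕ, p.Prime → (p : ℝ) ≤ (N : ℝ) ^ c → ¬ X p (z.1 - z.2))).card : ℝ) := by
  obtain ⟨K2, hK2⟩ : ∃ K2 : ℕ, K2 = 2 * K := ⟨_, rfl⟩
  obtain ⟨C, hC⟩ : ∃ C : ℕ, C = 4 * ((K2 + 1) * ((K2 + 1) ^ 2 + K2)) := ⟨_, rfl⟩
  obtain ⟨CM, hCM⟩ := Pool.Agent.Helper923.HMertens.mertens_log
  obtain ⟨c, hc⟩ : ∃ c : ℝ, c = δ / (768 * (K2 + 2) ^ 2) := ⟨_, rfl⟩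
  have hK2r : (0 : ℝ) ≤ K2 := Nat.cast_nonneg _
  have hc0 : 0 < c := by rw [hc]; positivity
  have hcδ : c ≤ δ / 3072 := by
    rw [hc]
    apply div_le_div_of_nonneg_left hδ.le (by norm_num)
    nlinarith
  obtain ⟨C1, hC1⟩ : ∃ C1 : ℝ, C1 = ((K2 + 1 : ℕ) : ℝ) ^ ((K2 + 1) ^ 2) := ⟨_, rfl⟩
  have ev1 : ∀ᶠ N : ℕ in atTop, CM / c ≤ Real.log N := tlog.eventually_ge_atTop _
  have ev2 : ∀ᶠ N : ℕ in atTop, 384 * (C : ℝ) ^ (C ^ 2) ≤ (N : ℝ) ^ (δ / 128 - c) :=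
    (tpow (by linarith)).eventually_ge_atTop _
  have ev3 : ∀ᶠ N : ℕ in atTop, 64 * C1 ^ 2 ≤ (N : ℝ) ^ (1 - c - 3 * δ / 16) :=
    (tpow (by linarith)).eventually_ge_atTop _
  have ev4 : ∀ᶠ N : ℕ in atTop, 128 * C1 ^ 2 ≤ (N : ℝ) ^ (δ - 2 * c - 3 * δ / 16) :=
    (tpow (by linarith)).eventually_ge_atTop _
  obtain ⟨N1, hN1⟩ := eventually_atTop.1 (ev1.and (ev2.and (ev3.and ev4)))
  refine ⟨c, max N1 3, hc0, by linarith, ?_⟩
  intro N hN X A hX hA hAc
  obtain ⟨f1, f2, f3, f4⟩ := hN1 N ((le_max_left _ _).trans hN)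
  have hN3 : 3 ≤ N := (le_max_right _ _).trans hN
  have hNr : (3 : ℝ) ≤ N := by exact_mod_cast hN3
  have hN0 : (0 : ℝ) < N := by linarith
  have hNlog : 0 < Real.log N := Real.log_pos (by linarith)
  obtain ⟨D, hD⟩ : ∃ D : ℝ, D = (N : ℝ) ^ (δ / 16) := ⟨_, rfl⟩
  have hD1 : 1 < D := by
    rw [hD]
    exact Real.one_lt_rpow (by linarith) (by positivity)
  have hD0 : 0 < D := by linarith
  have hlogD : Real.log D = δ / 16 * Real.log N := by rw [hD, Real.log_rpow hN0]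
  obtain ⟨P, hPe⟩ : ∃ P : Finset ℕ, P = (Icc 1 ⌊(N : ℝ) ^ c⌋₊).filter Nat.Prime := ⟨_, rfl⟩
  have hzpos : 0 ≤ (N : ℝ) ^ c := by positivity
  have hPm : ∀ p ∈ P, p.Prime ∧ (p : ℝ) ≤ (N : ℝ) ^ c := by
    intro p hp
    rw [hPe, mem_filter, mem_Icc] at hp
    exact ⟨hp.2, (Nat.le_floor_iff hzpos).1 hp.1.2⟩
  have hPp : ∀ p ∈ P, p.Prime := fun p hp => (hPm p hp).1
  obtain ⟨X', hX'⟩ : ∃ X' : ℕ → ℤ → Prop, X' = fun p m => X p m ∨ X p (-m) := ⟨_, rfl⟩
  have hEv : ∀ p ∈ P, Ev (X' p) p K2 := by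
    intro p hp
    obtain ⟨a1, a2⟩ := hPm p hp
    obtain ⟨b1, b2, b3⟩ := hX p a1 a2
    rw [hX', hK2]
    exact sym_Ev (X p) p K a1.pos b1 b2 b3
  have hq : (0 : ℝ) < 24 * (K2 + 2) ^ 2 := by positivity
  have hlogc : c * Real.log N * 2 = Real.log D / (24 * (K2 + 2) ^ 2) := by
    rw [hlogD, hc]
    field_simp
    norm_num
  have hlog : ∀ p ∈ P, Real.log p ≤ Real.log D / (24 * (K2 + 2) ^ 2) := by
    intro p hp
    obtain ⟨a1, a2⟩ := hPm p hp
    have h1 : Real.log p ≤ c * Real.log N := by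
      rw [← Real.log_rpow hN0]
      exact Real.log_le_log (by exact_mod_cast a1.pos) a2
    have h2 : 0 ≤ c * Real.log N := by positivity
    linarith
  have hPD : ∀ p ∈ P, (p : ℝ) ≤ D := by
    intro p hp
    obtain ⟨a1, a2⟩ := hPm p hp
    refine a2.trans ?_
    rw [hD]
    exact Real.rpow_le_rpow_of_exponent_le (by linarith) (by linarith)
  have hMer : ∑ p ∈ P, Real.log p / p ≤ Real.log D / (24 * (K2 + 2) ^ 2) := by
    have hz1 : 1 ≤ ⌊(N : ℝ) ^ c⌋₊ := by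
      apply Nat.le_floor
      rw [Nat.cast_one]
      exact Real.one_le_rpow (by linarith) hc0.le
    have h1 := (abs_le.1 (hCM _ hz1)).2
    rw [← hPe] at h1
    have h2 : Real.log (⌊(N : ℝ) ^ c⌋₊ : ℝ) ≤ c * Real.log N := by
      rw [← Real.log_rpow hN0]
      exact Real.log_le_log (by exact_mod_cast hz1) (Nat.floor_le hzpos)
    have h3 : CM ≤ c * Real.log N := by
      rw [div_le_iff₀ hc0] at f1
      linarith
    linarith
  have hmain := ff_main A N hA hD1 hEv hPp hPD hlog hMer C hC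
  have hE1 : 1 ≤ EE K2 X' P := EE_one hEv
  -- the size of the main term
  have hD6 : D ^ 6 ≤ N := by
    rw [hD, ← Real.rpow_natCast, ← Real.rpow_mul hN0.le]
    calc (N : ℝ) ^ (δ / 16 * ((6 : ℕ) : ℝ)) ≤ (N : ℝ) ^ (1 : ℝ) := by
          apply Real.rpow_le_rpow_of_exponent_le (by linarith)
          push_cast
          linarith
      _ = N := Real.rpow_one _
  have hsq : Real.sqrt (D ^ (1 / 4 : ℝ)) = (N : ℝ) ^ (δ / 128) := by
    rw [hD, ← Real.rpow_mul hN0.le, Real.sqrt_eq_rpow, ← Real.rpow_mul hN0.le]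
    congr 1
    ring
  have hAc0 : 0 < (A.card : ℝ) := lt_of_lt_of_le (by positivity) hAc
  have herr : 6 * (C : ℝ) ^ (C ^ 2) * (N + D ^ 6) * A.card / Real.sqrt (D ^ (1 / 4 : ℝ)) ≤
      (A.card : ℝ) ^ 2 / 32 := by
    rw [hsq, div_le_iff₀ (by positivity)]
    have h1 : (N : ℝ) * (384 * (C : ℝ) ^ (C ^ 2)) ≤ A.card * (N : ℝ) ^ (δ / 128) := by
      calc (N : ℝ) * (384 * (C : ℝ) ^ (C ^ 2)) ≤ (N : ℝ) * (N : ℝ) ^ (δ / 128 - c) :=
            mul_le_mul_of_nonneg_left f2 hN0.le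
        _ = (N : ℝ) ^ (1 - c) * (N : ℝ) ^ (δ / 128) := by
            rw [← Real.rpow_add hN0]
            nth_rewrite 1 [← Real.rpow_one (N : ℝ)]
            rw [← Real.rpow_add hN0]
            congr 1
            ring
        _ ≤ _ := mul_le_mul_of_nonneg_right hAc (by positivity)
    calc 6 * (C : ℝ) ^ (C ^ 2) * (N + D ^ 6) * A.card ≤ 6 * (C : ℝ) ^ (C ^ 2) * (N + N) * A.card := by
          apply mul_le_mul_of_nonneg_right _ hAc0.le
          apply mul_le_mul_of_nonneg_left _ (by positivity)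
          linarith
      _ = (N : ℝ) * (384 * (C : ℝ) ^ (C ^ 2)) * (A.card / 32) := by ring
      _ ≤ A.card * (N : ℝ) ^ (δ / 128) * (A.card / 32) := mul_le_mul_of_nonneg_right h1 (by positivity)
      _ = _ := by ring
  have hpf : (A.card : ℝ) ^ 2 / 32 ≤ pf A (ff K2 X' D P) := by
    have h1 : (A.card : ℝ) ^ 2 / 32 ≤ pf A (ff K2 X' D P) / EE K2 X' P := by linarith
    rw [le_div_iff₀ (by linarith)] at h1
    refine le_trans ?_ h1
    exact le_mul_of_one_le_right (by positivity) hE1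
  -- the counting
  obtain ⟨G, hG⟩ : ∃ G : ℤ → Prop, G = fun m => ∀ p ∈ P, ¬ X' p m := ⟨_, rfl⟩
  have hM0 : 0 ≤ C1 ^ 2 * D ^ 3 := by positivity
  have hffle : ∀ m, ff K2 X' D P m ≤ C1 ^ 2 * D ^ 3 := by
    intro m
    refine (ff_le m).trans ?_
    have h1 := Lam_abs (K := K2) (X := X') hD1 hPp m
    rw [← hC1] at h1
    rw [← sq_abs]
    calc |Lam K2 X' D P m| ^ 2 ≤ (C1 * Real.sqrt D * D) ^ 2 := pow_le_pow_left₀ (abs_nonneg _) h1 2
      _ = C1 ^ 2 * (Real.sqrt D) ^ 2 * D ^ 2 := by ring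
      _ = C1 ^ 2 * D ^ 3 := by rw [Real.sq_sqrt hD0.le]; ring
  have hcount := pf_count A (ff K2 X' D P) (C1 ^ 2 * D ^ 3) G hffle hM0 (by
    intro m hm
    rw [hG] at hm
    simp only at hm
    push Not at hm
    obtain ⟨p, hp, hpm⟩ := hm
    exact ff_nonpos hEv m hp hpm)
  have hhalf := half_pairs' A G (by
    intro m
    rw [hG]
    simp only
    constructor
    · intro h p hp hcon
      exact h p hp (((hEv p hp).even m).2 hcon)
    · intro h p hp hcon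
      exact h p hp (((hEv p hp).even m).1 hcon))
  have hsub : ((A ×ˢ A).filter (fun z => z.2 < z.1 ∧ G (z.1 - z.2))) ⊆
      (A ×ˢ A).filter (fun z : ℤ × ℤ => z.2 < z.1 ∧
        ∀ p : ℕ, p.Prime → (p : ℝ) ≤ (N : ℝ) ^ c → ¬ X p (z.1 - z.2)) := by
    intro z hz
    rw [mem_filter] at hz ⊢
    refine ⟨hz.1, hz.2.1, ?_⟩
    intro p hp hpN hXp
    have h1 := hz.2.2
    rw [hG] at h1
    refine h1 p ?_ ?_
    · rw [hPe, mem_filter, mem_Icc]
      exact ⟨⟨hp.one_le, Nat.le_floor hpN⟩, hp⟩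
    · rw [hX']
      exact Or.inl hXp
  have hsub' : (((A ×ˢ A).filter (fun z => z.2 < z.1 ∧ G (z.1 - z.2))).card : ℝ) ≤
      (((A ×ˢ A).filter (fun z : ℤ × ℤ => z.2 < z.1 ∧
        ∀ p : ℕ, p.Prime → (p : ℝ) ≤ (N : ℝ) ^ c → ¬ X p (z.1 - z.2))).card : ℝ) := by
    exact_mod_cast card_le_card hsub
  refine le_trans ?_ hsub'
  obtain ⟨g, hg⟩ : ∃ g : ℝ, g = (((A ×ˢ A).filter (fun z => z.2 < z.1 ∧ G (z.1 - z.2))).card : ℝ) := ⟨_, rfl⟩
  rw [← hg] at hhalf ⊢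
  have hD3 : D ^ 3 = (N : ℝ) ^ (3 * δ / 16) := by
    rw [hD, ← Real.rpow_natCast, ← Real.rpow_mul hN0.le]
    congr 1
    push_cast
    ring
  -- the diagonal
  have hdiag : C1 ^ 2 * D ^ 3 * A.card ≤ (A.card : ℝ) ^ 2 / 64 := by
    have h1 : 64 * C1 ^ 2 * D ^ 3 ≤ A.card := by
      refine le_trans ?_ hAc
      rw [hD3]
      calc 64 * C1 ^ 2 * (N : ℝ) ^ (3 * δ / 16) ≤ (N : ℝ) ^ (1 - c - 3 * δ / 16) * (N : ℝ) ^ (3 * δ / 16) :=
            mul_le_mul_of_nonneg_right f3 (by positivity)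
        _ = (N : ℝ) ^ (1 - c) := by
            rw [← Real.rpow_add hN0]
            congr 1
            ring
    have h2 := mul_le_mul_of_nonneg_right h1 hAc0.le
    linarith
  have h1 : (A.card : ℝ) ^ 2 / 32 ≤ C1 ^ 2 * D ^ 3 * (A.card + 2 * g) :=
    (hpf.trans hcount).trans (mul_le_mul_of_nonneg_left hhalf hM0)
  have h2 : (A.card : ℝ) ^ 2 ≤ 128 * C1 ^ 2 * D ^ 3 * g := by
    have e1 : C1 ^ 2 * D ^ 3 * (A.card + 2 * g) = C1 ^ 2 * D ^ 3 * A.card + 2 * (C1 ^ 2 * D ^ 3 * g) := by ring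
    rw [e1] at h1
    linarith
  have h3 : (N : ℝ) ^ (2 - 2 * c) ≤ (A.card : ℝ) ^ 2 := by
    calc (N : ℝ) ^ (2 - 2 * c) = ((N : ℝ) ^ (1 - c)) ^ 2 := by
          rw [← Real.rpow_natCast, ← Real.rpow_mul hN0.le]
          congr 1
          push_cast
          ring
      _ ≤ _ := pow_le_pow_left₀ (by positivity) hAc 2
  have hg0 : 0 ≤ g := by rw [hg]; exact Nat.cast_nonneg _
  have h4 : 128 * C1 ^ 2 * D ^ 3 * g ≤ (N : ℝ) ^ (δ - 2 * c) * g := by
    apply mul_le_mul_of_nonneg_right _ hg0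
    rw [hD3]
    calc 128 * C1 ^ 2 * (N : ℝ) ^ (3 * δ / 16) ≤ (N : ℝ) ^ (δ - 2 * c - 3 * δ / 16) * (N : ℝ) ^ (3 * δ / 16) :=
          mul_le_mul_of_nonneg_right f4 (by positivity)
      _ = (N : ℝ) ^ (δ - 2 * c) := by
          rw [← Real.rpow_add hN0]
          congr 1
          ring
  have h5 : (N : ℝ) ^ (δ - 2 * c) * (N : ℝ) ^ (2 - δ) ≤ (N : ℝ) ^ (δ - 2 * c) * g := by
    calc (N : ℝ) ^ (δ - 2 * c) * (N : ℝ) ^ (2 - δ) = (N : ℝ) ^ (2 - 2 * c) := by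
          rw [← Real.rpow_add hN0]
          congr 1
          ring
      _ ≤ _ := (h3.trans h2).trans h4
  exact le_of_mul_le_mul_left h5 (by positivity)

end Pool.Agent.H540.PS
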