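import Mathlib

/-! Sums over pairs of sets of primes. -/

set_option autoImplicit false

namespace Pool.Agent.H540.PS

open Finset

/-- the local factor -/
def loc (α β γ : ℕ → ℝ) (U U' : Finset ℕ) (p : ℕ) : ℝ :=
  if p ∈ U then (if p ∈ U' then γ p else α p) else β p

/-- the product of the local factors -/
def GG (α β γ : ℕ → ℝ) (U U' : Finset ℕ) : ℝ := ∏ p ∈ U ∪ U', loc α β γ U U' p

theorem GG_left (α β γ : ℕ → ℝ) (U U' : Finset ℕ) (p : ℕ) (h : p ∉ U) (h' : p ∉ U') :
    GG α β γ (insert p U) U' = α p * GG α β γ U U' := by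
  unfold GG
  rw [insert_union, prod_insert (by rw [mem_union]; tauto)]
  congr 1
  · unfold loc
    rw [if_pos (mem_insert_self _ _), if_neg h']
  · apply prod_congr rfl
    intro q hq
    have hne : q ≠ p := by
      rintro rfl
      rw [mem_union] at hq
      tauto
    unfold loc
    simp only [mem_insert, hne, false_or]

theorem GG_right (α β γ : ℕ → ℝ) (U U' : Finset ℕ) (p : ℕ) (h : p ∉ U) (h' : p ∉ U') :
    GG α β γ U (insert p U') = β p * GG α β γ U U' := by
  unfold GG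
  rw [union_insert, prod_insert (by rw [mem_union]; tauto)]
  congr 1
  · unfold loc
    rw [if_neg h]
  · apply prod_congr rfl
    intro q hq
    have hne : q ≠ p := by
      rintro rfl
      rw [mem_union] at hq
      tauto
    unfold loc
    simp only [mem_insert, hne, false_or]

theorem GG_both (α β γ : ℕ → ℝ) (U U' : Finset ℕ) (p : ℕ) (h : p ∉ U) (h' : p ∉ U') :
    GG α β γ (insert p U) (insert p U') = γ p * GG α β γ U U' := by
  unfold GG
  rw [insert_union, union_insert, insert_idem, prod_insert (by rw [mem_union]; tauto)]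
  congr 1
  · unfold loc
    rw [if_pos (mem_insert_self _ _), if_pos (mem_insert_self _ _)]
  · apply prod_congr rfl
    intro q hq
    have hne : q ≠ p := by
      rintro rfl
      rw [mem_union] at hq
      tauto
    unfold loc
    simp only [mem_insert, hne, false_or]

/-- **Euler product** -/
theorem euler (α β γ : ℕ → ℝ) (P : Finset ℕ) :
    ∑ U ∈ P.powerset, ∑ U' ∈ P.powerset, GG α β γ U U' = ∏ p ∈ P, (1 + α p + β p + γ p) := by
  induction P using Finset.induction_on with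
  | empty => simp [GG]
  | insert p P hp ih =>
    have hU : ∀ U ∈ P.powerset, p ∉ U := fun U hU h => hp (mem_powerset.1 hU h)
    rw [prod_insert hp, ← ih, sum_powerset_insert hp]
    have h1 : ∀ U ∈ P.powerset, ∑ U' ∈ (insert p P).powerset, GG α β γ U U' =
        (1 + β p) * ∑ U' ∈ P.powerset, GG α β γ U U' := by
      intro U hU1
      rw [sum_powerset_insert hp, mul_sum, ← sum_add_distrib]
      apply sum_congr rfl
      intro U' hU'
      rw [GG_right α β γ U U' p (hU U hU1) (hU U' hU')]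
      ring
    have h2 : ∀ U ∈ P.powerset, ∑ U' ∈ (insert p P).powerset, GG α β γ (insert p U) U' =
        (α p + γ p) * ∑ U' ∈ P.powerset, GG α β γ U U' := by
      intro U hU1
      rw [sum_powerset_insert hp, mul_sum, ← sum_add_distrib]
      apply sum_congr rfl
      intro U' hU'
      rw [GG_left α β γ U U' p (hU U hU1) (hU U' hU'), GG_both α β γ U U' p (hU U hU1) (hU U' hU')]
      ring
    rw [sum_congr rfl h1, sum_congr rfl h2, ← mul_sum, ← mul_sum]
    ring

/-- expansion of one product -/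
theorem expand_one (α α' β β' γ γ' : ℕ → ℝ) (U U' : Finset ℕ) :
    GG (fun p => α p + α' p) (fun p => β p + β' p) (fun p => γ p + γ' p) U U' =
      ∑ Q ∈ (U ∪ U').powerset, GG α' β' γ' (U ∩ Q) (U' ∩ Q) * GG α β γ (U \ Q) (U' \ Q) := by
  unfold GG
  have h1 : ∀ p ∈ U ∪ U', loc (fun p => α p + α' p) (fun p => β p + β' p) (fun p => γ p + γ' p) U U' p =
      loc α' β' γ' U U' p + loc α β γ U U' p := by
    intro p _
    unfold loc
    split_ifs <;> ring
  rw [prod_congr rfl h1, prod_add]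
  apply sum_congr rfl
  intro Q hQ
  rw [mem_powerset] at hQ
  have e1 : U ∩ Q ∪ U' ∩ Q = Q := by
    rw [← union_inter_distrib_right]
    exact inter_eq_right.2 hQ
  have e2 : U \ Q ∪ U' \ Q = (U ∪ U') \ Q := by
    rw [union_sdiff_distrib]
  rw [e1, e2]
  congr 1
  · apply prod_congr rfl
    intro p hp
    unfold loc
    simp only [mem_inter, hp, and_true]
  · apply prod_congr rfl
    intro p hp
    have : p ∉ Q := (mem_sdiff.1 hp).2
    unfold loc
    simp only [mem_sdiff, this, not_false_eq_true, and_true]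

/-- change of the order of summation -/
theorem reindex (P : Finset ℕ) (H : Finset ℕ → Finset ℕ → Finset ℕ → ℝ) :
    ∑ x ∈ P.powerset ×ˢ P.powerset, ∑ Q ∈ (x.1 ∪ x.2).powerset, H x.1 x.2 Q =
      ∑ y ∈ P.powerset ×ˢ P.powerset, ∑ z ∈ (P \ (y.1 ∪ y.2)).powerset ×ˢ (P \ (y.1 ∪ y.2)).powerset,
        H (z.1 ∪ y.1) (z.2 ∪ y.2) (y.1 ∪ y.2) := by
  rw [sum_sigma', sum_sigma']
  refine sum_bij' (fun x _ => ⟨(x.1.1 ∩ x.2, x.1.2 ∩ x.2), (x.1.1 \ x.2, x.1.2 \ x.2)⟩)
    (fun y _ => ⟨(y.2.1 ∪ y.1.1, y.2.2 ∪ y.1.2), y.1.1 ∪ y.1.2⟩) ?_ ?_ ?_ ?_ ?_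
  · rintro ⟨⟨U, U'⟩, Q⟩ h
    simp only [mem_sigma, mem_product, mem_powerset] at h ⊢
    obtain ⟨⟨h1, h2⟩, h3⟩ := h
    have e1 : U ∩ Q ∪ U' ∩ Q = Q := by
      rw [← union_inter_distrib_right]
      exact inter_eq_right.2 h3
    rw [e1]
    refine ⟨⟨inter_subset_left.trans h1, inter_subset_left.trans h2⟩,
      sdiff_subset_sdiff h1 (subset_refl _), sdiff_subset_sdiff h2 (subset_refl _)⟩
  · rintro ⟨⟨V, V'⟩, ⟨U, U'⟩⟩ h
    simp only [mem_sigma, mem_product, mem_powerset] at h ⊢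
    obtain ⟨⟨h1, h2⟩, h3, h4⟩ := h
    refine ⟨⟨union_subset (h3.trans sdiff_subset) h1, union_subset (h4.trans sdiff_subset) h2⟩,
      union_subset_union subset_union_right subset_union_right⟩
  · rintro ⟨⟨U, U'⟩, Q⟩ h
    simp only [mem_sigma, mem_product, mem_powerset] at h
    obtain ⟨⟨h1, h2⟩, h3⟩ := h
    have e1 : U ∩ Q ∪ U' ∩ Q = Q := by
      rw [← union_inter_distrib_right]
      exact inter_eq_right.2 h3
    simp only [e1, sdiff_union_inter]
  · rintro ⟨⟨V, V'⟩, ⟨U, U'⟩⟩ h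
    simp only [mem_sigma, mem_product, mem_powerset] at h
    obtain ⟨⟨h1, h2⟩, h3, h4⟩ := h
    have d1 : ∀ p ∈ U, p ∉ V ∧ p ∉ V' := by
      intro p hp
      have := (mem_sdiff.1 (h3 hp)).2
      rw [mem_union] at this
      tauto
    have d2 : ∀ p ∈ U', p ∉ V ∧ p ∉ V' := by
      intro p hp
      have := (mem_sdiff.1 (h4 hp)).2
      rw [mem_union] at this
      tauto
    have e1 : (U ∪ V) ∩ (V ∪ V') = V := by
      ext p
      have a1 := d1 p
      simp only [mem_inter, mem_union]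
      tauto
    have e2 : (U' ∪ V') ∩ (V ∪ V') = V' := by
      ext p
      have a1 := d2 p
      simp only [mem_inter, mem_union]
      tauto
    have e3 : (U ∪ V) \ (V ∪ V') = U := by
      ext p
      have a1 := d1 p
      simp only [mem_sdiff, mem_union]
      tauto
    have e4 : (U' ∪ V') \ (V ∪ V') = U' := by
      ext p
      have a1 := d2 p
      simp only [mem_sdiff, mem_union]
      tauto
    simp only [e1, e2, e3, e4]
  · rintro ⟨⟨U, U'⟩, Q⟩ h
    simp only [mem_sigma, mem_product, mem_powerset] at h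
    obtain ⟨⟨h1, h2⟩, h3⟩ := h
    have e1 : U ∩ Q ∪ U' ∩ Q = Q := by
      rw [← union_inter_distrib_right]
      exact inter_eq_right.2 h3
    simp only [e1, sdiff_union_inter]

/-- the coefficients of the expansion -/
noncomputable def CC (P : Finset ℕ) (W : Finset ℕ → Finset ℕ → ℝ) (a b : ℕ → ℝ) (V V' : Finset ℕ) : ℝ :=
  ∑ z ∈ (P \ (V ∪ V')).powerset ×ˢ (P \ (V ∪ V')).powerset, W (z.1 ∪ V) (z.2 ∪ V') * GG a a b z.1 z.2

/-- **expansion** -/
theorem expand (P : Finset ℕ) (W : Finset ℕ → Finset ℕ → ℝ) (a b s r : ℕ → ℝ) :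
    ∑ x ∈ P.powerset ×ˢ P.powerset, W x.1 x.2 *
        GG (fun p => a p + s p) (fun p => a p + s p) (fun p => b p + r p) x.1 x.2 =
      ∑ y ∈ P.powerset ×ˢ P.powerset, CC P W a b y.1 y.2 * GG s s r y.1 y.2 := by
  have h1 : ∀ x ∈ P.powerset ×ˢ P.powerset, W x.1 x.2 *
        GG (fun p => a p + s p) (fun p => a p + s p) (fun p => b p + r p) x.1 x.2 =
      ∑ Q ∈ (x.1 ∪ x.2).powerset, W x.1 x.2 * (GG s s r (x.1 ∩ Q) (x.2 ∩ Q) *
        GG a a b (x.1 \ Q) (x.2 \ Q)) := by
    intro x _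
    rw [expand_one, mul_sum]
  rw [sum_congr rfl h1, reindex P (fun U U' Q => W U U' * (GG s s r (U ∩ Q) (U' ∩ Q) *
        GG a a b (U \ Q) (U' \ Q)))]
  apply sum_congr rfl
  rintro ⟨V, V'⟩ _
  unfold CC
  rw [sum_mul]
  apply sum_congr rfl
  rintro ⟨U, U'⟩ h
  simp only [mem_product, mem_powerset] at h ⊢
  obtain ⟨h3, h4⟩ := h
  have d1 : ∀ p ∈ U, p ∉ V ∧ p ∉ V' := by
    intro p hp
    have := (mem_sdiff.1 (h3 hp)).2
    rw [mem_union] at this
    tauto
  have d2 : ∀ p ∈ U', p ∉ V ∧ p ∉ V' := by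
    intro p hp
    have := (mem_sdiff.1 (h4 hp)).2
    rw [mem_union] at this
    tauto
  have e1 : (U ∪ V) ∩ (V ∪ V') = V := by
    ext p
    have a1 := d1 p
    simp only [mem_inter, mem_union]
    tauto
  have e2 : (U' ∪ V') ∩ (V ∪ V') = V' := by
    ext p
    have a1 := d2 p
    simp only [mem_inter, mem_union]
    tauto
  have e3 : (U ∪ V) \ (V ∪ V') = U := by
    ext p
    have a1 := d1 p
    simp only [mem_sdiff, mem_union]
    tauto
  have e4 : (U' ∪ V') \ (V ∪ V') = U' := by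
    ext p
    have a1 := d2 p
    simp only [mem_sdiff, mem_union]
    tauto
  rw [e1, e2, e3, e4]
  ring

/-- the product of two products -/
theorem GG_sq (t t2 : ℕ → ℝ) (U U' : Finset ℕ) (h : ∀ p ∈ U ∪ U', t2 p = t p ^ 2) :
    GG t t t2 U U' = (∏ p ∈ U, t p) * ∏ p ∈ U', t p := by
  unfold GG
  rw [← prod_union_inter]
  have h1 : ∏ p ∈ U ∩ U', t p = ∏ p ∈ U ∪ U', (if p ∈ U ∩ U' then t p else 1) := by
    rw [prod_ite_mem]
    congr 1
    exact (inter_eq_right.2 (inter_subset_left.trans subset_union_left)).symm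
  rw [h1, ← prod_mul_distrib]
  apply prod_congr rfl
  intro p hp
  have h2 := h p hp
  unfold loc
  rw [mem_union] at hp
  by_cases h3 : p ∈ U
  · by_cases h4 : p ∈ U'
    · rw [if_pos h3, if_pos h4, if_pos (mem_inter.2 ⟨h3, h4⟩), h2]
      ring
    · rw [if_pos h3, if_neg h4, if_neg (by rw [mem_inter]; tauto)]
      ring
  · rw [if_neg h3, if_neg (by rw [mem_inter]; tauto)]
    ring

theorem GG_nonneg (α β γ : ℕ → ℝ) (U U' : Finset ℕ) (hα : ∀ p ∈ U ∪ U', 0 ≤ α p)
    (hβ : ∀ p ∈ U ∪ U', 0 ≤ β p) (hγ : ∀ p ∈ U ∪ U', 0 ≤ γ p) : 0 ≤ GG α β γ U U' := by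
  unfold GG
  apply prod_nonneg
  intro p hp
  unfold loc
  split_ifs
  · exact hγ p hp
  · exact hα p hp
  · exact hβ p hp

end Pool.Agent.H540.PS
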