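import Pool.Agent.H540.PS.CP

/-! Local functions modulo a prime. -/

set_option autoImplicit false

namespace Pool.Agent.H540.PS

open Finset
open H343 (ex)
open Pool.Agent.H540.DS (S En En_nonneg)

/-- the indicator function of the multiples of `p` -/
noncomputable def uu (p : ℕ) (m : ℤ) : ℝ := if (p : ℤ) ∣ m then 1 else 0

/-- the indicator function of the multiples of `p`, minus its mean -/
noncomputable def vv (p : ℕ) (m : ℤ) : ℝ := uu p m - 1 / p

/-- the residues of a property modulo `p` -/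
noncomputable def RR (X : ℤ → Prop) (p : ℕ) : Finset ℕ := by
  classical exact (range p).filter (fun r => X r)

/-- the indicator function of a property -/
noncomputable def xI (X : ℤ → Prop) (m : ℤ) : ℝ := by
  classical exact if X m then 1 else 0

/-- the mean over the frequencies -/
theorem uu_four (p : ℕ) (hp : 0 < p) (m : ℤ) :
    ((uu p m : ℝ) : ℂ) = ∑ h ∈ range p, ((1 / p : ℝ) : ℂ) * ex ((h / p : ℝ) * m) := by
  have h1 := H336V.RamanAux.geom p hp m
  have h2 : ∑ h ∈ range p, ((1 / p : ℝ) : ℂ) * ex ((h / p : ℝ) * m) =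
      ((1 / p : ℝ) : ℂ) * ∑ j ∈ range p, ex ((j : ℝ) * m / p) := by
    rw [mul_sum]
    apply sum_congr rfl
    intro j _
    congr 2
    ring
  rw [h2, h1]
  unfold uu
  have hpC : (p : ℂ) ≠ 0 := by exact_mod_cast hp.ne'
  split_ifs
  · push_cast
    field_simp
  · push_cast
    ring

theorem range_erase (p : ℕ) (hp : 0 < p) (g : ℕ → ℂ) :
    ∑ h ∈ range p, g h = g 0 + ∑ h ∈ (range p).erase 0, g h := by
  rw [add_sum_erase (range p) g (mem_range.2 hp)]

theorem vv_four (p : ℕ) (hp : 0 < p) (m : ℤ) :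
    ((vv p m : ℝ) : ℂ) = ∑ h ∈ (range p).erase 0, ((1 / p : ℝ) : ℂ) * ex ((h / p : ℝ) * m) := by
  have h1 := uu_four p hp m
  rw [range_erase p hp] at h1
  unfold vv
  push_cast at h1 ⊢
  rw [h1]
  simp [ex]

theorem vv_PD (p : ℕ) (hp : 0 < p) : PD (vv p) := by
  unfold PD
  have h : CP (fun m => ∑ h ∈ (range p).erase 0, ((1 / p : ℝ) : ℂ) * ex ((h / p : ℝ) * m)) := by
    induction (range p).erase 0 using Finset.induction_on with
    | empty => exact CP.zero.congr (fun m => by simp)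
    | insert a s ha ih =>
      refine (CP.add (CP.smul (1 / p : ℝ) (by positivity) (CP.ch (a / p : ℝ))) ih).congr ?_
      intro m
      rw [sum_insert ha]
  exact h.congr (fun m => (vv_four p hp m).symm)

/-- an even set of residues -/
structure Ev (X : ℤ → Prop) (p K : ℕ) : Prop where
  per : ∀ m m' : ℤ, (p : ℤ) ∣ m - m' → (X m ↔ X m')
  even : ∀ m : ℤ, X (-m) ↔ X m
  zero : ¬ X 0
  card : (RR X p).card ≤ K

theorem xI_sum {X : ℤ → Prop} {p K : ℕ} (h : Ev X p K) (hp : 0 < p) (m : ℤ) :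
    xI X m = ∑ r ∈ RR X p, uu p (m - r) := by
  classical
  have hpz : (0 : ℤ) < p := by exact_mod_cast hp
  obtain ⟨r0, hr0, hr1⟩ : ∃ r0 : ℕ, r0 < p ∧ (p : ℤ) ∣ m - r0 := by
    refine ⟨(m % p).toNat, ?_, ?_⟩
    · have h1 := Int.emod_lt_of_pos m hpz
      have h2 := Int.emod_nonneg m hpz.ne'
      omega
    · rw [Int.toNat_of_nonneg (Int.emod_nonneg _ hpz.ne')]
      exact Int.dvd_self_sub_emod
  have huniq : ∀ r ∈ range p, ((p : ℤ) ∣ m - (r : ℤ)) → r = r0 := by
    intro r hr h1
    have h2 : (p : ℤ) ∣ (r : ℤ) - r0 := by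
      have := dvd_sub hr1 h1
      have e : m - (r0 : ℤ) - (m - r) = r - r0 := by ring
      rwa [e] at this
    have h3 := mem_range.1 hr
    have h4 := Int.eq_zero_of_abs_lt_dvd h2 (by rw [abs_lt]; constructor <;> omega)
    omega
  by_cases hX : X m
  · have h1 : xI X m = 1 := by
      unfold xI
      rw [if_pos hX]
    have hmem : r0 ∈ RR X p := by
      unfold RR
      rw [mem_filter, mem_range]
      exact ⟨hr0, (h.per m r0 hr1).1 hX⟩
    rw [h1, sum_eq_single_of_mem r0 hmem]
    · unfold uu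
      rw [if_pos hr1]
    · intro r hr hne
      unfold uu
      rw [if_neg]
      intro h2
      unfold RR at hr
      exact hne (huniq r (mem_filter.1 hr).1 h2)
  · have h1 : xI X m = 0 := by
      unfold xI
      rw [if_neg hX]
    rw [h1, sum_eq_zero]
    intro r hr
    unfold uu
    rw [if_neg]
    intro h2
    unfold RR at hr
    rw [mem_filter] at hr
    exact hX ((h.per m r h2).2 hr.2)

theorem xI_even {X : ℤ → Prop} {p K : ℕ} (h : Ev X p K) (m : ℤ) : xI X (-m) = xI X m := by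
  classical
  unfold xI
  simp only [h.even m]

/-- the coefficients of an even set -/
noncomputable def cof (X : ℤ → Prop) (p h : ℕ) : ℝ := ∑ r ∈ RR X p, Real.cos (2 * Real.pi * (h * r / p))

theorem cof_le {X : ℤ → Prop} {p K : ℕ} (h : Ev X p K) (b : ℕ) : |cof X p b| ≤ K := by
  unfold cof
  refine (abs_sum_le_sum_abs _ _).trans ?_
  refine (sum_le_sum fun r _ => Real.abs_cos_le_one _).trans ?_
  rw [sum_const, nsmul_eq_mul, mul_one]
  exact_mod_cast h.card

theorem ex_cos (x : ℝ) : ex x + ex (-x) = ((2 * Real.cos (2 * Real.pi * x) : ℝ) : ℂ) := by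
  unfold ex
  push_cast
  rw [Complex.cos]
  ring_nf

theorem xI_four {X : ℤ → Prop} {p K : ℕ} (h : Ev X p K) (hp : 0 < p) (m : ℤ) :
    ((xI X m : ℝ) : ℂ) = ∑ b ∈ range p, ((cof X p b / p : ℝ) : ℂ) * ex ((b / p : ℝ) * m) := by
  have h1 : ∀ r : ℕ, ((uu p (m - r) : ℝ) : ℂ) + ((uu p (-m - r) : ℝ) : ℂ) =
      ∑ b ∈ range p, ((2 * Real.cos (2 * Real.pi * (b * r / p)) / p : ℝ) : ℂ) * ex ((b / p : ℝ) * m) := by
    intro r
    have e0 : uu p (-m - r) = uu p (m + r) := by
      unfold uu
      have : -m - (r : ℤ) = -(m + r) := by ring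
      simp only [this, dvd_neg]
    rw [e0, uu_four p hp, uu_four p hp, ← sum_add_distrib]
    apply sum_congr rfl
    intro b _
    have e1 : ex ((b / p : ℝ) * ((m - r : ℤ) : ℝ)) = ex ((b / p : ℝ) * m) * ex (-(b * r / p : ℝ)) := by
      rw [← H343.Gauss.ex_add]
      congr 1
      push_cast
      ring
    have e2 : ex ((b / p : ℝ) * ((m + r : ℤ) : ℝ)) = ex ((b / p : ℝ) * m) * ex (b * r / p : ℝ) := by
      rw [← H343.Gauss.ex_add]
      congr 1
      push_cast
      ring
    rw [e1, e2]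
    have e3 := ex_cos (b * r / p : ℝ)
    have e4 : ((2 * Real.cos (2 * Real.pi * (b * r / p)) / p : ℝ) : ℂ) =
        ((1 / p : ℝ) : ℂ) * ((2 * Real.cos (2 * Real.pi * (b * r / p)) : ℝ) : ℂ) := by
      push_cast
      ring
    rw [e4, ← e3]
    ring
  have h2 : ((xI X m : ℝ) : ℂ) = (1 / 2 : ℂ) * ∑ r ∈ RR X p,
      (((uu p (m - r) : ℝ) : ℂ) + ((uu p (-m - r) : ℝ) : ℂ)) := by
    have e1 := xI_sum h hp m
    have e2 := xI_sum h hp (-m)
    rw [xI_even h] at e2
    rw [sum_add_distrib, ← Complex.ofReal_sum, ← Complex.ofReal_sum, ← e1, ← e2]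
    ring
  rw [h2, sum_congr rfl (fun r _ => h1 r), sum_comm, mul_sum]
  apply sum_congr rfl
  intro b _
  unfold cof
  rw [← sum_mul, ← mul_assoc]
  congr 1
  push_cast
  rw [sum_div, mul_sum]
  apply sum_congr rfl
  intro r _
  ring

theorem cof_zero (X : ℤ → Prop) (p : ℕ) : cof X p 0 = (RR X p).card := by
  unfold cof
  simp

/-- the indicator function minus its mean -/
noncomputable def yy (X : ℤ → Prop) (p : ℕ) (m : ℤ) : ℝ := xI X m - (RR X p).card / p

theorem yy_four {X : ℤ → Prop} {p K : ℕ} (h : Ev X p K) (hp : 0 < p) (m : ℤ) :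
    ((yy X p m : ℝ) : ℂ) = ∑ b ∈ (range p).erase 0, ((cof X p b / p : ℝ) : ℂ) * ex ((b / p : ℝ) * m) := by
  have h1 := xI_four h hp m
  rw [range_erase p hp, cof_zero] at h1
  unfold yy
  rw [Complex.ofReal_sub, h1]
  have : ex (((0 : ℕ) : ℝ) / p * m) = 1 := by simp [ex]
  rw [this]
  ring

theorem comb_PD {X : ℤ → Prop} {p K : ℕ} (h : Ev X p K) (hp : 0 < p) (α β : ℝ)
    (hαβ : |β| * K ≤ α) : PD (fun m => α * vv p m + β * yy X p m) := by
  unfold PD
  have h1 : CP (fun m => ∑ b ∈ (range p).erase 0,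
      (((α + β * cof X p b) / p : ℝ) : ℂ) * ex ((b / p : ℝ) * m)) := by
    induction (range p).erase 0 using Finset.induction_on with
    | empty => exact CP.zero.congr (fun m => by simp)
    | insert a s ha ih =>
      have h2 : 0 ≤ (α + β * cof X p a) / p := by
        apply div_nonneg _ (Nat.cast_nonneg _)
        have h3 : |β * cof X p a| ≤ |β| * K := by
          rw [abs_mul]
          exact mul_le_mul_of_nonneg_left (cof_le h a) (abs_nonneg _)
        have h4 := (abs_le.1 h3).1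
        linarith
      refine (CP.add (CP.smul _ h2 (CP.ch (a / p : ℝ))) ih).congr ?_
      intro m
      rw [sum_insert ha]
  refine h1.congr (fun m => ?_)
  push_cast
  have e1 := vv_four p hp m
  have e2 := yy_four h hp m
  rw [e1, e2, mul_sum, mul_sum, ← sum_add_distrib]
  apply sum_congr rfl
  intro b _
  push_cast
  ring

end Pool.Agent.H540.PS
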