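import Pool.Agent.H540.PS.Wt

/-! The lower bound for the pair sum of the weight. -/

set_option autoImplicit false

namespace Pool.Agent.H540.PS

open Finset
open Pool.Agent.H540.DS (En En_nonneg)

section

variable {K : ℕ} {X : ℕ → ℤ → Prop}

/-- the pair sum of a product of functions of mean zero -/
noncomputable def TT (K : ℕ) (X : ℕ → ℤ → Prop) (A : Finset ℤ) (V V' : Finset ℕ) : ℝ :=
  pf A (fun m => GG (fun p => ss K X p m) (fun p => ss K X p m) (fun p => rr K X p m) V V')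

theorem GG_PD {P : Finset ℕ} (h : ∀ p ∈ P, Ev (X p) p K) (hP : ∀ p ∈ P, p.Prime) {V V' : Finset ℕ}
    (hV : V ∪ V' ⊆ P) :
    PD (fun m => GG (fun p => ss K X p m) (fun p => ss K X p m) (fun p => rr K X p m) V V') := by
  unfold GG
  apply PD.prod
  intro p hp
  have h1 := h p (hV hp)
  have h2 := (hP p (hV hp)).pos
  unfold loc
  split_ifs
  · exact rr_PD h1 h2
  · exact ss_PD h1 h2
  · exact ss_PD h1 h2

theorem TT_nonneg (A : Finset ℤ) {P : Finset ℕ} (h : ∀ p ∈ P, Ev (X p) p K) (hP : ∀ p ∈ P, p.Prime)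
    {V V' : Finset ℕ} (hV : V ∪ V' ⊆ P) : 0 ≤ TT K X A V V' := (GG_PD h hP hV).pos A

theorem TT_le (A : Finset ℤ) {P : Finset ℕ} (h : ∀ p ∈ P, Ev (X p) p K) (hP : ∀ p ∈ P, p.Prime)
    {V V' : Finset ℕ} (hV : V ∪ V' ⊆ P) : TT K X A V V' ≤
      ((K + 1 : ℝ) ^ 2 + K) ^ (V ∪ V').card * (En A (∏ p ∈ V ∪ V', p) / (∏ p ∈ V ∪ V', p : ℕ)) := by
  have h1 : PD (fun m => ∏ p ∈ V ∪ V', (((K + 1 : ℝ) ^ 2 + K) * vv p m) -
      GG (fun p => ss K X p m) (fun p => ss K X p m) (fun p => rr K X p m) V V') := by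
    unfold GG
    apply PD.prod_dom
    · intro p hp
      have h1 := h p (hV hp)
      have h2 := (hP p (hV hp)).pos
      unfold loc
      split_ifs
      · exact rr_PD h1 h2
      · exact ss_PD h1 h2
      · exact ss_PD h1 h2
    · intro p hp
      have h1 := h p (hV hp)
      have h2 := (hP p (hV hp)).pos
      unfold loc
      split_ifs
      · exact rr_dom h1 h2
      · exact ss_dom h1 h2
      · exact ss_dom h1 h2
  have h2 := pf_le A h1
  have h3 : pf A (fun m => ∏ p ∈ V ∪ V', (((K + 1 : ℝ) ^ 2 + K) * vv p m)) =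
      ((K + 1 : ℝ) ^ 2 + K) ^ (V ∪ V').card * (En A (∏ p ∈ V ∪ V', p) / (∏ p ∈ V ∪ V', p : ℕ)) := by
    have e1 := pf_vv A (V ∪ V') (fun p hp => hP p (hV hp))
    have e2 : (0 : ℝ) < ((∏ p ∈ V ∪ V', p : ℕ) : ℝ) := by
      exact_mod_cast prod_ge_one (V ∪ V') (fun p hp => hP p (hV hp))
    rw [← e1, mul_div_cancel_left₀ _ e2.ne', ← pf_smul]
    apply pf_congr
    intro m
    rw [prod_mul_distrib, prod_const]
  rw [h3] at h2
  exact h2

/-- a quadratic expression in the local weights -/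
theorem pf_quad (A : Finset ℤ) {P : Finset ℕ} (h : ∀ p ∈ P, Ev (X p) p K) (k : Finset ℕ → ℝ) :
    pf A (fun m => (∑ U ∈ P.powerset, k U * ∏ p ∈ U, tt K X p m) ^ 2) =
      ∑ y ∈ P.powerset ×ˢ P.powerset, CC P (fun U U' => k U * k U') (aa K X) (bb K X) y.1 y.2 *
        TT K X A y.1 y.2 := by
  have h1 : ∀ m : ℤ, (∑ U ∈ P.powerset, k U * ∏ p ∈ U, tt K X p m) ^ 2 =
      ∑ y ∈ P.powerset ×ˢ P.powerset, CC P (fun U U' => k U * k U') (aa K X) (bb K X) y.1 y.2 *
        GG (fun p => ss K X p m) (fun p => ss K X p m) (fun p => rr K X p m) y.1 y.2 := by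
    intro m
    rw [← expand, sq, sum_mul_sum, sum_product]
    apply sum_congr rfl
    intro U hU
    apply sum_congr rfl
    intro U' hU'
    rw [mem_powerset] at hU hU'
    have h2 : GG (fun p => aa K X p + ss K X p m) (fun p => aa K X p + ss K X p m)
        (fun p => bb K X p + rr K X p m) U U' = (∏ p ∈ U, tt K X p m) * ∏ p ∈ U', tt K X p m := by
      have e1 : (fun p => aa K X p + ss K X p m) = fun p => tt K X p m := by
        ext p
        rw [tt_eq]
      rw [e1]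
      apply GG_sq
      intro p hp
      rw [tt_sq (h p (union_subset hU hU' hp))]
    simp only
    rw [h2]
    ring
  rw [pf_congr A h1, pf_sum A (P.powerset ×ˢ P.powerset) (fun y m =>
    CC P (fun U U' => k U * k U') (aa K X) (bb K X) y.1 y.2 *
        GG (fun p => ss K X p m) (fun p => ss K X p m) (fun p => rr K X p m) y.1 y.2)]
  apply sum_congr rfl
  intro y _
  rw [pf_smul]
  rfl

/-- the same with an additional factor -/
theorem pf_quad_s (A : Finset ℤ) {P : Finset ℕ} {q : ℕ} (hq : q ∉ P)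
    (h : ∀ p ∈ P, Ev (X p) p K) (k : Finset ℕ → ℝ) :
    pf A (fun m => ss K X q m * (∑ U ∈ P.powerset, k U * ∏ p ∈ U, tt K X p m) ^ 2) =
      ∑ y ∈ P.powerset ×ˢ P.powerset, CC P (fun U U' => k U * k U') (aa K X) (bb K X) y.1 y.2 *
        TT K X A (insert q y.1) y.2 := by
  have h1 : ∀ m : ℤ, ss K X q m * (∑ U ∈ P.powerset, k U * ∏ p ∈ U, tt K X p m) ^ 2 =
      ∑ y ∈ P.powerset ×ˢ P.powerset, CC P (fun U U' => k U * k U') (aa K X) (bb K X) y.1 y.2 *
        GG (fun p => ss K X p m) (fun p => ss K X p m) (fun p => rr K X p m) (insert q y.1) y.2 := by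
    intro m
    have h0 : (∑ U ∈ P.powerset, k U * ∏ p ∈ U, tt K X p m) ^ 2 =
      ∑ y ∈ P.powerset ×ˢ P.powerset, CC P (fun U U' => k U * k U') (aa K X) (bb K X) y.1 y.2 *
        GG (fun p => ss K X p m) (fun p => ss K X p m) (fun p => rr K X p m) y.1 y.2 := by
      rw [← expand, sq, sum_mul_sum, sum_product]
      apply sum_congr rfl
      intro U hU
      apply sum_congr rfl
      intro U' hU'
      rw [mem_powerset] at hU hU'
      have h2 : GG (fun p => aa K X p + ss K X p m) (fun p => aa K X p + ss K X p m)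
          (fun p => bb K X p + rr K X p m) U U' = (∏ p ∈ U, tt K X p m) * ∏ p ∈ U', tt K X p m := by
        have e1 : (fun p => aa K X p + ss K X p m) = fun p => tt K X p m := by
          ext p
          rw [tt_eq]
        rw [e1]
        apply GG_sq
        intro p hp
        rw [tt_sq (h p (union_subset hU hU' hp))]
      simp only
      rw [h2]
      ring
    rw [h0, mul_sum]
    apply sum_congr rfl
    intro y hy
    rw [mem_product, mem_powerset, mem_powerset] at hy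
    rw [GG_left _ _ _ _ _ q (fun h => hq (hy.1 h)) (fun h => hq (hy.2 h))]
    ring
  rw [pf_congr A h1, pf_sum A (P.powerset ×ˢ P.powerset) (fun y m =>
    CC P (fun U U' => k U * k U') (aa K X) (bb K X) y.1 y.2 *
        GG (fun p => ss K X p m) (fun p => ss K X p m) (fun p => rr K X p m) (insert q y.1) y.2)]
  apply sum_congr rfl
  intro y _
  rw [pf_smul]
  rfl

theorem kk_quad_PD {D : ℝ} (hD : 1 < D) {P : Finset ℕ} (h : ∀ p ∈ P, Ev (X p) p K)
    (hP : ∀ p ∈ P, p.Prime) {p : ℕ} (hp : p ∈ P) : PD (fun m => Lp K X D P p m ^ 2) := by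
  have h1 : PD (Lp K X D P p) := by
    unfold Lp
    apply PD.sum (P.erase p).powerset
    intro U hU
    rw [mem_powerset] at hU
    apply PD.smul
    · exact kk_nonneg D hD p U (fun h => notMem_erase p P (hU h)) (hP p hp)
        (fun q hq => hP q (mem_of_mem_erase (hU hq)))
    · exact PD.prod U fun q hq => tt_PD (h q (mem_of_mem_erase (hU hq)))
        (hP q (mem_of_mem_erase (hU hq))).pos
  exact (h1.mul h1).congr (fun m => by ring)

/-- **The contribution of one prime.** -/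
theorem one_prime (A : Finset ℤ) {D : ℝ} (hD : 1 < D) {P : Finset ℕ} (h : ∀ p ∈ P, Ev (X p) p K)
    (hP : ∀ p ∈ P, p.Prime) {p : ℕ} (hp : p ∈ P) :
    pf A (fun m => xI (X p) m * Lp K X D P p m ^ 2) ≤
      ∑ y ∈ (P.erase p).powerset ×ˢ (P.erase p).powerset,
        CC (P.erase p) (fun U U' => kk D p U * kk D p U') (aa K X) (bb K X) y.1 y.2 *
        (K / p * TT K X A y.1 y.2 + K * TT K X A (insert p y.1) y.2) := by
  have hp0 := (hP p hp).pos
  have h1 : PD (fun m => (K / p + K * ss K X p m) - xI (X p) m) := by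
    have h2 := comb_PD (h p hp) hp0 (K * (K + 1)) (-(K + 1)) (by
      rw [abs_neg, abs_of_nonneg (by positivity)]
      exact le_of_eq (by ring))
    have h3 : (0 : ℝ) ≤ (K - (RR (X p) p).card) / p := by
      apply div_nonneg _ (Nat.cast_nonneg _)
      have : ((RR (X p) p).card : ℝ) ≤ K := by exact_mod_cast (h p hp).card
      linarith
    refine ((PD.const _ h3).add h2).congr (fun m => ?_)
    unfold ss yy
    ring
  have h4 := pf_le A ((h1.mul (kk_quad_PD hD h hP hp)).congr (g := fun m =>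
    (K / p + K * ss K X p m) * Lp K X D P p m ^ 2 - xI (X p) m * Lp K X D P p m ^ 2)
    (fun m => by ring))
  refine h4.trans (le_of_eq ?_)
  have h5 : ∀ m, (K / p + K * ss K X p m) * Lp K X D P p m ^ 2 =
      (K / p : ℝ) * Lp K X D P p m ^ 2 + K * (ss K X p m * Lp K X D P p m ^ 2) := by
    intro m
    ring
  have h' : ∀ q ∈ P.erase p, Ev (X q) q K := fun q hq => h q (mem_of_mem_erase hq)
  rw [pf_congr A h5, pf_add, pf_smul, pf_smul]
  have e1 := pf_quad A h' (kk D p)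
  have e2 := pf_quad_s A (notMem_erase p P) h' (kk D p)
  have e3 : pf A (fun m => Lp K X D P p m ^ 2) =
    pf A (fun m => (∑ U ∈ (P.erase p).powerset, kk D p U * ∏ p ∈ U, tt K X p m) ^ 2) := rfl
  have e4 : pf A (fun m => ss K X p m * Lp K X D P p m ^ 2) =
    pf A (fun m => ss K X p m * (∑ U ∈ (P.erase p).powerset, kk D p U * ∏ p ∈ U, tt K X p m) ^ 2) := rfl
  rw [e3, e4, e1, e2, mul_sum, mul_sum, ← sum_add_distrib]
  apply sum_congr rfl
  intro y _
  ring

/-- the Euler product -/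
noncomputable def EE (K : ℕ) (X : ℕ → ℤ → Prop) (S : Finset ℕ) : ℝ :=
  ∏ p ∈ S, (1 + aa K X p + aa K X p + bb K X p)

theorem EE_fac {p : ℕ} (h : Ev (X p) p K) : 1 ≤ 1 + aa K X p + aa K X p + bb K X p := by
  have h1 := aa_nonneg h
  have h2 : 0 ≤ bb K X p := bb_nonneg p
  linarith

theorem prod_ge1 (S : Finset ℕ) (f : ℕ → ℝ) (h : ∀ p ∈ S, 1 ≤ f p) : 1 ≤ ∏ p ∈ S, f p := by
  have h1 := prod_le_prod (s := S) (f := fun _ => (1 : ℝ)) (g := f) (fun _ _ => zero_le_one) h
  rwa [prod_const_one] at h1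

theorem EE_mono {S S' : Finset ℕ} (h : ∀ p ∈ S', Ev (X p) p K) (hS : S ⊆ S') : EE K X S ≤ EE K X S' := by
  unfold EE
  rw [← prod_sdiff hS]
  apply le_mul_of_one_le_left
  · exact prod_nonneg fun p hp => zero_le_one.trans (EE_fac (h p (hS hp)))
  · exact prod_ge1 _ _ fun p hp => EE_fac (h p (mem_sdiff.1 hp).1)

theorem EE_one {S : Finset ℕ} (h : ∀ p ∈ S, Ev (X p) p K) : 1 ≤ EE K X S :=
  prod_ge1 _ _ fun p hp => EE_fac (h p hp)

/-- whether a product is at most `D ^ 3` -/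
noncomputable def JJ (D : ℝ) (Q : Finset ℕ) : ℝ := if ((∏ p ∈ Q, p : ℕ) : ℝ) ≤ D ^ 3 then 1 else 0

theorem JJ_nonneg (D : ℝ) (Q : Finset ℕ) : 0 ≤ JJ D Q := by
  unfold JJ
  split_ifs <;> norm_num

theorem prod_union_le (V V' : Finset ℕ) (hV : ∀ p ∈ V ∪ V', p.Prime) :
    (∏ p ∈ V ∪ V', p) ≤ (∏ p ∈ V, p) * ∏ p ∈ V', p := by
  rw [← prod_union_inter]
  exact Nat.le_mul_of_pos_right _ (prod_ge_one _ fun p hp => hV p (mem_union_left _ (mem_inter.1 hp).1))

/-- **the coefficients for one prime** -/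
theorem CC_prime {D : ℝ} (hD : 1 < D) {P : Finset ℕ} (h : ∀ p ∈ P, Ev (X p) p K)
    (hP : ∀ p ∈ P, p.Prime) (hPD : ∀ p ∈ P, (p : ℝ) ≤ D) {p : ℕ} (hp : p ∈ P) {V V' : Finset ℕ}
    (hV : V ⊆ P.erase p) (hV' : V' ⊆ P.erase p) :
    CC (P.erase p) (fun U U' => kk D p U * kk D p U') (aa K X) (bb K X) V V' ≤
      (Real.log p / Real.log D) ^ 2 * EE K X (P \ (insert p V ∪ V')) * JJ D (insert p V ∪ V') := by
  have hδ : 0 ≤ Real.log p / Real.log D :=
    div_nonneg (Real.log_natCast_nonneg p) (Real.log_pos hD).le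
  have hUk : ∀ U : Finset ℕ, U ⊆ P.erase p → 0 ≤ kk D p U ∧ kk D p U ≤ Real.log p / Real.log D ∧
      (D < (∏ q ∈ U, q : ℕ) → kk D p U = 0) := by
    intro U hU
    have h1 : p ∉ U := fun h => notMem_erase p P (hU h)
    have h2 : ∀ q ∈ U, q.Prime := fun q hq => hP q (mem_of_mem_erase (hU hq))
    exact ⟨kk_nonneg D hD p U h1 (hP p hp) h2, kk_le D hD p U h1 (hP p hp) h2,
      kk_zero D hD p U h1 (hP p hp) h2⟩
  have hset : P.erase p \ (V ∪ V') = P \ (insert p V ∪ V') := by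
    ext q
    simp only [mem_sdiff, mem_erase, mem_union, mem_insert]
    tauto
  have hzU : ∀ z ∈ (P.erase p \ (V ∪ V')).powerset ×ˢ (P.erase p \ (V ∪ V')).powerset,
      z.1 ∪ V ⊆ P.erase p ∧ z.2 ∪ V' ⊆ P.erase p := by
    intro z hz
    rw [mem_product, mem_powerset, mem_powerset] at hz
    exact ⟨union_subset (hz.1.trans sdiff_subset) hV, union_subset (hz.2.trans sdiff_subset) hV'⟩
  have hG : ∀ z ∈ (P.erase p \ (V ∪ V')).powerset ×ˢ (P.erase p \ (V ∪ V')).powerset,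
      0 ≤ GG (aa K X) (aa K X) (bb K X) z.1 z.2 := by
    intro z hz
    rw [mem_product, mem_powerset, mem_powerset] at hz
    have h1 : ∀ q ∈ z.1 ∪ z.2, q ∈ P := fun q hq =>
      mem_of_mem_erase (mem_sdiff.1 ((union_subset hz.1 hz.2) hq)).1
    exact GG_nonneg _ _ _ _ _ (fun q hq => aa_nonneg (h q (h1 q hq)))
      (fun q hq => aa_nonneg (h q (h1 q hq))) (fun q _ => bb_nonneg q)
  have hkk : ∀ z ∈ (P.erase p \ (V ∪ V')).powerset ×ˢ (P.erase p \ (V ∪ V')).powerset,
      kk D p (z.1 ∪ V) * kk D p (z.2 ∪ V') ≤ (Real.log p / Real.log D) ^ 2 * JJ D (insert p V ∪ V') := by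
    intro z hz
    obtain ⟨h1, h2⟩ := hzU z hz
    obtain ⟨a1, a2, a3⟩ := hUk _ h1
    obtain ⟨b1, b2, b3⟩ := hUk _ h2
    by_cases hJ : ((∏ q ∈ insert p V ∪ V', q : ℕ) : ℝ) ≤ D ^ 3
    · have hJ1 : JJ D (insert p V ∪ V') = 1 := by
        unfold JJ
        rw [if_pos hJ]
      rw [hJ1, mul_one, sq]
      exact mul_le_mul a2 b2 b1 hδ
    · have hJ1 : JJ D (insert p V ∪ V') = 0 := by
        unfold JJ
        rw [if_neg hJ]
      rw [hJ1, mul_zero]
      apply le_of_eq
      by_contra hne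
      have c1 : ((∏ q ∈ z.1 ∪ V, q : ℕ) : ℝ) ≤ D := by
        by_contra hcon
        push Not at hcon
        exact hne (by rw [a3 hcon, zero_mul])
      have c2 : ((∏ q ∈ z.2 ∪ V', q : ℕ) : ℝ) ≤ D := by
        by_contra hcon
        push Not at hcon
        exact hne (by rw [b3 hcon, mul_zero])
      have hpr : ∀ U : Finset ℕ, U ⊆ P.erase p → ∀ q ∈ U, q.Prime := fun U hU q hq =>
        hP q (mem_of_mem_erase (hU hq))
      have c3 : ((∏ q ∈ V, q : ℕ) : ℝ) ≤ D := by
        refine le_trans ?_ c1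
        have := prod_le_prod_of_subset_of_one_le' (f := fun q : ℕ => q)
          (subset_union_right (s₁ := z.1) (s₂ := V)) (fun q hq _ => (hpr _ h1 q hq).one_le)
        exact_mod_cast this
      have c4 : ((∏ q ∈ V', q : ℕ) : ℝ) ≤ D := by
        refine le_trans ?_ c2
        have := prod_le_prod_of_subset_of_one_le' (f := fun q : ℕ => q)
          (subset_union_right (s₁ := z.2) (s₂ := V')) (fun q hq _ => (hpr _ h2 q hq).one_le)
        exact_mod_cast this
      apply hJ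
      have c5 : (∏ q ∈ insert p V ∪ V', q) ≤ (∏ q ∈ insert p V, q) * ∏ q ∈ V', q := by
        apply prod_union_le
        intro q hq
        rw [mem_union, mem_insert] at hq
        rcases hq with (rfl | hq) | hq
        · exact hP _ hp
        · exact hpr V hV q hq
        · exact hpr V' hV' q hq
      have c6 : p ∉ V := fun h => notMem_erase p P (hV h)
      rw [prod_insert c6] at c5
      have c7 : ((∏ q ∈ insert p V ∪ V', q : ℕ) : ℝ) ≤ p * ((∏ q ∈ V, q : ℕ) : ℝ) * ((∏ q ∈ V', q : ℕ) : ℝ) := by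
        exact_mod_cast c5
      refine c7.trans ?_
      have hD0 : 0 ≤ D := by linarith
      calc (p : ℝ) * ((∏ q ∈ V, q : ℕ) : ℝ) * ((∏ q ∈ V', q : ℕ) : ℝ) ≤ D * D * D := by
            apply mul_le_mul _ c4 (Nat.cast_nonneg _) (by positivity)
            exact mul_le_mul (hPD p hp) c3 (Nat.cast_nonneg _) hD0
        _ = D ^ 3 := by ring
  unfold CC
  have hE : EE K X (P \ (insert p V ∪ V')) = ∑ z ∈ (P.erase p \ (V ∪ V')).powerset ×ˢ
      (P.erase p \ (V ∪ V')).powerset, GG (aa K X) (aa K X) (bb K X) z.1 z.2 := by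
    unfold EE
    rw [← hset, ← euler, sum_product]
  rw [hE, mul_right_comm, mul_sum]
  apply sum_le_sum
  intro z hz
  exact mul_le_mul_of_nonneg_right (hkk z hz) (hG z hz)

/-- the pairs in which a prime occurs -/
theorem sum_insert_le {P : Finset ℕ} {p : ℕ} (hp : p ∈ P) (g : Finset ℕ → Finset ℕ → ℝ)
    (hg : ∀ V V' : Finset ℕ, V ⊆ P → V' ⊆ P → 0 ≤ g V V') :
    ∑ y ∈ (P.erase p).powerset ×ˢ (P.erase p).powerset, g (insert p y.1) y.2 ≤
      ∑ y ∈ P.powerset ×ˢ P.powerset, if p ∈ y.1 ∪ y.2 then g y.1 y.2 else 0 := by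
  have h1 : ∑ y ∈ (P.erase p).powerset ×ˢ (P.erase p).powerset, g (insert p y.1) y.2 =
      ∑ y ∈ ((P.erase p).powerset ×ˢ (P.erase p).powerset).image (fun y => (insert p y.1, y.2)),
        g y.1 y.2 := by
    rw [sum_image]
    rintro ⟨V, V'⟩ hV ⟨U, U'⟩ hU hVU
    rw [coe_product, Set.mem_prod] at hV hU
    simp only [coe_powerset, Set.mem_preimage, Set.mem_powerset_iff, coe_subset] at hV hU
    simp only [Prod.mk.injEq] at hVU ⊢
    refine ⟨?_, hVU.2⟩
    have e1 : ∀ W : Finset ℕ, W ⊆ P.erase p → (insert p W).erase p = W := by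
      intro W hW
      exact erase_insert (fun h => notMem_erase p P (hW h))
    rw [← e1 V hV.1, ← e1 U hU.1, hVU.1]
  rw [h1]
  obtain ⟨I, hI⟩ : ∃ I : Finset (Finset ℕ × Finset ℕ), I = ((P.erase p).powerset ×ˢ
    (P.erase p).powerset).image (fun y => (insert p y.1, y.2)) := ⟨_, rfl⟩
  rw [← hI]
  have h2 : ∑ y ∈ I, g y.1 y.2 ≤ ∑ y ∈ I, if p ∈ y.1 ∪ y.2 then g y.1 y.2 else 0 := by
    apply sum_le_sum
    intro y hy
    rw [hI, mem_image] at hy
    obtain ⟨⟨V, V'⟩, hV, rfl⟩ := hy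
    rw [if_pos (mem_union_left _ (mem_insert_self _ _))]
  have h3 : ∑ y ∈ I, (if p ∈ y.1 ∪ y.2 then g y.1 y.2 else 0) ≤
      ∑ y ∈ P.powerset ×ˢ P.powerset, if p ∈ y.1 ∪ y.2 then g y.1 y.2 else 0 := by
    apply sum_le_sum_of_subset_of_nonneg
    · intro y hy
      rw [hI, mem_image] at hy
      obtain ⟨⟨V, V'⟩, hV, rfl⟩ := hy
      rw [mem_product, mem_powerset, mem_powerset] at hV ⊢
      exact ⟨insert_subset hp (hV.1.trans (erase_subset _ _)), hV.2.trans (erase_subset _ _)⟩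
    · intro y hy _
      rw [mem_product, mem_powerset, mem_powerset] at hy
      split_ifs
      · exact hg _ _ hy.1 hy.2
      · exact le_refl _
  exact h2.trans h3

/-- **The lower bound, in terms of the coefficients.** -/
theorem ff_lower (A : Finset ℤ) {D : ℝ} (hD : 1 < D) {P : Finset ℕ} (h : ∀ p ∈ P, Ev (X p) p K)
    (hP : ∀ p ∈ P, p.Prime) (hPD : ∀ p ∈ P, (p : ℝ) ≤ D) :
    ∑ y ∈ P.powerset ×ˢ P.powerset, (CC P (fun U U' => hh D U * hh D U') (aa K X) (bb K X) y.1 y.2 -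
      EE K X (P \ (y.1 ∪ y.2)) * JJ D (y.1 ∪ y.2) * (∑ p ∈ P, K / p * (Real.log p / Real.log D) ^ 2 +
        K * ∑ p ∈ y.1 ∪ y.2, (Real.log p / Real.log D) ^ 2)) * TT K X A y.1 y.2 ≤
      pf A (ff K X D P) := by
  have hT : ∀ y ∈ P.powerset ×ˢ P.powerset, 0 ≤ TT K X A y.1 y.2 := by
    intro y hy
    rw [mem_product, mem_powerset, mem_powerset] at hy
    exact TT_nonneg A h hP (union_subset hy.1 hy.2)
  have e1 : pf A (ff K X D P) = ∑ y ∈ P.powerset ×ˢ P.powerset,
      CC P (fun U U' => hh D U * hh D U') (aa K X) (bb K X) y.1 y.2 * TT K X A y.1 y.2 -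
      ∑ p ∈ P, pf A (fun m => xI (X p) m * Lp K X D P p m ^ 2) := by
    rw [← pf_quad A h (hh D), ← pf_sum A P (fun p m => xI (X p) m * Lp K X D P p m ^ 2), ← pf_sub]
    rfl
  obtain ⟨g, hg⟩ : ∃ g : Finset ℕ → Finset ℕ → ℝ, g = fun V V' => EE K X (P \ (V ∪ V')) *
    JJ D (V ∪ V') * TT K X A V V' := ⟨_, rfl⟩
  have hg0 : ∀ V V' : Finset ℕ, V ⊆ P → V' ⊆ P → 0 ≤ g V V' := by
    intro V V' hV hV'
    rw [hg]
    have h1 : 0 ≤ EE K X (P \ (V ∪ V')) :=
      zero_le_one.trans (EE_one fun p hp => h p (mem_sdiff.1 hp).1)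
    exact mul_nonneg (mul_nonneg h1 (JJ_nonneg _ _)) (TT_nonneg A h hP (union_subset hV hV'))
  have e2 : ∀ p ∈ P, pf A (fun m => xI (X p) m * Lp K X D P p m ^ 2) ≤
      K / p * (Real.log p / Real.log D) ^ 2 * ∑ y ∈ P.powerset ×ˢ P.powerset, g y.1 y.2 +
      K * (Real.log p / Real.log D) ^ 2 * ∑ y ∈ P.powerset ×ˢ P.powerset,
        if p ∈ y.1 ∪ y.2 then g y.1 y.2 else 0 := by
    intro p hp
    obtain ⟨δ, hδ⟩ : ∃ δ, δ = Real.log p / Real.log D := ⟨_, rfl⟩
    rw [← hδ]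
    have hp0 : (0 : ℝ) ≤ K / p := by positivity
    refine (one_prime A hD h hP hp).trans ?_
    have h1 : ∀ y ∈ (P.erase p).powerset ×ˢ (P.erase p).powerset,
        CC (P.erase p) (fun U U' => kk D p U * kk D p U') (aa K X) (bb K X) y.1 y.2 *
        (K / p * TT K X A y.1 y.2 + K * TT K X A (insert p y.1) y.2) ≤
        K / p * δ ^ 2 * g y.1 y.2 + K * δ ^ 2 * g (insert p y.1) y.2 := by
      intro y hy
      rw [mem_product, mem_powerset, mem_powerset] at hy
      have c1 := CC_prime hD h hP hPD hp hy.1 hy.2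
      rw [← hδ] at c1
      have s1 : y.1 ∪ y.2 ⊆ P := union_subset (hy.1.trans (erase_subset _ _)) (hy.2.trans (erase_subset _ _))
      have s2 : insert p y.1 ∪ y.2 ⊆ P := by
        rw [insert_union]
        exact insert_subset hp s1
      have t1 := TT_nonneg A h hP s1
      have t2 : 0 ≤ TT K X A (insert p y.1) y.2 := TT_nonneg A h hP s2
      have c2 : EE K X (P \ (insert p y.1 ∪ y.2)) ≤ EE K X (P \ (y.1 ∪ y.2)) := by
        apply EE_mono (fun q hq => h q (mem_sdiff.1 hq).1)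
        apply sdiff_subset_sdiff (subset_refl _)
        exact union_subset_union (subset_insert _ _) (subset_refl _)
      have c3 : JJ D (insert p y.1 ∪ y.2) ≤ JJ D (y.1 ∪ y.2) := by
        unfold JJ
        by_cases h1 : ((∏ p ∈ insert p y.1 ∪ y.2, p : ℕ) : ℝ) ≤ D ^ 3
        · rw [if_pos h1, if_pos]
          refine le_trans ?_ h1
          have := prod_le_prod_of_subset_of_one_le' (f := fun q : ℕ => q)
            (union_subset_union (subset_insert p y.1) (subset_refl y.2))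
            (fun q hq _ => (hP q (s2 hq)).one_le)
          exact_mod_cast this
        · rw [if_neg h1]
          split_ifs <;> norm_num
      have c4 : 0 ≤ EE K X (P \ (insert p y.1 ∪ y.2)) :=
        zero_le_one.trans (EE_one fun p hp => h p (mem_sdiff.1 hp).1)
      have c5 : EE K X (P \ (insert p y.1 ∪ y.2)) * JJ D (insert p y.1 ∪ y.2) ≤
          EE K X (P \ (y.1 ∪ y.2)) * JJ D (y.1 ∪ y.2) :=
        mul_le_mul c2 c3 (JJ_nonneg _ _) (c4.trans c2)
      have d1 : K / p * TT K X A y.1 y.2 * CC (P.erase p) (fun U U' => kk D p U * kk D p U')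
          (aa K X) (bb K X) y.1 y.2 ≤ K / p * TT K X A y.1 y.2 *
          (δ ^ 2 * (EE K X (P \ (y.1 ∪ y.2)) * JJ D (y.1 ∪ y.2))) := by
        apply mul_le_mul_of_nonneg_left _ (mul_nonneg hp0 t1)
        refine c1.trans ?_
        rw [mul_assoc]
        exact mul_le_mul_of_nonneg_left c5 (sq_nonneg _)
      have d2 : K * TT K X A (insert p y.1) y.2 * CC (P.erase p) (fun U U' => kk D p U * kk D p U')
          (aa K X) (bb K X) y.1 y.2 ≤ K * TT K X A (insert p y.1) y.2 *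
          (δ ^ 2 * EE K X (P \ (insert p y.1 ∪ y.2)) * JJ D (insert p y.1 ∪ y.2)) :=
        mul_le_mul_of_nonneg_left c1 (mul_nonneg (Nat.cast_nonneg _) t2)
      rw [hg]
      simp only
      linarith
    refine (sum_le_sum h1).trans ?_
    rw [sum_add_distrib, ← mul_sum, ← mul_sum]
    apply add_le_add
    · apply mul_le_mul_of_nonneg_left _ (by positivity)
      apply sum_le_sum_of_subset_of_nonneg
      · exact product_subset_product (powerset_mono.2 (erase_subset _ _))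
          (powerset_mono.2 (erase_subset _ _))
      · intro y hy _
        rw [mem_product, mem_powerset, mem_powerset] at hy
        exact hg0 _ _ hy.1 hy.2
    · exact mul_le_mul_of_nonneg_left (sum_insert_le hp g hg0) (by positivity)
  have e3 := sum_le_sum e2
  rw [sum_add_distrib, ← sum_mul] at e3
  have e4 : ∑ p ∈ P, K * (Real.log p / Real.log D) ^ 2 * ∑ y ∈ P.powerset ×ˢ P.powerset,
        (if p ∈ y.1 ∪ y.2 then g y.1 y.2 else 0) =
      ∑ y ∈ P.powerset ×ˢ P.powerset, g y.1 y.2 * (K * ∑ p ∈ y.1 ∪ y.2, (Real.log p / Real.log D) ^ 2) := by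
    rw [sum_congr rfl (fun p _ => mul_sum _ _ _), sum_comm]
    apply sum_congr rfl
    intro y hy
    rw [mem_product, mem_powerset, mem_powerset] at hy
    have s1 : y.1 ∪ y.2 ⊆ P := union_subset hy.1 hy.2
    rw [mul_sum, mul_sum, ← sum_filter_add_sum_filter_not P (fun p => p ∈ y.1 ∪ y.2)]
    have h2 : P.filter (fun p => p ∈ y.1 ∪ y.2) = y.1 ∪ y.2 := by
      ext p
      rw [mem_filter]
      exact ⟨fun h => h.2, fun h => ⟨s1 h, h⟩⟩
    rw [h2]
    have h3 : ∑ x ∈ P.filter (fun p => ¬ p ∈ y.1 ∪ y.2), K * (Real.log x / Real.log D) ^ 2 *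
        (if x ∈ y.1 ∪ y.2 then g y.1 y.2 else 0) = 0 := by
      apply sum_eq_zero
      intro p hp
      rw [if_neg (mem_filter.1 hp).2, mul_zero]
    rw [h3, add_zero]
    apply sum_congr rfl
    intro p hp
    rw [if_pos hp]
    ring
  rw [e4] at e3
  rw [e1]
  have e5 : ∑ y ∈ P.powerset ×ˢ P.powerset, (CC P (fun U U' => hh D U * hh D U') (aa K X) (bb K X) y.1 y.2 -
      EE K X (P \ (y.1 ∪ y.2)) * JJ D (y.1 ∪ y.2) * (∑ p ∈ P, K / p * (Real.log p / Real.log D) ^ 2 +
        K * ∑ p ∈ y.1 ∪ y.2, (Real.log p / Real.log D) ^ 2)) * TT K X A y.1 y.2 =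
      ∑ y ∈ P.powerset ×ˢ P.powerset,
        CC P (fun U U' => hh D U * hh D U') (aa K X) (bb K X) y.1 y.2 * TT K X A y.1 y.2 -
      ((∑ p ∈ P, K / p * (Real.log p / Real.log D) ^ 2) * ∑ y ∈ P.powerset ×ˢ P.powerset, g y.1 y.2 +
        ∑ y ∈ P.powerset ×ˢ P.powerset, g y.1 y.2 * (K * ∑ p ∈ y.1 ∪ y.2, (Real.log p / Real.log D) ^ 2)) := by
    rw [mul_sum, ← sum_add_distrib, ← sum_sub_distrib]
    apply sum_congr rfl
    intro y _
    rw [hg]
    simp only
    ring
  rw [e5]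
  linarith

end

end Pool.Agent.H540.PS
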