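import Pool.Agent.H540.PS.Low

/-! The main lower bound. -/

set_option autoImplicit false

namespace Pool.Agent.H540.PS

open Finset
open Pool.Agent.H540.DS (En En_nonneg)

theorem GG_w1 (α β γ w : ℕ → ℝ) (U U' : Finset ℕ) :
    GG (fun p => α p * w p) β (fun p => γ p * w p) U U' = (∏ p ∈ U, w p) * GG α β γ U U' := by
  unfold GG
  have h1 : ∏ p ∈ U, w p = ∏ p ∈ U ∪ U', (if p ∈ U then w p else 1) := by
    rw [prod_ite_mem]
    congr 1
    exact (inter_eq_right.2 subset_union_left).symm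
  rw [h1, ← prod_mul_distrib]
  apply prod_congr rfl
  intro p _
  unfold loc
  split_ifs <;> ring

theorem GG_w2 (α β γ w : ℕ → ℝ) (U U' : Finset ℕ) :
    GG α (fun p => β p * w p) (fun p => γ p * w p) U U' = (∏ p ∈ U', w p) * GG α β γ U U' := by
  unfold GG
  have h1 : ∏ p ∈ U', w p = ∏ p ∈ U ∪ U', (if p ∈ U' then w p else 1) := by
    rw [prod_ite_mem]
    congr 1
    exact (inter_eq_right.2 subset_union_right).symm
  rw [h1, ← prod_mul_distrib]
  apply prod_congr rfl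
  intro p hp
  rw [mem_union] at hp
  unfold loc
  by_cases h2 : p ∈ U
  · rw [if_pos h2, if_pos h2]
    split_ifs <;> ring
  · have h3 : p ∈ U' := by tauto
    rw [if_neg h2, if_neg h2, if_pos h3]
    ring

/-- the perturbed Euler product -/
theorem pert (P : Finset ℕ) (a b w : ℕ → ℝ) (ha : ∀ p ∈ P, 0 ≤ a p) (hb : ∀ p ∈ P, 0 ≤ b p)
    (hw : ∀ p ∈ P, 1 ≤ w p) :
    ∏ p ∈ P, (1 + a p + a p + b p + (a p + b p) * (w p - 1)) ≤
      (∏ p ∈ P, (1 + a p + a p + b p)) * Real.exp (∑ p ∈ P, (a p + b p) * (w p - 1)) := by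
  rw [Real.exp_sum, ← prod_mul_distrib]
  apply prod_le_prod
  · intro p hp
    have h1 := ha p hp
    have h2 := hb p hp
    have h3 := mul_nonneg (add_nonneg h1 h2) (sub_nonneg.2 (hw p hp))
    linarith
  · intro p hp
    have h1 := ha p hp
    have h2 := hb p hp
    have h3 := mul_nonneg (add_nonneg h1 h2) (sub_nonneg.2 (hw p hp))
    have h4 := Real.add_one_le_exp ((a p + b p) * (w p - 1))
    have h5 : 1 ≤ 1 + a p + a p + b p := by linarith
    calc 1 + a p + a p + b p + (a p + b p) * (w p - 1) ≤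
          (1 + a p + a p + b p) * ((a p + b p) * (w p - 1) + 1) := by nlinarith
      _ ≤ _ := mul_le_mul_of_nonneg_left h4 (by linarith)

section

variable {K : ℕ} {X : ℕ → ℤ → Prop}

theorem ab_eq {p : ℕ} : aa K X p + bb K X p = (K + 1) * (K + 2) / p := by
  unfold aa bb
  ring

/-- **the main coefficients** -/
theorem CC_main {D : ℝ} (hD : 1 < D) {P : Finset ℕ} (h : ∀ p ∈ P, Ev (X p) p K)
    (hP : ∀ p ∈ P, p.Prime) (hlog : ∀ p ∈ P, Real.log p ≤ Real.log D / (24 * (K + 2) ^ 2))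
    (hM : ∑ p ∈ P, Real.log p / p ≤ Real.log D / (24 * (K + 2) ^ 2)) {V V' : Finset ℕ}
    (hV : V ⊆ P) (hV' : V' ⊆ P) (hVV : Real.log (∏ p ∈ V ∪ V', p : ℕ) ≤ Real.log D / 4) :
    1 / 8 * EE K X (P \ (V ∪ V')) ≤
      CC P (fun U U' => hh D U * hh D U') (aa K X) (bb K X) V V' := by
  obtain ⟨S, hS⟩ : ∃ S, S = P \ (V ∪ V') := ⟨_, rfl⟩
  have hSP : S ⊆ P := by rw [hS]; exact sdiff_subset
  have hL : 0 < Real.log D := Real.log_pos hD
  obtain ⟨L, hLe⟩ : ∃ L, L = Real.log D := ⟨_, rfl⟩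
  rw [← hLe] at hlog hM hVV hL
  have hK2 : (0 : ℝ) < 24 * (K + 2) ^ 2 := by positivity
  obtain ⟨w, hw⟩ : ∃ w : ℕ → ℝ, w = fun p : ℕ => Real.exp (12 / L * Real.log p) := ⟨_, rfl⟩
  have hw1 : ∀ p : ℕ, 1 ≤ w p := by
    intro p
    rw [hw]
    apply Real.one_le_exp
    exact mul_nonneg (by positivity) (Real.log_natCast_nonneg p)
  have hwU : ∀ U : Finset ℕ, (∀ p ∈ U, p.Prime) → ∏ p ∈ U, w p =
      Real.exp (12 / L * Real.log (∏ p ∈ U, p : ℕ)) := by
    intro U hU
    rw [hw, ← Real.exp_sum, ← mul_sum]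
    push_cast
    rw [Real.log_prod (fun p hp => by exact_mod_cast (hU p hp).ne_zero)]
  have hpU : ∀ U : Finset ℕ, U ⊆ P → ∀ p ∈ U, p.Prime := fun U hU p hp => hP p (hU hp)
  have hhalf : ∀ U W : Finset ℕ, U ⊆ P → W ⊆ P → Real.log (∏ p ∈ W, p : ℕ) ≤ L / 4 →
      Real.log (∏ p ∈ U, p : ℕ) ≤ L / 4 → 1 / 2 ≤ hh D (U ∪ W) := by
    intro U W hU hW h1 h2
    have h3 : Real.log (∏ p ∈ U ∪ W, p : ℕ) ≤ Real.log (∏ p ∈ U, p : ℕ) + Real.log (∏ p ∈ W, p : ℕ) := by
      have e1 := prod_union_le U W (hpU _ (union_subset hU hW))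
      have e2 : (1 : ℝ) ≤ ((∏ p ∈ U, p : ℕ) : ℝ) := by exact_mod_cast prod_ge_one U (hpU U hU)
      have e3 : (1 : ℝ) ≤ ((∏ p ∈ W, p : ℕ) : ℝ) := by exact_mod_cast prod_ge_one W (hpU W hW)
      have e4 : (1 : ℝ) ≤ ((∏ p ∈ U ∪ W, p : ℕ) : ℝ) := by
        exact_mod_cast prod_ge_one _ (hpU _ (union_subset hU hW))
      rw [← Real.log_mul (by linarith) (by linarith)]
      apply Real.log_le_log (by linarith)
      exact_mod_cast e1
    unfold hh
    refine le_trans ?_ (le_max_right _ _)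
    rw [← hLe]
    have h4 : Real.log (∏ p ∈ U ∪ W, p : ℕ) / L ≤ 1 / 2 := by
      rw [div_le_iff₀ hL]
      linarith
    linarith
  have hVle : ∀ W : Finset ℕ, W ⊆ V ∪ V' → Real.log (∏ p ∈ W, p : ℕ) ≤ L / 4 := by
    intro W hW
    refine le_trans ?_ hVV
    have hsub : V ∪ V' ⊆ P := union_subset hV hV'
    have e2 : (1 : ℝ) ≤ ((∏ p ∈ W, p : ℕ) : ℝ) := by exact_mod_cast prod_ge_one W (hpU W (hW.trans hsub))
    apply Real.log_le_log (by linarith)
    have := prod_le_prod_of_subset_of_one_le' (f := fun q : ℕ => q) hW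
      (fun q hq _ => (hP q (hsub hq)).one_le)
    exact_mod_cast this
  -- the pointwise inequality
  have hpt : ∀ z ∈ S.powerset ×ˢ S.powerset, 1 / 4 * (1 - Real.exp (-3) * ∏ p ∈ z.1, w p -
      Real.exp (-3) * ∏ p ∈ z.2, w p) ≤ hh D (z.1 ∪ V) * hh D (z.2 ∪ V') := by
    intro z hz
    rw [mem_product, mem_powerset, mem_powerset] at hz
    have z1 : z.1 ⊆ P := hz.1.trans hSP
    have z2 : z.2 ⊆ P := hz.2.trans hSP
    have p1 : 0 < ∏ p ∈ z.1, w p := prod_pos fun p _ => lt_of_lt_of_le one_pos (hw1 p)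
    have p2 : 0 < ∏ p ∈ z.2, w p := prod_pos fun p _ => lt_of_lt_of_le one_pos (hw1 p)
    have e3 := Real.exp_pos (-3)
    have hbig : ∀ U : Finset ℕ, U ⊆ P → ¬ Real.log (∏ p ∈ U, p : ℕ) ≤ L / 4 →
        1 ≤ Real.exp (-3) * ∏ p ∈ U, w p := by
      intro U hU h1
      push Not at h1
      rw [hwU U (hpU U hU), ← Real.exp_add]
      apply Real.one_le_exp
      have : 12 / L * (L / 4) ≤ 12 / L * Real.log (∏ p ∈ U, p : ℕ) :=
        mul_le_mul_of_nonneg_left h1.le (by positivity)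
      have e : 12 / L * (L / 4) = 3 := by field_simp; norm_num
      linarith
    by_cases c1 : Real.log (∏ p ∈ z.1, p : ℕ) ≤ L / 4
    · by_cases c2 : Real.log (∏ p ∈ z.2, p : ℕ) ≤ L / 4
      · have h1 := hhalf z.1 V z1 hV (hVle V subset_union_left) c1
        have h2 := hhalf z.2 V' z2 hV' (hVle V' subset_union_right) c2
        have h3 : (1 / 2 : ℝ) * (1 / 2) ≤ hh D (z.1 ∪ V) * hh D (z.2 ∪ V') :=
          mul_le_mul h1 h2 (by norm_num) (by linarith)
        have h4 := mul_pos e3 p1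
        have h5 := mul_pos e3 p2
        linarith
      · have h1 := hbig z.2 z2 c2
        have h4 := mul_pos e3 p1
        have h5 := mul_nonneg (hh_nonneg D (z.1 ∪ V)) (hh_nonneg D (z.2 ∪ V'))
        linarith
    · have h1 := hbig z.1 z1 c1
      have h4 := mul_pos e3 p2
      have h5 := mul_nonneg (hh_nonneg D (z.1 ∪ V)) (hh_nonneg D (z.2 ∪ V'))
      linarith
  have ha : ∀ p ∈ S, 0 ≤ aa K X p := fun p hp => aa_nonneg (h p (hSP hp))
  have hb : ∀ p ∈ S, 0 ≤ bb K X p := fun p _ => bb_nonneg p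
  have hG : ∀ z ∈ S.powerset ×ˢ S.powerset, 0 ≤ GG (aa K X) (aa K X) (bb K X) z.1 z.2 := by
    intro z hz
    rw [mem_product, mem_powerset, mem_powerset] at hz
    have h1 : z.1 ∪ z.2 ⊆ S := union_subset hz.1 hz.2
    exact GG_nonneg _ _ _ _ _ (fun q hq => ha q (h1 hq)) (fun q hq => ha q (h1 hq))
      (fun q hq => hb q (h1 hq))
  -- the perturbed sums
  have hexp : ∑ p ∈ S, (aa K X p + bb K X p) * (w p - 1) ≤ 1 := by
    have h1 : ∀ p ∈ S, (aa K X p + bb K X p) * (w p - 1) ≤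
        24 * (K + 2) ^ 2 / L * (Real.log p / p) := by
      intro p hp
      have hp0 : (0 : ℝ) < p := by exact_mod_cast (hP p (hSP hp)).pos
      have l0 : 0 ≤ Real.log p := Real.log_natCast_nonneg p
      have l1 := hlog p (hSP hp)
      have e1 : 12 / L * Real.log p ≤ 1 := by
        calc 12 / L * Real.log p ≤ 12 / L * (L / (24 * (K + 2) ^ 2)) :=
              mul_le_mul_of_nonneg_left l1 (by positivity)
          _ = 1 / (2 * (K + 2) ^ 2) := by field_simp; norm_num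
          _ ≤ 1 := by
            rw [div_le_one (by positivity)]
            nlinarith [(Nat.cast_nonneg K : (0 : ℝ) ≤ K)]
      have e0 : 0 ≤ 12 / L * Real.log p := by positivity
      have e2 : w p - 1 ≤ 2 * (12 / L * Real.log p) := by
        have := Real.abs_exp_sub_one_le (x := 12 / L * Real.log p) (by rw [abs_of_nonneg e0]; exact e1)
        rw [abs_of_nonneg e0] at this
        rw [hw]
        exact (le_abs_self _).trans this
      rw [ab_eq]
      calc (K + 1 : ℝ) * (K + 2) / p * (w p - 1) ≤ (K + 1 : ℝ) * (K + 2) / p * (2 * (12 / L * Real.log p)) :=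
            mul_le_mul_of_nonneg_left e2 (by positivity)
        _ = (K + 1 : ℝ) * (K + 2) * (24 / L * (Real.log p / p)) := by ring
        _ ≤ (K + 2 : ℝ) ^ 2 * (24 / L * (Real.log p / p)) := by
            apply mul_le_mul_of_nonneg_right _ (by positivity)
            nlinarith [(Nat.cast_nonneg K : (0 : ℝ) ≤ K)]
        _ = _ := by ring
    refine (sum_le_sum h1).trans ?_
    rw [← mul_sum]
    have h2 : ∑ p ∈ S, Real.log p / p ≤ L / (24 * (K + 2) ^ 2) := by
      refine le_trans ?_ hM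
      apply sum_le_sum_of_subset_of_nonneg hSP
      intro p _ _
      exact div_nonneg (Real.log_natCast_nonneg p) (Nat.cast_nonneg p)
    calc 24 * (K + 2 : ℝ) ^ 2 / L * ∑ p ∈ S, Real.log p / p ≤
          24 * (K + 2 : ℝ) ^ 2 / L * (L / (24 * (K + 2) ^ 2)) :=
          mul_le_mul_of_nonneg_left h2 (by positivity)
      _ = 1 := by field_simp
  have hpe := pert S (aa K X) (bb K X) w ha hb (fun p _ => hw1 p)
  have hE0 : 0 ≤ EE K X S := zero_le_one.trans (EE_one fun p hp => h p (hSP hp))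
  have hpe' : (∏ p ∈ S, (1 + aa K X p + aa K X p + bb K X p + (aa K X p + bb K X p) * (w p - 1))) ≤
      EE K X S * Real.exp 1 := by
    refine hpe.trans ?_
    exact mul_le_mul_of_nonneg_left (Real.exp_le_exp.2 hexp) hE0
  have s1 : ∑ z ∈ S.powerset ×ˢ S.powerset, (∏ p ∈ z.1, w p) * GG (aa K X) (aa K X) (bb K X) z.1 z.2 ≤
      EE K X S * Real.exp 1 := by
    refine le_trans (le_of_eq ?_) hpe'
    rw [sum_product]
    have e1 := euler (fun p => aa K X p * w p) (aa K X) (fun p => bb K X p * w p) S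
    have e2 : ∏ p ∈ S, (1 + aa K X p + aa K X p + bb K X p + (aa K X p + bb K X p) * (w p - 1)) =
        ∏ p ∈ S, (1 + aa K X p * w p + aa K X p + bb K X p * w p) :=
      prod_congr rfl fun p _ => by ring
    rw [e2, ← e1]
    exact sum_congr rfl fun U _ => sum_congr rfl fun U' _ => (GG_w1 _ _ _ _ _ _).symm
  have s2 : ∑ z ∈ S.powerset ×ˢ S.powerset, (∏ p ∈ z.2, w p) * GG (aa K X) (aa K X) (bb K X) z.1 z.2 ≤
      EE K X S * Real.exp 1 := by
    refine le_trans (le_of_eq ?_) hpe'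
    rw [sum_product]
    have e1 := euler (aa K X) (fun p => aa K X p * w p) (fun p => bb K X p * w p) S
    have e2 : ∏ p ∈ S, (1 + aa K X p + aa K X p + bb K X p + (aa K X p + bb K X p) * (w p - 1)) =
        ∏ p ∈ S, (1 + aa K X p + aa K X p * w p + bb K X p * w p) :=
      prod_congr rfl fun p _ => by ring
    rw [e2, ← e1]
    exact sum_congr rfl fun U _ => sum_congr rfl fun U' _ => (GG_w2 _ _ _ _ _ _).symm
  have s0 : ∑ z ∈ S.powerset ×ˢ S.powerset, GG (aa K X) (aa K X) (bb K X) z.1 z.2 = EE K X S := by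
    unfold EE
    rw [sum_product, euler]
  have hfin : ∑ z ∈ S.powerset ×ˢ S.powerset, 1 / 4 * (1 - Real.exp (-3) * ∏ p ∈ z.1, w p -
      Real.exp (-3) * ∏ p ∈ z.2, w p) * GG (aa K X) (aa K X) (bb K X) z.1 z.2 ≤
      CC P (fun U U' => hh D U * hh D U') (aa K X) (bb K X) V V' := by
    unfold CC
    rw [← hS]
    apply sum_le_sum
    intro z hz
    exact mul_le_mul_of_nonneg_right (hpt z hz) (hG z hz)
  refine le_trans ?_ hfin
  have e1 : ∑ z ∈ S.powerset ×ˢ S.powerset, 1 / 4 * (1 - Real.exp (-3) * ∏ p ∈ z.1, w p -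
      Real.exp (-3) * ∏ p ∈ z.2, w p) * GG (aa K X) (aa K X) (bb K X) z.1 z.2 =
      1 / 4 * (EE K X S - Real.exp (-3) * ∑ z ∈ S.powerset ×ˢ S.powerset,
        (∏ p ∈ z.1, w p) * GG (aa K X) (aa K X) (bb K X) z.1 z.2 -
        Real.exp (-3) * ∑ z ∈ S.powerset ×ˢ S.powerset,
        (∏ p ∈ z.2, w p) * GG (aa K X) (aa K X) (bb K X) z.1 z.2) := by
    rw [← s0, mul_sum, mul_sum, ← sum_sub_distrib, ← sum_sub_distrib, mul_sum]
    apply sum_congr rfl
    intro z _
    ring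
  rw [e1, ← hS]
  have e3 : Real.exp (-3) * (EE K X S * Real.exp 1) ≤ EE K X S / 4 := by
    have e4 : Real.exp (-3) * Real.exp 1 ≤ 1 / 4 := by
      rw [← Real.exp_add]
      have e5 : (-3 + 1 : ℝ) = -2 := by norm_num
      rw [e5, Real.exp_neg]
      have e6 : (4 : ℝ) ≤ Real.exp 2 := by
        have := Real.exp_one_gt_d9
        have e7 : Real.exp 2 = Real.exp 1 * Real.exp 1 := by rw [← Real.exp_add]; norm_num
        rw [e7]
        nlinarith
      rw [inv_eq_one_div]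
      exact one_div_le_one_div_of_le (by norm_num) e6
    calc Real.exp (-3) * (EE K X S * Real.exp 1) = EE K X S * (Real.exp (-3) * Real.exp 1) := by ring
      _ ≤ EE K X S * (1 / 4) := mul_le_mul_of_nonneg_left e4 hE0
      _ = _ := by ring
  have e4 := Real.exp_pos (-3)
  have f1 := mul_le_mul_of_nonneg_left s1 e4.le
  have f2 := mul_le_mul_of_nonneg_left s2 e4.le
  linarith

end

end Pool.Agent.H540.PS
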