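import Pool.Agent.H540.PS.Core

/-! **Power saving for the almost prime values of polynomials at differences.** -/

set_option autoImplicit false

namespace Pool.Agent.H540.PS

open Finset Filter Polynomial

/-- the number of roots modulo a prime -/
theorem roots_le (F : ℤ[X]) (d p : ℕ) (hp : p.Prime) (hd : F.natDegree ≤ d)
    (h : ¬ (p : ℤ) ∣ F.eval 0) : (RR (fun m => (p : ℤ) ∣ F.eval m) p).card ≤ d := by
  have : Fact p.Prime := ⟨hp⟩
  obtain ⟨G, hG⟩ : ∃ G : (ZMod p)[X], G = F.map (Int.castRingHom (ZMod p)) := ⟨_, rfl⟩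
  have hev : ∀ n : ℤ, G.eval (n : ZMod p) = ((F.eval n : ℤ) : ZMod p) := by
    intro n
    rw [hG, eval_intCast_map]
    rfl
  have h2 : G ≠ 0 := by
    intro h3
    have h1 := hev 0
    rw [h3, eval_zero] at h1
    exact h ((ZMod.intCast_zmod_eq_zero_iff_dvd _ _).1 h1.symm)
  have h3 : G.natDegree ≤ d := by
    rw [hG]
    exact natDegree_map_le.trans hd
  refine le_trans ?_ ((card_roots' G).trans h3)
  refine le_trans ?_ (Multiset.toFinset_card_le _)
  apply card_le_card_of_injOn (fun r : ℕ => (r : ZMod p))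
  · intro r hr
    rw [mem_coe, mem_RR] at hr
    rw [mem_coe, Multiset.mem_toFinset, mem_roots h2]
    have h4 := hev r
    rw [(ZMod.intCast_zmod_eq_zero_iff_dvd _ _).2 hr.2] at h4
    simpa using h4
  · intro r hr r' hr' h4
    rw [mem_coe, mem_RR] at hr hr'
    simp only at h4
    have h5 := (ZMod.natCast_eq_natCast_iff r r' p).1 h4
    exact Nat.ModEq.eq_of_lt_of_lt h5 hr.1 hr'.1

theorem pow_length_le (y : ℝ) (hy : 0 ≤ y) (l : List ℕ) (h : ∀ p ∈ l, y ≤ (p : ℝ)) :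
    y ^ l.length ≤ (l.prod : ℝ) := by
  induction l with
  | nil => simp
  | cons a l ih =>
    rw [List.length_cons, List.prod_cons, pow_succ', Nat.cast_mul]
    exact mul_le_mul (h a (List.mem_cons_self)) (ih fun p hp => h p (List.mem_cons_of_mem a hp))
      (by positivity) (Nat.cast_nonneg _)

theorem eval_bound (F : ℤ[X]) (d N m : ℕ) (Hh : ℝ) (hd : F.natDegree ≤ d) (hN : 1 ≤ N) (hm : m ≤ N)
    (hH : ∀ i, |(F.coeff i : ℝ)| ≤ (N : ℝ) ^ Hh) :
    ((F.eval (m : ℤ)).natAbs : ℝ) ≤ (d + 1) * ((N : ℝ) ^ Hh * (N : ℝ) ^ d) := by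
  have hN1 : (1 : ℝ) ≤ N := by exact_mod_cast hN
  have hmr : (m : ℝ) ≤ N := by exact_mod_cast hm
  rw [Nat.cast_natAbs, Int.cast_abs, eval_eq_sum_range' (Nat.lt_succ_of_le hd)]
  push_cast
  refine (abs_sum_le_sum_abs _ _).trans ?_
  have h1 : ∀ i ∈ range (d + 1), |(F.coeff i : ℝ) * (m : ℝ) ^ i| ≤ (N : ℝ) ^ Hh * (N : ℝ) ^ d := by
    intro i hi
    rw [mem_range] at hi
    rw [abs_mul, abs_of_nonneg (show (0 : ℝ) ≤ (m : ℝ) ^ i by positivity)]
    apply mul_le_mul (hH i) _ (by positivity) (by positivity)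
    exact (pow_le_pow_left₀ (Nat.cast_nonneg _) hmr i).trans (pow_le_pow_right₀ hN1 (by omega))
  refine (sum_le_sum h1).trans (le_of_eq ?_)
  rw [sum_const, card_range, nsmul_eq_mul]
  push_cast
  ring

/-- `n` is a product of at most `R` primes, all at least `y` -/
def AP (R : ℕ) (y : ℝ) (n : ℕ) : Prop :=
  0 < n ∧ n.primeFactorsList.length ≤ R ∧ ∀ p : ℕ, p.Prime → p ∣ n → y ≤ (p : ℝ)

/-- an integer in a residue class of many elements -/
theorem exists_cls (A : Finset ℤ) (M : ℕ) (hM : 0 < M) :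
    ∃ r : ℤ, A.card ≤ M * (A.filter (fun a => a % (M : ℤ) = r)).card := by
  classical
  have hMz : (0 : ℤ) < M := by exact_mod_cast hM
  obtain ⟨I, hI⟩ : ∃ I : Finset ℤ, I = (range M).image (fun n : ℕ => (n : ℤ)) := ⟨_, rfl⟩
  have hIc : I.card ≤ M := by
    rw [hI]
    exact card_image_le.trans (le_of_eq (card_range M))
  have h1 : A.card = ∑ r ∈ I, (A.filter (fun a => a % (M : ℤ) = r)).card := by
    apply card_eq_sum_card_fiberwise
    intro a _
    rw [hI, mem_coe, mem_image]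
    refine ⟨(a % (M : ℤ)).toNat, ?_, Int.toNat_of_nonneg (Int.emod_nonneg _ hMz.ne')⟩
    rw [mem_range]
    have h2 := Int.emod_lt_of_pos a hMz
    have h3 := Int.emod_nonneg a hMz.ne'
    omega
  by_contra hcon
  push Not at hcon
  have hIne : I.Nonempty := by
    rw [hI]
    exact ⟨0, mem_image.2 ⟨0, mem_range.2 hM, by simp⟩⟩
  have h2 : ∑ r ∈ I, M * (A.filter (fun a => a % (M : ℤ) = r)).card < ∑ _r ∈ I, A.card :=
    sum_lt_sum_of_nonempty hIne (fun r _ => hcon r)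
  rw [← mul_sum, ← h1, sum_const, smul_eq_mul] at h2
  have h3 := Nat.mul_le_mul_right A.card hIc
  omega

open Classical in
/-- **Values of polynomials at the differences of sets of size `N ^ (1 - c)`.** -/
theorem genP (d : ℕ) (Hh κ δ : ℝ) (hH0 : 0 ≤ Hh) (hκ : 0 < κ) (hδ : 0 < δ) :
    ∃ (c : ℝ) (R N0 : ℕ), 0 < c ∧ c ≤ δ ∧ ∀ N : ℕ, N0 ≤ N → ∀ (F : ℤ[X]) (u : ℕ) (A : Finset ℤ),
      F.natDegree ≤ d → (∀ i, |(F.coeff i : ℝ)| ≤ (N : ℝ) ^ Hh) → F.eval 0 ≠ 0 →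
      (u : ℤ) ∣ F.eval 0 → (u : ℝ) ≤ (N : ℝ) ^ c →
      (∀ p : ℕ, p.Prime → (p : ℤ) ∣ F.eval 0 / u → (N : ℝ) ^ κ ≤ p) →
      (∀ a ∈ A, 1 ≤ a ∧ a ≤ N) → (N : ℝ) ^ (1 - c) ≤ A.card →
      (N : ℝ) ^ (2 - δ) ≤ (((A ×ˢ A).filter (fun z : ℤ × ℤ => z.2 < z.1 ∧
        ∃ n : ℕ, (F.eval (z.1 - z.2)).natAbs = u * n ∧ AP R ((N : ℝ) ^ c) n)).card : ℝ) := by
  obtain ⟨δ1, hδ1⟩ : ∃ δ1 : ℝ, δ1 = min (min δ 1) (min (κ / 2) 1) := ⟨_, rfl⟩
  have hδ10 : 0 < δ1 := by
    rw [hδ1]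
    exact lt_min (lt_min hδ one_pos) (lt_min (by linarith) one_pos)
  have hδ1a : δ1 ≤ δ := by rw [hδ1]; exact (min_le_left _ _).trans (min_le_left _ _)
  have hδ1b : δ1 ≤ 1 := by rw [hδ1]; exact (min_le_left _ _).trans (min_le_right _ _)
  have hδ1c : δ1 ≤ κ / 2 := by rw [hδ1]; exact (min_le_right _ _).trans (min_le_left _ _)
  obtain ⟨c1, N1, hc1, hc1δ, H1⟩ := core d δ1 hδ10 hδ1b
  obtain ⟨c, hc⟩ : ∃ c, c = c1 / 8 := ⟨_, rfl⟩
  have hc0 : 0 < c := by rw [hc]; linarith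
  obtain ⟨R, hR⟩ : ∃ R : ℕ, (Hh + d + 1) / c < (R : ℝ) := exists_nat_gt _
  have ev1 : ∀ᶠ N : ℕ in atTop, ((d : ℝ) + 1) ≤ (N : ℝ) ^ (1 : ℝ) :=
    (tpow one_pos).eventually_ge_atTop _
  have ev2 : ∀ᶠ N : ℕ in atTop, (2 : ℝ) ≤ (N : ℝ) ^ c := (tpow hc0).eventually_ge_atTop _
  obtain ⟨N2, hN2⟩ := eventually_atTop.1 (ev1.and ev2)
  refine ⟨c, R, max (max N1 N2) 3, hc0, by linarith, ?_⟩
  intro N hN F u A hFd hFH hF0 hu huN hv hA hAc
  have hNN1 : N1 ≤ N := ((le_max_left _ _).trans (le_max_left _ _)).trans hN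
  obtain ⟨e1, e2⟩ := hN2 N (((le_max_right _ _).trans (le_max_left _ _)).trans hN)
  have hN3 : 3 ≤ N := (le_max_right _ _).trans hN
  have hNr : (3 : ℝ) ≤ N := by exact_mod_cast hN3
  have hN0 : (0 : ℝ) < N := by linarith
  have hN1' : (1 : ℝ) ≤ N := by linarith
  have hu0 : 0 < u := by
    rcases Nat.eq_zero_or_pos u with h | h
    · rw [h, Nat.cast_zero, zero_dvd_iff] at hu
      exact absurd hu hF0
    · exact h
  have hur : (0 : ℝ) < u := by exact_mod_cast hu0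
  have huz : (u : ℤ) ≠ 0 := by exact_mod_cast hu0.ne'
  obtain ⟨v, hv'⟩ := hu
  have hvu : F.eval 0 / u = v := by rw [hv']; exact Int.mul_ediv_cancel_left v huz
  rw [hvu] at hv
  -- the residue class
  obtain ⟨r, hr⟩ := exists_cls A (u * u) (by positivity)
  obtain ⟨B, hB⟩ : ∃ B, B = A.filter (fun a => a % ((u * u : ℕ) : ℤ) = r) := ⟨_, rfl⟩
  rw [← hB] at hr
  have hBA : B ⊆ A := by rw [hB]; exact filter_subset _ _
  have hBc : (N : ℝ) ^ (1 - c1) ≤ B.card := by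
    have h1 : (A.card : ℝ) ≤ (u * u) * B.card := by exact_mod_cast hr
    have h2 : (u : ℝ) * u ≤ (N : ℝ) ^ (2 * c) := by
      calc (u : ℝ) * u ≤ (N : ℝ) ^ c * (N : ℝ) ^ c := mul_le_mul huN huN hur.le (by positivity)
        _ = _ := by
            rw [← Real.rpow_add hN0]
            congr 1
            ring
    have h3 : (N : ℝ) ^ (1 - c) ≤ (N : ℝ) ^ (2 * c) * B.card :=
      (hAc.trans h1).trans (mul_le_mul_of_nonneg_right h2 (Nat.cast_nonneg _))
    have h4 : (N : ℝ) ^ (2 * c) * (N : ℝ) ^ (1 - c1) ≤ (N : ℝ) ^ (2 * c) * B.card := by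
      refine le_trans ?_ h3
      rw [← Real.rpow_add hN0]
      apply Real.rpow_le_rpow_of_exponent_le hN1'
      linarith
    exact le_of_mul_le_mul_left h4 (by positivity)
  obtain ⟨X, hX⟩ : ∃ X : ℕ → ℤ → Prop, X = fun p m => ¬ p ∣ u ∧ (p : ℤ) ∣ F.eval m := ⟨_, rfl⟩
  have hcκ : c1 < κ := by linarith
  have hmain := H1 N hNN1 X B (by
    intro p hp hpN
    refine ⟨?_, ?_, ?_⟩
    · intro m m' h
      rw [hX]
      simp only
      have h1 : (p : ℤ) ∣ F.eval m ↔ (p : ℤ) ∣ F.eval m' := by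
        have h2 : (p : ℤ) ∣ F.eval m - F.eval m' := h.trans (sub_dvd_eval_sub m m' F)
        constructor
        · intro h3
          exact (Int.dvd_iff_dvd_of_dvd_sub h2).1 h3
        · intro h3
          exact (Int.dvd_iff_dvd_of_dvd_sub h2).2 h3
      rw [h1]
    · rw [hX]
      simp only
      rintro ⟨h1, h2⟩
      rw [hv'] at h2
      have h3 : (p : ℤ) ∣ v := by
        rcases (Nat.prime_iff_prime_int.1 hp).dvd_mul.1 h2 with h3 | h3
        · exact absurd (by exact_mod_cast h3) h1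
        · exact h3
      have h4 := hv p hp h3
      have h5 : (N : ℝ) ^ c1 < (N : ℝ) ^ κ := Real.rpow_lt_rpow_of_exponent_lt (by linarith) hcκ
      linarith
    · rw [hX]
      by_cases h1 : p ∣ u
      · have h2 : RR (fun m => ¬ p ∣ u ∧ (p : ℤ) ∣ F.eval m) p = ∅ := by
          rw [eq_empty_iff_forall_notMem]
          intro r hr
          rw [mem_RR] at hr
          exact hr.2.1 h1
        simp only
        rw [h2, card_empty]
        exact Nat.zero_le _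
      · have h0 : ¬ (p : ℤ) ∣ F.eval 0 := by
          intro h2
          rw [hv'] at h2
          have h3 : (p : ℤ) ∣ v := by
            rcases (Nat.prime_iff_prime_int.1 hp).dvd_mul.1 h2 with h3 | h3
            · exact absurd (by exact_mod_cast h3) h1
            · exact h3
          have h4 := hv p hp h3
          have h5 : (N : ℝ) ^ c1 < (N : ℝ) ^ κ := Real.rpow_lt_rpow_of_exponent_lt (by linarith) hcκ
          linarith
        refine le_trans (card_le_card ?_) (roots_le F d p hp hFd h0)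
        intro r hr
        rw [mem_RR] at hr ⊢
        exact ⟨hr.1, hr.2.2⟩) (fun a ha => hA a (hBA ha)) hBc
  refine le_trans (Real.rpow_le_rpow_of_exponent_le hN1' (by linarith)) (hmain.trans ?_)
  apply Nat.cast_le.2
  apply card_le_card
  rintro ⟨a, b⟩ hz
  rw [mem_filter, mem_product] at hz ⊢
  obtain ⟨⟨ha, hb⟩, hlt, hfree⟩ := hz
  simp only at ha hb hlt hfree ⊢
  refine ⟨⟨hBA ha, hBA hb⟩, hlt, ?_⟩
  -- the congruence
  have hcong : ((u : ℤ) * u) ∣ a - b := by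
    rw [hB, mem_filter] at ha hb
    have h1 : b ≡ a [ZMOD ((u * u : ℕ) : ℤ)] := by
      show b % ((u * u : ℕ) : ℤ) = a % ((u * u : ℕ) : ℤ)
      rw [ha.2, hb.2]
    have h2 := h1.dvd
    push_cast at h2
    exact h2
  have hFc : ((u : ℤ) * u) ∣ F.eval (a - b) - F.eval 0 := by
    have h1 := sub_dvd_eval_sub (a - b) 0 F
    rw [sub_zero] at h1
    exact hcong.trans h1
  obtain ⟨w, hw⟩ := hFc
  have hFe : F.eval (a - b) = u * (v + u * w) := by
    have : F.eval (a - b) = u * u * w + F.eval 0 := by linarith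
    rw [this, hv']
    ring
  obtain ⟨n, hn⟩ : ∃ n : ℕ, n = (v + u * w).natAbs := ⟨_, rfl⟩
  have hFn : (F.eval (a - b)).natAbs = u * n := by
    rw [hFe, Int.natAbs_mul, Int.natAbs_natCast, ← hn]
  have hpn : ∀ p : ℕ, p.Prime → p ∣ n → (N : ℝ) ^ c1 < p := by
    intro p hp hpn
    by_contra hcon
    push Not at hcon
    have hpz : (p : ℤ) ∣ v + u * w := by
      rw [hn] at hpn
      exact Int.natCast_dvd.2 hpn
    by_cases h1 : p ∣ u
    · have h2 : (p : ℤ) ∣ v := by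
        have h3 : (p : ℤ) ∣ u * w := Dvd.dvd.mul_right (by exact_mod_cast h1) w
        exact (Int.dvd_add_left h3).1 hpz
      have h4 := hv p hp h2
      have h5 : (N : ℝ) ^ c1 < (N : ℝ) ^ κ := Real.rpow_lt_rpow_of_exponent_lt (by linarith) hcκ
      linarith
    · apply hfree p hp hcon
      rw [hX]
      refine ⟨h1, ?_⟩
      rw [hFe]
      exact Dvd.dvd.mul_left hpz _
  have hcc : (N : ℝ) ^ c ≤ (N : ℝ) ^ c1 := Real.rpow_le_rpow_of_exponent_le hN1' (by linarith)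
  have hn0 : n ≠ 0 := by
    rintro rfl
    have h1 := hpn 2 Nat.prime_two (dvd_zero 2)
    push_cast at h1
    linarith
  refine ⟨n, hFn, Nat.pos_of_ne_zero hn0, ?_, fun p hp hpd => hcc.trans (hpn p hp hpd).le⟩
  by_contra hcon
  push Not at hcon
  obtain ⟨m, hm⟩ : ∃ m : ℕ, (m : ℤ) = a - b := ⟨(a - b).toNat, Int.toNat_of_nonneg (by linarith)⟩
  have hmN : m ≤ N := by
    have h1 := (hA a (hBA ha)).2
    have h2 := (hA b (hBA hb)).1
    omega
  have hEb := eval_bound F d N m Hh hFd (by omega) hmN hFH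
  rw [hm, hFn] at hEb
  have h1 : (n : ℝ) ≤ (N : ℝ) ^ (Hh + d + 1) := by
    have e3 : (n : ℝ) ≤ ((u * n : ℕ) : ℝ) := by exact_mod_cast Nat.le_mul_of_pos_left n hu0
    refine e3.trans (hEb.trans ?_)
    calc ((d : ℝ) + 1) * ((N : ℝ) ^ Hh * (N : ℝ) ^ d) ≤ (N : ℝ) ^ (1 : ℝ) * ((N : ℝ) ^ Hh * (N : ℝ) ^ d) :=
          mul_le_mul_of_nonneg_right e1 (by positivity)
      _ = (N : ℝ) ^ (Hh + d + 1) := by
          rw [← Real.rpow_natCast, ← Real.rpow_add hN0, ← Real.rpow_add hN0]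
          congr 1
          ring
  have h2 := pow_length_le ((N : ℝ) ^ c) (by positivity) n.primeFactorsList (fun p hp =>
    hcc.trans (hpn p (Nat.prime_of_mem_primeFactorsList hp) (Nat.dvd_of_mem_primeFactorsList hp)).le)
  rw [Nat.prod_primeFactorsList hn0] at h2
  have h3 : ((N : ℝ) ^ c) ^ (R : ℕ) ≤ ((N : ℝ) ^ c) ^ n.primeFactorsList.length :=
    pow_le_pow_right₀ (by linarith) hcon.le
  have h4 : (N : ℝ) ^ (Hh + d + 1) < ((N : ℝ) ^ c) ^ (R : ℕ) := by
    rw [← Real.rpow_natCast, ← Real.rpow_mul hN0.le]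
    apply Real.rpow_lt_rpow_of_exponent_lt (by linarith)
    rw [div_lt_iff₀ hc0] at hR
    linarith
  linarith

end Pool.Agent.H540.PS
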