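import Pool.Agent.H540.PS.Loc

/-! Ramanujan sums and the large sieve. -/

set_option autoImplicit false

namespace Pool.Agent.H540.PS

open Finset
open H343 (ex)
open Pool.Agent.H540.DS (S En En_nonneg)

/-- the function `n` if `n ∣ b`, and zero otherwise -/
def FF (b : ℤ) : ArithmeticFunction ℤ := ⟨fun n => if n = 0 then 0 else if (n : ℤ) ∣ b then n else 0, by simp⟩

theorem FF_apply (b : ℤ) (n : ℕ) (hn : n ≠ 0) : FF b n = if (n : ℤ) ∣ b then (n : ℤ) else 0 := by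
  show (if n = 0 then 0 else if (n : ℤ) ∣ b then (n : ℤ) else 0) = _
  rw [if_neg hn]

theorem FF_mul (b : ℤ) : (FF b).IsMultiplicative := by
  rw [ArithmeticFunction.IsMultiplicative.iff_ne_zero]
  refine ⟨?_, ?_⟩
  · rw [FF_apply b 1 one_ne_zero]
    simp
  · intro m n hm hn hc
    rw [FF_apply b _ (mul_ne_zero hm hn), FF_apply b m hm, FF_apply b n hn]
    have h : ((m * n : ℕ) : ℤ) ∣ b ↔ (m : ℤ) ∣ b ∧ (n : ℤ) ∣ b := by
      push_cast
      constructor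
      · intro h
        exact ⟨(Dvd.intro _ rfl).trans h, (Dvd.intro_left _ rfl).trans h⟩
      · rintro ⟨h1, h2⟩
        exact (Nat.isCoprime_iff_coprime.2 hc).mul_dvd h1 h2
    by_cases h1 : (m : ℤ) ∣ b
    · by_cases h2 : (n : ℤ) ∣ b
      · rw [if_pos h1, if_pos h2, if_pos (h.2 ⟨h1, h2⟩)]
        push_cast
        rfl
      · rw [if_neg h2, if_neg (fun h3 => h2 (h.1 h3).2), mul_zero]
    · rw [if_neg h1, if_neg (fun h3 => h1 (h.1 h3).1), zero_mul]

theorem conv_apply (b : ℤ) (k : ℕ) : (ArithmeticFunction.moebius * FF b) k =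
    ∑ d ∈ k.divisors, (ArithmeticFunction.moebius d : ℤ) * FF b (k / d) := by
  rw [ArithmeticFunction.mul_apply]
  exact Nat.sum_divisorsAntidiagonal (fun x y => (ArithmeticFunction.moebius x : ℤ) * FF b y)

theorem conv_prime (b : ℤ) (p : ℕ) (hp : p.Prime) : (ArithmeticFunction.moebius * FF b) p =
    (if (p : ℤ) ∣ b then (p : ℤ) else 0) - 1 := by
  rw [conv_apply, Nat.Prime.sum_divisors hp, Nat.div_self hp.pos, Nat.div_one,
    ArithmeticFunction.moebius_apply_prime hp, ArithmeticFunction.moebius_apply_one,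
    FF_apply b 1 one_ne_zero, FF_apply b p hp.ne_zero]
  simp
  ring

/-- **Ramanujan sums of products of primes** -/
theorem raman_prod (Q : Finset ℕ) (hQ : ∀ p ∈ Q, p.Prime) (b : ℤ) :
    ∑ n ∈ (range (∏ p ∈ Q, p)).filter (fun n => n.Coprime (∏ p ∈ Q, p)),
      ex ((n : ℝ) * b / (∏ p ∈ Q, p : ℕ)) = (((∏ p ∈ Q, p : ℕ) * ∏ p ∈ Q, vv p b : ℝ) : ℂ) := by
  have hk : 1 ≤ ∏ p ∈ Q, p := prod_pos fun p hp => (hQ p hp).pos
  have h1 := H336V.RamanAux.raman_eq (∏ p ∈ Q, p) hk b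
  have h2 : ∑ d ∈ (∏ p ∈ Q, p).divisors, ((ArithmeticFunction.moebius d : ℤ) : ℂ) *
        (if (((∏ p ∈ Q, p) / d : ℕ) : ℤ) ∣ b then (((∏ p ∈ Q, p) / d : ℕ) : ℂ) else 0) =
      (((ArithmeticFunction.moebius * FF b) (∏ p ∈ Q, p) : ℤ) : ℂ) := by
    rw [conv_apply, Int.cast_sum]
    apply sum_congr rfl
    intro d hd
    have hd0 : (∏ p ∈ Q, p) / d ≠ 0 := by
      have := Nat.div_pos (Nat.divisor_le hd) (Nat.pos_of_mem_divisors hd)
      omega
    rw [FF_apply b _ hd0, Int.cast_mul]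
    generalize (∏ p ∈ Q, p) / d = k
    congr 1
    split_ifs
    · rw [Int.cast_natCast]
    · rw [Int.cast_zero]
  rw [h1, h2, (ArithmeticFunction.isMultiplicative_moebius.mul (FF_mul b)).map_prod (fun p => p) Q (by
    intro p hp q hq hne
    exact (Nat.coprime_primes (hQ p hp) (hQ q hq)).2 hne)]
  have h3 : (((∏ p ∈ Q, p : ℕ) : ℝ) * ∏ p ∈ Q, vv p b) = ((∏ p ∈ Q, (ArithmeticFunction.moebius * FF b) p : ℤ) : ℝ) := by
    push_cast
    rw [← prod_mul_distrib]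
    apply prod_congr rfl
    intro p hp
    rw [conv_prime b p (hQ p hp)]
    unfold vv uu
    have hp0 : (p : ℝ) ≠ 0 := by exact_mod_cast (hQ p hp).ne_zero
    split_ifs
    · push_cast
      field_simp
    · push_cast
      field_simp
      ring
  rw [h3]
  push_cast
  rfl

theorem pf_vv (A : Finset ℤ) (Q : Finset ℕ) (hQ : ∀ p ∈ Q, p.Prime) :
    ((∏ p ∈ Q, p : ℕ) : ℝ) * pf A (fun m => ∏ p ∈ Q, vv p m) = En A (∏ p ∈ Q, p) := by
  have hk : 0 < ∏ p ∈ Q, p := prod_pos fun p hp => (hQ p hp).pos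
  rw [← pf_smul]
  have h1 : ((pf A (fun m => ((∏ p ∈ Q, p : ℕ) : ℝ) * ∏ p ∈ Q, vv p m) : ℝ) : ℂ) =
      ((En A (∏ p ∈ Q, p) : ℝ) : ℂ) := by
    unfold pf En
    push_cast
    have h2 : ∀ a ∈ A, ∀ b ∈ A, (∏ p ∈ Q, (p : ℂ)) * ∏ p ∈ Q, ((vv p (a - b) : ℝ) : ℂ) =
        ∑ n ∈ (range (∏ p ∈ Q, p)).filter (fun n => n.Coprime (∏ p ∈ Q, p)),
          ex ((n : ℝ) * (a - b : ℤ) / (∏ p ∈ Q, p : ℕ)) := by
      intro a _ b _
      rw [raman_prod Q hQ (a - b)]
      push_cast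
      rfl
    rw [sum_congr rfl (fun a ha => sum_congr rfl (fun b hb => h2 a ha b hb))]
    have h3 : ∀ n : ℕ, ((‖S A (∏ p ∈ Q, p) n‖ : ℝ) : ℂ) ^ 2 = ∑ a ∈ A, ∑ b ∈ A,
        ex ((n : ℝ) * (a - b : ℤ) / (∏ p ∈ Q, p : ℕ)) := by
      intro n
      rw [← Complex.ofReal_pow, ← Complex.normSq_eq_norm_sq, ← Complex.mul_conj]
      unfold S
      rw [map_sum, sum_mul_sum]
      apply sum_congr rfl
      intro a _
      apply sum_congr rfl
      intro b _
      rw [Pool.Agent.Y882.PX.ex_conj, ← H343.Gauss.ex_add]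
      congr 1
      push_cast
      ring
    rw [sum_congr rfl (fun n _ => h3 n)]
    generalize (range (∏ p ∈ Q, p)).filter (fun n => n.Coprime (∏ p ∈ Q, p)) = W
    rw [sum_comm (s := W)]
    apply sum_congr rfl
    intro a _
    exact sum_comm
  exact_mod_cast h1

theorem prod_inj (P : Finset ℕ) (hP : ∀ p ∈ P, p.Prime) :
    Set.InjOn (fun Q : Finset ℕ => ∏ p ∈ Q, p) (P.powerset : Set (Finset ℕ)) := by
  intro Q hQ Q' hQ' h
  rw [coe_powerset, Set.mem_preimage, Set.mem_powerset_iff] at hQ hQ'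
  have h1 : ∀ R : Finset ℕ, (R : Set ℕ) ⊆ P → (∏ p ∈ R, p).primeFactors = R := by
    intro R hR
    exact Nat.primeFactors_prod (fun p hp => hP p (hR hp))
  have h2 : (∏ p ∈ Q, p).primeFactors = (∏ p ∈ Q', p).primeFactors := by
    simp only at h
    rw [h]
  rw [h1 Q hQ, h1 Q' hQ'] at h2
  exact h2

/-- **the large sieve** for products of primes -/
theorem LS_prod (A : Finset ℤ) (N : ℕ) (hA : ∀ a ∈ A, 1 ≤ a ∧ a ≤ N) (P : Finset ℕ)
    (hP : ∀ p ∈ P, p.Prime) (t : ℕ) :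
    ∑ Q ∈ P.powerset.filter (fun Q => ∏ p ∈ Q, p ≤ t), En A (∏ p ∈ Q, p) ≤
      6 * (N + (t : ℝ) ^ 2) * A.card := by
  classical
  have h1 := Pool.Agent.H540.DS.LS_class A N 1 one_pos 0 (by
    intro a ha
    obtain ⟨h1, h2⟩ := hA a ha
    refine ⟨a.toNat, by omega, by omega, ?_⟩
    push_cast
    omega) t
  refine le_trans ?_ h1
  rw [← sum_image (f := fun n => En A n) (g := fun Q : Finset ℕ => ∏ p ∈ Q, p)]
  · apply sum_le_sum_of_subset_of_nonneg
    · intro n hn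
      rw [mem_image] at hn
      obtain ⟨Q, hQ, rfl⟩ := hn
      rw [mem_filter, mem_powerset] at hQ
      rw [mem_filter, mem_Icc]
      exact ⟨⟨prod_pos fun p hp => (hP p (hQ.1 hp)).pos, hQ.2⟩, Nat.coprime_one_right _⟩
    · intro n _ _
      exact En_nonneg _ _
  · intro Q hQ Q' hQ' h
    rw [coe_filter, Set.mem_setOf_eq] at hQ hQ'
    exact prod_inj P hP (by simpa using hQ.1) (by simpa using hQ'.1) h

end Pool.Agent.H540.PS
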