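import Pool.Agent.H540.PS.Base

/-! Tools for the applications. -/

set_option autoImplicit false

namespace Pool.Agent.H540.PS

open Finset Filter

/-- base points in the intervals `(M, M + n ^ ε]` -/
theorem base_eps (k : ℕ) (ε : ℝ) (hε : 0 < ε) : ∃ (κ : ℝ) (n0 : ℕ), 0 < κ ∧ ∀ n : ℕ, n0 ≤ n →
    ∀ (Q : ℕ → ℤ → Prop) (M : ℤ),
      (∀ p : ℕ, p.Prime → (∀ m m' : ℤ, (p : ℤ) ∣ m - m' → (Q p m ↔ Q p m')) ∧ (∃ r, ¬ Q p r) ∧
        (RR (Q p) p).card ≤ k) →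
      ∃ t : ℤ, M < t ∧ (t : ℝ) ≤ M + (n : ℝ) ^ ε ∧ ∀ p : ℕ, p.Prime → Q p t → (n : ℝ) ^ κ ≤ p := by
  obtain ⟨κ0, T0, hκ0, hκ1, H⟩ := base k
  have ev1 : ∀ᶠ n : ℕ in atTop, (T0 : ℝ) + 1 ≤ (n : ℝ) ^ ε := (tpow hε).eventually_ge_atTop _
  have ev2 : ∀ᶠ n : ℕ in atTop, (2 : ℝ) ≤ (n : ℝ) ^ (ε / 2) := (tpow (by linarith)).eventually_ge_atTop _
  obtain ⟨n1, hn1⟩ := eventually_atTop.1 (ev1.and ev2)
  refine ⟨ε / 2 * κ0, max n1 1, by positivity, ?_⟩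
  intro n hn Q M hQ
  obtain ⟨e1, e2⟩ := hn1 n ((le_max_left _ _).trans hn)
  have hn1' : 1 ≤ n := (le_max_right _ _).trans hn
  have hnr : (1 : ℝ) ≤ n := by exact_mod_cast hn1'
  have hn0 : (0 : ℝ) < n := by linarith
  obtain ⟨T, hT⟩ : ∃ T : ℕ, T = ⌊(n : ℝ) ^ ε⌋₊ := ⟨_, rfl⟩
  have hTle : (T : ℝ) ≤ (n : ℝ) ^ ε := by rw [hT]; exact Nat.floor_le (by positivity)
  have hTlt : (n : ℝ) ^ ε < T + 1 := by rw [hT]; exact Nat.lt_floor_add_one _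
  have hT0 : T0 ≤ T := by
    have : (T0 : ℝ) < (T + 1 : ℕ) := by push_cast; linarith
    have : T0 < T + 1 := by exact_mod_cast this
    omega
  obtain ⟨t, h1, h2, h3⟩ := H T hT0 Q M hQ
  refine ⟨t, h1, ?_, ?_⟩
  · have : (t : ℝ) ≤ M + T := by exact_mod_cast h2
    linarith
  · intro p hp hq
    by_contra hcon
    push Not at hcon
    apply h3 p hp _ hq
    refine hcon.le.trans ?_
    rw [Real.rpow_mul hn0.le]
    apply Real.rpow_le_rpow (by positivity) _ hκ0.le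
    have h4 : (n : ℝ) ^ ε = (n : ℝ) ^ (ε / 2) * (n : ℝ) ^ (ε / 2) := by
      rw [← Real.rpow_add hn0]
      congr 1
      ring
    nlinarith

theorem npow_rpow (n g : ℕ) (x : ℝ) : (((n ^ g : ℕ)) : ℝ) ^ x = (n : ℝ) ^ (g * x) := by
  push_cast
  rw [← Real.rpow_natCast, ← Real.rpow_mul (Nat.cast_nonneg _)]

/-- the number of roots of a product of linear forms -/
theorem RR_or (X Y : ℤ → Prop) (p a b : ℕ) (h1 : (RR X p).card ≤ a) (h2 : (RR Y p).card ≤ b) :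
    (RR (fun m => X m ∨ Y m) p).card ≤ a + b := by
  classical
  refine le_trans (card_le_card (t := RR X p ∪ RR Y p) ?_) ((card_union_le _ _).trans (by omega))
  intro r hr
  rw [mem_RR] at hr
  rw [mem_union, mem_RR, mem_RR]
  rcases hr with ⟨h3, h4 | h4⟩
  · exact Or.inl ⟨h3, h4⟩
  · exact Or.inr ⟨h3, h4⟩

/-- the number of roots of a linear form which is primitive modulo `p` -/
theorem RR_lin (α β : ℤ) (p : ℕ) (hp : p.Prime) (h : ¬ ((p : ℤ) ∣ α ∧ (p : ℤ) ∣ β)) :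
    (RR (fun m => (p : ℤ) ∣ α * m + β) p).card ≤ 1 := by
  rw [card_le_one]
  intro r hr r' hr'
  rw [mem_RR] at hr hr'
  have h1 : (p : ℤ) ∣ α * ((r : ℤ) - r') := by
    have := dvd_sub hr.2 hr'.2
    have e : α * (r : ℤ) + β - (α * r' + β) = α * ((r : ℤ) - r') := by ring
    rwa [e] at this
  rcases (Nat.prime_iff_prime_int.1 hp).dvd_mul.1 h1 with h2 | h2
  · exfalso
    apply h
    exact ⟨h2, (Int.dvd_add_right (Dvd.dvd.mul_right h2 _)).1 hr.2⟩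
  · have h3 : (r' : ℤ) ≡ r [ZMOD p] := Int.modEq_iff_dvd.2 h2
    have h4 : r' ≡ r [MOD p] := (Int.natCast_modEq_iff).1 h3
    exact (Nat.ModEq.eq_of_lt_of_lt h4 hr'.1 hr.1).symm

end Pool.Agent.H540.PS

namespace Pool.Agent.H540.PS

open Finset Filter

open Classical in
/-- from integers to natural numbers -/
theorem count_nat (A : Finset ℕ) (P : ℕ → Prop) (Q : ℤ → Prop) (h : ∀ m : ℕ, Q m → P m) :
    ((((A.image (fun n : ℕ => (n : ℤ))) ×ˢ (A.image (fun n : ℕ => (n : ℤ)))).filter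
      (fun z : ℤ × ℤ => z.2 < z.1 ∧ Q (z.1 - z.2))).card : ℝ) ≤
      ((A ×ˢ A).filter (fun z : ℕ × ℕ => z.2 < z.1 ∧ P (z.1 - z.2))).card := by
  apply Nat.cast_le.2
  apply card_le_card_of_injOn (fun z : ℤ × ℤ => (z.1.toNat, z.2.toNat))
  · rintro ⟨a, b⟩ hz
    rw [mem_coe, mem_filter, mem_product, mem_image, mem_image] at hz
    simp only at hz
    obtain ⟨⟨⟨a', ha', rfl⟩, ⟨b', hb', rfl⟩⟩, hlt, hQ⟩ := hz
    rw [mem_coe, mem_filter, mem_product]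
    simp only [Int.toNat_natCast]
    have hlt' : b' < a' := by exact_mod_cast hlt
    refine ⟨⟨ha', hb'⟩, hlt', h _ ?_⟩
    rw [Nat.cast_sub hlt'.le]
    exact hQ
  · rintro ⟨a, b⟩ hz ⟨a2, b2⟩ hz2 he
    rw [mem_coe, mem_filter, mem_product, mem_image, mem_image] at hz hz2
    simp only at hz hz2 he
    obtain ⟨⟨⟨a', ha', rfl⟩, ⟨b', hb', rfl⟩⟩, _, _⟩ := hz
    obtain ⟨⟨⟨a2', ha2', rfl⟩, ⟨b2', hb2', rfl⟩⟩, _, _⟩ := hz2
    simp only [Int.toNat_natCast, Prod.mk.injEq] at he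
    rw [he.1, he.2]

theorem card_cast (A : Finset ℕ) : (A.image (fun n : ℕ => (n : ℤ))).card = A.card :=
  card_image_of_injective A Nat.cast_injective

theorem mem_cast (A : Finset ℕ) (N : ℕ) (h : ∀ a ∈ A, 1 ≤ a ∧ a ≤ N) :
    ∀ a ∈ A.image (fun n : ℕ => (n : ℤ)), 1 ≤ a ∧ a ≤ N := by
  intro a ha
  rw [mem_image] at ha
  obtain ⟨a', ha', rfl⟩ := ha
  obtain ⟨h1, h2⟩ := h a' ha'
  exact ⟨by exact_mod_cast h1, by exact_mod_cast h2⟩

end Pool.Agent.H540.PS
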