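import Pool.Agent.H540.PS.Poly
import Pool.Graph.R_seed8.H373R2.T7.Fund

/-! **Simultaneous almost prime values of several functions at the differences of a set**, and
base points in short intervals. -/

set_option autoImplicit false

namespace Pool.Agent.H540.PS

open Finset Filter Polynomial

theorem AP_of (R : ℕ) (y Z : ℝ) (n : ℕ) (hy : 1 ≤ y) (hn : n ≠ 0) (hnZ : (n : ℝ) ≤ Z) (hZ : Z < y ^ R)
    (h : ∀ p : ℕ, p.Prime → p ∣ n → y ≤ (p : ℝ)) : AP R y n := by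
  refine ⟨Nat.pos_of_ne_zero hn, ?_, h⟩
  by_contra hcon
  push Not at hcon
  have h2 := pow_length_le y (by linarith) n.primeFactorsList (fun p hp =>
    h p (Nat.prime_of_mem_primeFactorsList hp) (Nat.dvd_of_mem_primeFactorsList hp))
  rw [Nat.prod_primeFactorsList hn] at h2
  have h3 : y ^ R ≤ y ^ n.primeFactorsList.length := pow_le_pow_right₀ hy hcon.le
  linarith

open Classical in
/-- **Simultaneous almost prime values.** -/
theorem vals (k K : ℕ) (Hh κ δ : ℝ) (hκ : 0 < κ) (hδ : 0 < δ) :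
    ∃ (c : ℝ) (R N0 : ℕ), 0 < c ∧ c ≤ δ ∧ c ≤ κ ∧ ∀ N : ℕ, N0 ≤ N → ∀ (G : Fin k → ℤ → ℤ) (A : Finset ℤ),
      (∀ i, ∀ p : ℕ, p.Prime → ∀ m m' : ℤ, (p : ℤ) ∣ m - m' → (p : ℤ) ∣ G i m - G i m') →
      (∀ i, ∀ m : ℤ, 0 ≤ m → m ≤ N → |(G i m : ℝ)| ≤ (N : ℝ) ^ Hh) →
      (∀ i, ∀ p : ℕ, p.Prime → (p : ℤ) ∣ G i 0 → (N : ℝ) ^ κ ≤ p) →
      (∀ i, ∀ p : ℕ, p.Prime → ¬ (p : ℤ) ∣ G i 0 → (RR (fun m => (p : ℤ) ∣ G i m) p).card ≤ K) →
      (∀ a ∈ A, 1 ≤ a ∧ a ≤ N) → (N : ℝ) ^ (1 - c) ≤ A.card →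
      (N : ℝ) ^ (2 - δ) ≤ (((A ×ˢ A).filter (fun z : ℤ × ℤ => z.2 < z.1 ∧
        ∀ i, AP R ((N : ℝ) ^ c) (G i (z.1 - z.2)).natAbs)).card : ℝ) := by
  obtain ⟨δ1, hδ1⟩ : ∃ δ1 : ℝ, δ1 = min (min δ 1) (κ / 2) := ⟨_, rfl⟩
  have hδ10 : 0 < δ1 := by
    rw [hδ1]
    exact lt_min (lt_min hδ one_pos) (by linarith)
  have hδ1a : δ1 ≤ δ := by rw [hδ1]; exact (min_le_left _ _).trans (min_le_left _ _)
  have hδ1b : δ1 ≤ 1 := by rw [hδ1]; exact (min_le_left _ _).trans (min_le_right _ _)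
  have hδ1c : δ1 ≤ κ / 2 := by rw [hδ1]; exact min_le_right _ _
  obtain ⟨c, N1, hc0, hcδ, H1⟩ := core (k * K) δ1 hδ10 hδ1b
  obtain ⟨R, hR⟩ : ∃ R : ℕ, Hh / c < (R : ℝ) := exists_nat_gt _
  have ev2 : ∀ᶠ N : ℕ in atTop, (3 : ℝ) ≤ (N : ℝ) ^ c := (tpow hc0).eventually_ge_atTop _
  obtain ⟨N2, hN2⟩ := eventually_atTop.1 ev2
  refine ⟨c, R, max (max N1 N2) 3, hc0, by linarith, by linarith, ?_⟩
  intro N hN G A hper hsz hbase hroots hA hAc
  have hNN1 : N1 ≤ N := ((le_max_left _ _).trans (le_max_left _ _)).trans hN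
  have e2 := hN2 N (((le_max_right _ _).trans (le_max_left _ _)).trans hN)
  have hN3 : 3 ≤ N := (le_max_right _ _).trans hN
  have hNr : (3 : ℝ) ≤ N := by exact_mod_cast hN3
  have hN0 : (0 : ℝ) < N := by linarith
  have hN1' : (1 : ℝ) ≤ N := by linarith
  have hcκ : (N : ℝ) ^ c < (N : ℝ) ^ κ := Real.rpow_lt_rpow_of_exponent_lt (by linarith) (by linarith)
  obtain ⟨X, hX⟩ : ∃ X : ℕ → ℤ → Prop, X = fun (p : ℕ) (m : ℤ) => ∃ i, (p : ℤ) ∣ G i m := ⟨_, rfl⟩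
  have hmain := H1 N hNN1 X A (by
    intro p hp hpN
    have h0 : ∀ i, ¬ (p : ℤ) ∣ G i 0 := by
      intro i h
      have := hbase i p hp h
      linarith
    refine ⟨?_, ?_, ?_⟩
    · intro m m' h
      rw [hX]
      apply exists_congr
      intro i
      have h2 := hper i p hp m m' h
      constructor
      · intro h3
        exact (Int.dvd_iff_dvd_of_dvd_sub h2).1 h3
      · intro h3
        exact (Int.dvd_iff_dvd_of_dvd_sub h2).2 h3
    · rw [hX]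
      rintro ⟨i, hi⟩
      exact h0 i hi
    · rw [hX]
      have h1 : RR (fun m => ∃ i, (p : ℤ) ∣ G i m) p ⊆
          (univ : Finset (Fin k)).biUnion (fun i => RR (fun m => (p : ℤ) ∣ G i m) p) := by
        intro r hr
        rw [mem_RR] at hr
        obtain ⟨h1, i, hi⟩ := hr
        rw [mem_biUnion]
        exact ⟨i, mem_univ _, (mem_RR _ _ _).2 ⟨h1, hi⟩⟩
      refine (card_le_card h1).trans ((card_biUnion_le_card_mul _ _ K ?_).trans ?_)
      · intro i _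
        exact hroots i p hp (h0 i)
      · rw [card_univ, Fintype.card_fin]) hA hAc
  refine le_trans (Real.rpow_le_rpow_of_exponent_le hN1' (by linarith)) (hmain.trans ?_)
  apply Nat.cast_le.2
  apply card_le_card
  rintro ⟨a, b⟩ hz
  rw [mem_filter, mem_product] at hz ⊢
  obtain ⟨⟨ha, hb⟩, hlt, hfree⟩ := hz
  simp only at ha hb hlt hfree ⊢
  refine ⟨⟨ha, hb⟩, hlt, ?_⟩
  intro i
  have hpr : ∀ p : ℕ, p.Prime → p ∣ (G i (a - b)).natAbs → (N : ℝ) ^ c < p := by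
    intro p hp hpd
    by_contra hcon
    push Not at hcon
    apply hfree p hp hcon
    rw [hX]
    exact ⟨i, Int.natCast_dvd.2 hpd⟩
  have hne : (G i (a - b)).natAbs ≠ 0 := by
    intro h
    have h1 := hpr 2 Nat.prime_two (by rw [h]; exact dvd_zero 2)
    push_cast at h1
    linarith
  apply AP_of R _ ((N : ℝ) ^ Hh) _ (by linarith) hne
  · rw [Nat.cast_natAbs, Int.cast_abs]
    apply hsz i (a - b) (by linarith)
    have h1 := (hA a ha).2
    have h2 := (hA b hb).1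
    linarith
  · rw [← Real.rpow_natCast, ← Real.rpow_mul hN0.le]
    apply Real.rpow_lt_rpow_of_exponent_lt (by linarith)
    rw [div_lt_iff₀ hc0] at hR
    linarith
  · intro p hp hpd
    exact (hpr p hp hpd).le

/-- a linear function has at most one root modulo a prime not dividing its constant term -/
theorem roots_lin (α β : ℤ) (p : ℕ) (hp : p.Prime) (h : ¬ (p : ℤ) ∣ α * 0 + β) :
    (RR (fun m => (p : ℤ) ∣ α * m + β) p).card ≤ 1 := by
  rw [mul_zero, zero_add] at h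
  rw [card_le_one]
  intro r hr r' hr'
  rw [mem_RR] at hr hr'
  have h1 : (p : ℤ) ∣ α * ((r : ℤ) - r') := by
    have := dvd_sub hr.2 hr'.2
    have e : α * (r : ℤ) + β - (α * r' + β) = α * ((r : ℤ) - r') := by ring
    rwa [e] at this
  rcases (Nat.prime_iff_prime_int.1 hp).dvd_mul.1 h1 with h2 | h2
  · exfalso
    apply h
    have h3 := hr.2
    exact (Int.dvd_add_right (Dvd.dvd.mul_right h2 _)).1 h3
  · have h3 : (r' : ℤ) ≡ r [ZMOD p] := Int.modEq_iff_dvd.2 h2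
    have h4 : r' ≡ r [MOD p] := (Int.natCast_modEq_iff).1 h3
    exact (Nat.ModEq.eq_of_lt_of_lt h4 hr'.1 hr.1).symm

open Classical in
/-- **Linear forms.** -/
theorem lin (k : ℕ) (Hh κ δ : ℝ) (hκ : 0 < κ) (hδ : 0 < δ) :
    ∃ (c : ℝ) (R N0 : ℕ), 0 < c ∧ c ≤ δ ∧ c ≤ κ ∧ ∀ N : ℕ, N0 ≤ N → ∀ (α β : Fin k → ℤ) (A : Finset ℤ),
      (∀ i, |(α i : ℝ)| ≤ (N : ℝ) ^ Hh ∧ |(β i : ℝ)| ≤ (N : ℝ) ^ Hh) →
      (∀ i, ∀ p : ℕ, p.Prime → (p : ℤ) ∣ β i → (N : ℝ) ^ κ ≤ p) →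
      (∀ a ∈ A, 1 ≤ a ∧ a ≤ N) → (N : ℝ) ^ (1 - c) ≤ A.card →
      (N : ℝ) ^ (2 - δ) ≤ (((A ×ˢ A).filter (fun z : ℤ × ℤ => z.2 < z.1 ∧
        ∀ i, AP R ((N : ℝ) ^ c) (α i * (z.1 - z.2) + β i).natAbs)).card : ℝ) := by
  obtain ⟨c, R, N0, hc0, hcδ, hcκ, H⟩ := vals k 1 (Hh + 2) κ δ hκ hδ
  refine ⟨c, R, max N0 2, hc0, hcδ, hcκ, ?_⟩
  intro N hN α β A hsz hbase hA hAc
  have hN2 : (2 : ℝ) ≤ N := by exact_mod_cast (le_max_right _ _).trans hN
  have hN0 : (0 : ℝ) < N := by linarith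
  apply H N ((le_max_left _ _).trans hN) (fun i m => α i * m + β i) A _ _ _ _ hA hAc
  · intro i p _ m m' h
    have e : α i * m + β i - (α i * m' + β i) = α i * (m - m') := by ring
    rw [e]
    exact Dvd.dvd.mul_left h _
  · intro i m h0 hm
    obtain ⟨h1, h2⟩ := hsz i
    have hm0 : (0 : ℝ) ≤ m := by exact_mod_cast h0
    have hmN : (m : ℝ) ≤ N := by exact_mod_cast hm
    push_cast
    calc |(α i : ℝ) * m + β i| ≤ |(α i : ℝ) * m| + |(β i : ℝ)| := abs_add_le _ _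
      _ ≤ (N : ℝ) ^ Hh * N + (N : ℝ) ^ Hh := by
          rw [abs_mul, abs_of_nonneg hm0]
          exact add_le_add (mul_le_mul h1 hmN hm0 (by positivity)) h2
      _ = (N : ℝ) ^ Hh * (N + 1) := by ring
      _ ≤ (N : ℝ) ^ Hh * (N : ℝ) ^ (2 : ℝ) := by
          apply mul_le_mul_of_nonneg_left _ (by positivity)
          rw [Real.rpow_two]
          nlinarith
      _ = _ := by rw [← Real.rpow_add hN0]
  · intro i p hp h
    simp only [mul_zero, zero_add] at h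
    exact hbase i p hp h
  · intro i p hp h
    exact roots_lin (α i) (β i) p hp h

end Pool.Agent.H540.PS
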