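import Pool.Agent.H540.PS.Ram
import Pool.Agent.H540.PS.Expand

/-! The weights. -/

set_option autoImplicit false

namespace Pool.Agent.H540.PS

open Finset
open Pool.Agent.H540.DS (En En_nonneg)

/-- the smooth cut-off -/
noncomputable def hh (D : ℝ) (U : Finset ℕ) : ℝ := max 0 (1 - Real.log (∏ p ∈ U, p : ℕ) / Real.log D)

/-- the differences of the cut-off -/
noncomputable def kk (D : ℝ) (p : ℕ) (U : Finset ℕ) : ℝ := hh D U - hh D (insert p U)

theorem hh_nonneg (D : ℝ) (U : Finset ℕ) : 0 ≤ hh D U := le_max_left _ _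

theorem prod_ge_one (U : Finset ℕ) (hU : ∀ p ∈ U, p.Prime) : 1 ≤ ∏ p ∈ U, p :=
  prod_pos fun p hp => (hU p hp).pos

theorem hh_le_one (D : ℝ) (hD : 1 < D) (U : Finset ℕ) (hU : ∀ p ∈ U, p.Prime) : hh D U ≤ 1 := by
  unfold hh
  apply max_le zero_le_one
  have h1 : 0 ≤ Real.log (∏ p ∈ U, p : ℕ) := Real.log_nonneg (by exact_mod_cast prod_ge_one U hU)
  have h2 : 0 ≤ Real.log (∏ p ∈ U, p : ℕ) / Real.log D := div_nonneg h1 (Real.log_pos hD).le
  linarith

theorem hh_zero (D : ℝ) (hD : 1 < D) (U : Finset ℕ) (h : D < (∏ p ∈ U, p : ℕ)) : hh D U = 0 := by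
  unfold hh
  apply max_eq_left
  have h1 : Real.log D ≤ Real.log (∏ p ∈ U, p : ℕ) := Real.log_le_log (by linarith) h.le
  have h2 : 1 ≤ Real.log (∏ p ∈ U, p : ℕ) / Real.log D := by
    rw [le_div_iff₀ (Real.log_pos hD)]
    linarith
  linarith

theorem log_insert (U : Finset ℕ) (p : ℕ) (hp : p ∉ U) (hpp : p.Prime) (hU : ∀ p ∈ U, p.Prime) :
    Real.log (∏ q ∈ insert p U, q : ℕ) = Real.log p + Real.log (∏ q ∈ U, q : ℕ) := by
  rw [prod_insert hp]
  push_cast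
  rw [Real.log_mul]
  · exact_mod_cast hpp.ne_zero
  · rw [prod_ne_zero_iff]
    intro q hq
    exact_mod_cast (hU q hq).ne_zero

theorem kk_nonneg (D : ℝ) (hD : 1 < D) (p : ℕ) (U : Finset ℕ) (hp : p ∉ U) (hpp : p.Prime)
    (hU : ∀ p ∈ U, p.Prime) : 0 ≤ kk D p U := by
  unfold kk hh
  rw [log_insert U p hp hpp hU]
  have h1 : 0 ≤ Real.log p := Real.log_natCast_nonneg p
  have h2 : Real.log (∏ q ∈ U, q : ℕ) / Real.log D ≤
      (Real.log p + Real.log (∏ q ∈ U, q : ℕ)) / Real.log D :=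
    div_le_div_of_nonneg_right (by linarith) (Real.log_pos hD).le
  have h3 : max 0 (1 - (Real.log p + Real.log (∏ q ∈ U, q : ℕ)) / Real.log D) ≤
      max 0 (1 - Real.log (∏ q ∈ U, q : ℕ) / Real.log D) := max_le_max (le_refl _) (by linarith)
  linarith

theorem kk_le (D : ℝ) (hD : 1 < D) (p : ℕ) (U : Finset ℕ) (hp : p ∉ U) (hpp : p.Prime)
    (hU : ∀ p ∈ U, p.Prime) : kk D p U ≤ Real.log p / Real.log D := by
  unfold kk hh
  rw [log_insert U p hp hpp hU]
  have h1 : 0 ≤ Real.log p / Real.log D := div_nonneg (Real.log_natCast_nonneg p) (Real.log_pos hD).le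
  have h2 : (Real.log p + Real.log (∏ q ∈ U, q : ℕ)) / Real.log D =
      Real.log p / Real.log D + Real.log (∏ q ∈ U, q : ℕ) / Real.log D := add_div _ _ _
  rw [h2]
  rcases le_total 0 (1 - Real.log (∏ q ∈ U, q : ℕ) / Real.log D) with h | h
  · rw [max_eq_right h]
    have := le_max_right 0 (1 - (Real.log p / Real.log D + Real.log (∏ q ∈ U, q : ℕ) / Real.log D))
    linarith
  · rw [max_eq_left h]
    have := le_max_left 0 (1 - (Real.log p / Real.log D + Real.log (∏ q ∈ U, q : ℕ) / Real.log D))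
    linarith

theorem kk_zero (D : ℝ) (hD : 1 < D) (p : ℕ) (U : Finset ℕ) (hp : p ∉ U) (hpp : p.Prime)
    (hU : ∀ p ∈ U, p.Prime) (h : D < (∏ q ∈ U, q : ℕ)) : kk D p U = 0 := by
  have h1 := hh_zero D hD U h
  have h2 := kk_nonneg D hD p U hp hpp hU
  have h3 := hh_nonneg D (insert p U)
  unfold kk at h2 ⊢
  linarith

section

variable (K : ℕ) (X : ℕ → ℤ → Prop)

/-- the local weight -/
noncomputable def tt (p : ℕ) (m : ℤ) : ℝ := (K + 1) * uu p m - xI (X p) m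

/-- its part of mean zero -/
noncomputable def ss (p : ℕ) (m : ℤ) : ℝ := (K + 1) * vv p m - yy (X p) p m

/-- the part of mean zero of its square -/
noncomputable def rr (p : ℕ) (m : ℤ) : ℝ := (K + 1) ^ 2 * vv p m + yy (X p) p m

/-- the mean of the local weight -/
noncomputable def aa (p : ℕ) : ℝ := ((K + 1) - (RR (X p) p).card) / p

/-- the mean of the square of the local weight -/
noncomputable def bb (p : ℕ) : ℝ := ((K + 1) ^ 2 + (RR (X p) p).card) / p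

theorem tt_eq (p : ℕ) (m : ℤ) : tt K X p m = aa K X p + ss K X p m := by
  unfold tt aa ss vv yy
  ring

theorem xI_cases (Y : ℤ → Prop) (m : ℤ) : (Y m ∧ xI Y m = 1) ∨ (¬ Y m ∧ xI Y m = 0) := by
  classical
  unfold xI
  by_cases h : Y m
  · exact Or.inl ⟨h, if_pos h⟩
  · exact Or.inr ⟨h, if_neg h⟩

theorem uu_cases (p : ℕ) (m : ℤ) : ((p : ℤ) ∣ m ∧ uu p m = 1) ∨ (¬ (p : ℤ) ∣ m ∧ uu p m = 0) := by
  unfold uu
  by_cases h : (p : ℤ) ∣ m
  · exact Or.inl ⟨h, if_pos h⟩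
  · exact Or.inr ⟨h, if_neg h⟩

variable {K X}

theorem ux_zero {p : ℕ} (h : Ev (X p) p K) (m : ℤ) : uu p m * xI (X p) m = 0 := by
  rcases xI_cases (X p) m with h1 | h1
  · rcases uu_cases p m with h2 | h2
    · exfalso
      have h3 : (p : ℤ) ∣ m - 0 := by rw [sub_zero]; exact h2.1
      exact h.zero ((h.per m 0 h3).1 h1.1)
    · rw [h2.2, zero_mul]
  · rw [h1.2, mul_zero]

theorem tt_sq {p : ℕ} (h : Ev (X p) p K) (m : ℤ) : tt K X p m ^ 2 = bb K X p + rr K X p m := by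
  have h1 : bb K X p + rr K X p m = (K + 1) ^ 2 * uu p m + xI (X p) m := by
    unfold bb rr vv yy
    ring
  rw [h1]
  unfold tt
  have h2 := ux_zero h m
  have h3 : uu p m ^ 2 = uu p m := by rcases uu_cases p m with h | h <;> rw [h.2] <;> norm_num
  have h4 : xI (X p) m ^ 2 = xI (X p) m := by
    rcases xI_cases (X p) m with h | h <;> rw [h.2] <;> norm_num
  calc ((K + 1 : ℝ) * uu p m - xI (X p) m) ^ 2 = (K + 1) ^ 2 * uu p m ^ 2 -
        2 * (K + 1) * (uu p m * xI (X p) m) + xI (X p) m ^ 2 := by ring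
    _ = _ := by rw [h2, h3, h4]; ring

theorem ss_PD {p : ℕ} (h : Ev (X p) p K) (hp : 0 < p) : PD (ss K X p) := by
  refine (comb_PD h hp (K + 1) (-1) ?_).congr (fun m => ?_)
  · rw [abs_neg, abs_one]
    linarith
  · unfold ss
    ring

theorem rr_PD {p : ℕ} (h : Ev (X p) p K) (hp : 0 < p) : PD (rr K X p) := by
  refine (comb_PD h hp ((K + 1) ^ 2) 1 ?_).congr (fun m => ?_)
  · rw [abs_one]
    nlinarith [(Nat.cast_nonneg K : (0 : ℝ) ≤ K)]
  · unfold rr
    ring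

theorem aa_nonneg {p : ℕ} (h : Ev (X p) p K) : 0 ≤ aa K X p := by
  unfold aa
  apply div_nonneg _ (Nat.cast_nonneg _)
  have : ((RR (X p) p).card : ℝ) ≤ K := by exact_mod_cast h.card
  linarith

theorem bb_nonneg (p : ℕ) : 0 ≤ bb K X p := by
  unfold bb
  positivity

theorem tt_PD {p : ℕ} (h : Ev (X p) p K) (hp : 0 < p) : PD (tt K X p) :=
  ((PD.const _ (aa_nonneg h)).add (ss_PD h hp)).congr (fun m => (tt_eq K X p m).symm)

theorem ss_dom {p : ℕ} (h : Ev (X p) p K) (hp : 0 < p) :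
    PD (fun m => ((K + 1 : ℝ) ^ 2 + K) * vv p m - ss K X p m) := by
  refine (comb_PD h hp (((K + 1 : ℝ) ^ 2 + K) - (K + 1)) 1 ?_).congr (fun m => ?_)
  · rw [abs_one]
    nlinarith [(Nat.cast_nonneg K : (0 : ℝ) ≤ K)]
  · unfold ss
    ring

theorem rr_dom {p : ℕ} (h : Ev (X p) p K) (hp : 0 < p) :
    PD (fun m => ((K + 1 : ℝ) ^ 2 + K) * vv p m - rr K X p m) := by
  refine (comb_PD h hp K (-1) ?_).congr (fun m => ?_)
  · rw [abs_neg, abs_one]
    linarith
  · unfold rr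
    ring

/-- the main weight -/
noncomputable def Lam (K : ℕ) (X : ℕ → ℤ → Prop) (D : ℝ) (P : Finset ℕ) (m : ℤ) : ℝ :=
  ∑ U ∈ P.powerset, hh D U * ∏ p ∈ U, tt K X p m

/-- its value when `m` is in the set modulo `p` -/
noncomputable def Lp (K : ℕ) (X : ℕ → ℤ → Prop) (D : ℝ) (P : Finset ℕ) (p : ℕ) (m : ℤ) : ℝ :=
  ∑ U ∈ (P.erase p).powerset, kk D p U * ∏ p ∈ U, tt K X p m

theorem Lam_eq {D : ℝ} {P : Finset ℕ} {p : ℕ} (hp : p ∈ P) (h : Ev (X p) p K) (m : ℤ)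
    (hm : X p m) : Lam K X D P m = Lp K X D P p m := by
  have h1 : tt K X p m = -1 := by
    have h2 := ux_zero h m
    have h3 : xI (X p) m = 1 := by
      rcases xI_cases (X p) m with h4 | h4
      · exact h4.2
      · exact absurd hm h4.1
    rw [h3, mul_one] at h2
    unfold tt
    rw [h2, h3]
    ring
  unfold Lam Lp
  conv_lhs => rw [← insert_erase hp]
  rw [sum_powerset_insert (notMem_erase p P), ← sum_add_distrib]
  apply sum_congr rfl
  intro U hU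
  have hpU : p ∉ U := fun h => notMem_erase p P (mem_powerset.1 hU h)
  rw [prod_insert hpU, h1]
  unfold kk
  ring

/-- the lower bound weight -/
noncomputable def ff (K : ℕ) (X : ℕ → ℤ → Prop) (D : ℝ) (P : Finset ℕ) (m : ℤ) : ℝ :=
  Lam K X D P m ^ 2 - ∑ p ∈ P, xI (X p) m * Lp K X D P p m ^ 2

theorem ff_eq {D : ℝ} {P : Finset ℕ} (h : ∀ p ∈ P, Ev (X p) p K) (m : ℤ) :
    ff K X D P m = Lam K X D P m ^ 2 * (1 - ∑ p ∈ P, xI (X p) m) := by
  unfold ff
  rw [mul_sub, mul_one, mul_sum]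
  congr 1
  apply sum_congr rfl
  intro p hp
  rcases xI_cases (X p) m with h4 | h4
  · rw [Lam_eq hp (h p hp) m h4.1, h4.2]
    ring
  · rw [h4.2]
    ring

theorem xI_nonneg (Y : ℤ → Prop) (m : ℤ) : 0 ≤ xI Y m := by
  rcases xI_cases Y m with h | h <;> rw [h.2]
  norm_num

theorem ff_nonpos {D : ℝ} {P : Finset ℕ} (h : ∀ p ∈ P, Ev (X p) p K) (m : ℤ) {p : ℕ} (hp : p ∈ P)
    (hm : X p m) : ff K X D P m ≤ 0 := by
  rw [ff_eq h]
  apply mul_nonpos_of_nonneg_of_nonpos (sq_nonneg _)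
  have h1 : xI (X p) m ≤ ∑ p ∈ P, xI (X p) m :=
    single_le_sum (f := fun p => xI (X p) m) (fun p _ => xI_nonneg _ m) hp
  rcases xI_cases (X p) m with h4 | h4
  · rw [h4.2] at h1
    linarith
  · exact absurd hm h4.1

theorem ff_le {D : ℝ} {P : Finset ℕ} (m : ℤ) : ff K X D P m ≤ Lam K X D P m ^ 2 := by
  unfold ff
  have : 0 ≤ ∑ p ∈ P, xI (X p) m * Lp K X D P p m ^ 2 :=
    sum_nonneg fun p _ => mul_nonneg (xI_nonneg _ m) (sq_nonneg _)
  linarith

end

end Pool.Agent.H540.PS
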